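import Pool.Agent.Lib.MP_4e5fcd_ag.CB.Base
import Pool.Agent.Lib.MP_4e5fcd_ag.HY.A2
import Pool.Agent.Lib.MP_4e5fcd_ag.HY.A3
import Pool.Agent.Lib.MP_4e5fcd_ag.CN.V1

/-!
# CB-A1: the property of the statement and that of the proof

`visK_iff_vt`. Let `I = span (range f)`. If `VisK`, take `v = vec f n γ₀`, which is not `0` by `ne_iff`
(HY/A2; `TO f n γ₀` by `ordGe_iff`); `CA_eq_CT` (HY/A2) rewrites the sets in `ksum`. If `VT` with `v`:
the sum is not zero, so some `CT f p v n`, `1 ≤ n ≤ K`, is not empty (`cls_empty`, `map_zero`); take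
`γ₀` in it: `bp γ₀ = p`, `TO f n γ₀`, `vec f n γ₀ = v`; then as before.

`nearK_iff`: `‖p - 0‖ = ‖p‖`. `→`: given `p`, `y` with `lefSum ≠ 0`: some `contactArcs I p y n`,
`1 ≤ n ≤ K`, is not empty; `γ₀` in it has `bp γ₀ = p`, `OrdGe I n γ₀`, and for `f ∈ I` the coefficient
`n` along `γ₀` is `y.φ 1 f`, so it is non-zero for some `f ∈ I` (`y.Nonzero`), and
`CA I p (fun f => (along f γ₀).coeff n) d = contactArcs I p y d` for all `d` (the two definitions are
the same up to the functional on elements of `I`). `←`: `exists_conePoint_jet` (HY/C2) gives `y` with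
`y.φ 1 f = (along f γ₀).coeff n`; `eval p f = 0` for `f ∈ I`: coefficient `0` along `γ₀`
(`LF.coeff_along_zero`, as in `cone_of_vis`, CN/V1). The factors are in a different order
(`mul_comm`).

`mp_iff`: unfold (`IsPole Z s₀` is `Z ∉ polarRing s₀`, `expo` is the exponential) and `nearK_iff`.
-/

open MvPolynomial

namespace MotMono
namespace CB

open CN HY

variable {N r : ℕ}

private theorem A1_exists {χ : K0 →+* ℤ} (S : (d : ℕ) → Set (Fin N × Fin (d + 1) → ℂ)) (lam : ℂ) (K : ℕ)
    (h : ∑ d ∈ Finset.Icc 1 K, lam ^ d * ((χ (cls (S d)) : ℤ) : ℂ) ≠ 0) :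
    ∃ d, 1 ≤ d ∧ (S d).Nonempty := by
  by_contra hcon
  push Not at hcon
  apply h
  refine Finset.sum_eq_zero fun d hd => ?_
  rw [hcon d (Finset.mem_Icc.1 hd).1, cls_empty, map_zero, Int.cast_zero, mul_zero]

private theorem A1_mul {n : ℕ} (f g : MvPolynomial (Fin N) ℂ) (γ : Fin N × Fin n → ℂ) :
    along (f * g) γ = along f γ * along g γ := map_mul _ _ _

private theorem A1_add {n : ℕ} (f g : MvPolynomial (Fin N) ℂ) (γ : Fin N × Fin n → ℂ) :
    along (f + g) γ = along f γ + along g γ := map_add _ _ _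

private theorem A1_dvd_pow {m : ℕ} (I : Ideal (MvPolynomial (Fin N) ℂ))
    (γ : Fin N × Fin m → ℂ) (n : ℕ) (h : ∀ f ∈ I, ∀ l < n, (along f γ).coeff l = 0) (k : ℕ) :
    ∀ c ∈ I ^ k, Polynomial.X ^ (n * k) ∣ along c γ := by
  induction k with
  | zero => intro c _; simp
  | succ k ih =>
    intro c hc
    rw [pow_succ] at hc
    refine Submodule.mul_induction_on hc (fun a ha b hb => ?_) (fun a b ha hb => ?_)
    · rw [A1_mul, Nat.mul_succ, pow_add]
      exact mul_dvd_mul (ih a ha) (Polynomial.X_pow_dvd_iff.2 (h b hb))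
    · rw [A1_add]
      exact dvd_add ha hb

private theorem A1_coeff_mul {F G : Polynomial ℂ} {m m' : ℕ} (hF : Polynomial.X ^ m ∣ F)
    (hG : Polynomial.X ^ m' ∣ G) : (F * G).coeff (m + m') = F.coeff m * G.coeff m' := by
  obtain ⟨u, rfl⟩ := hF
  obtain ⟨v, rfl⟩ := hG
  have e : Polynomial.X ^ m * u * (Polynomial.X ^ m' * v) =
      Polynomial.X ^ (m + m') * (u * v) := by
    rw [pow_add]; ring
  rw [e]
  have c1 := Polynomial.coeff_X_pow_mul (u * v) (m + m') 0
  have c2 := Polynomial.coeff_X_pow_mul u m 0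
  have c3 := Polynomial.coeff_X_pow_mul v m' 0
  rw [zero_add] at c1 c2 c3
  rw [c1, c2, c3, Polynomial.mul_coeff_zero]

private theorem A1_key {χ : K0 →+* ℤ} (I : Ideal (MvPolynomial (Fin N) ℂ)) (p : Fin N → ℂ) (Λ : ℂ)
    (K : ℕ) : ((∀ f ∈ I, eval p f = 0) ∧ ∃ y : ConePoint I p, y.Nonzero ∧ lefSum χ I p y Λ K ≠ 0) ↔
      VisK χ I p Λ K := by
  have hcomm : ∀ S : (d : ℕ) → Set (Fin N × Fin (d + 1) → ℂ),
      ∑ d ∈ Finset.Icc 1 K, ((χ (cls (S d)) : ℤ) : ℂ) * Λ ^ d =
        ∑ d ∈ Finset.Icc 1 K, Λ ^ d * ((χ (cls (S d)) : ℤ) : ℂ) := fun S =>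
    Finset.sum_congr rfl fun d _ => mul_comm _ _
  constructor
  · rintro ⟨-, y, ⟨f0, hf0, hne⟩, hs⟩
    unfold lefSum at hs
    rw [hcomm] at hs
    obtain ⟨n, hn, γ, hγ⟩ := A1_exists _ _ _ hs
    have hc : ∀ f ∈ I, (along f γ).coeff n = y.φ 1 f := fun f hf => (hγ.2 f hf).2
    refine ⟨n, γ, hn, funext hγ.1, fun f hf => (hγ.2 f hf).1, ⟨f0, hf0, ?_⟩, ?_⟩
    · rw [hc f0 hf0]
      exact hne
    · have hb : bp γ = p := funext hγ.1
      have e : ∀ m, CA I p (fun f => (along f γ).coeff n) m = contactArcs I p y m := by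
        intro m
        ext δ
        constructor
        · rintro ⟨h1, h2⟩
          exact ⟨h1, fun f hf => ⟨(h2 f hf).1, ((h2 f hf).2).trans (hc f hf)⟩⟩
        · rintro ⟨h1, h2⟩
          exact ⟨h1, fun f hf => ⟨(h2 f hf).1, ((h2 f hf).2).trans (hc f hf).symm⟩⟩
      unfold ksum
      rw [hb]
      intro h0
      apply hs
      rw [← h0]
      refine Finset.sum_congr rfl fun d _ => ?_
      rw [e d]
  · rintro ⟨n, γ, hn, hbp, hord, ⟨f0, hf0, hne⟩, hk⟩
    have h0 : ∀ f : MvPolynomial (Fin N) ℂ, (along f γ).coeff 0 = eval p f := by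
      intro f
      rw [LF.coeff_along_zero, ← hbp]
      rfl
    refine ⟨fun f hf => ?_, ?_⟩
    · rw [← h0 f]
      exact hord f hf 0 (by omega)
    · let y : ConePoint I p :=
        { φ := fun k f => (along f γ).coeff (n * k)
          base := fun f => by
            show (along f γ).coeff (n * 0) = eval p f
            rw [Nat.mul_zero, h0]
          add := fun k f _ g _ => by
            show (along (f + g) γ).coeff (n * k) = _
            rw [A1_add, Polynomial.coeff_add]
          mul := fun k l f hf g hg => by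
            show (along (f * g) γ).coeff (n * (k + l)) = _
            rw [A1_mul, Nat.mul_add]
            exact A1_coeff_mul (A1_dvd_pow I γ n hord _ _ hf) (A1_dvd_pow I γ n hord _ _ hg) }
      have hy : ∀ f, y.φ 1 f = (along f γ).coeff n := by
        intro f
        show (along f γ).coeff (n * 1) = _
        rw [Nat.mul_one]
      have e : ∀ d, contactArcs I p y d = CA I p (fun f => (along f γ).coeff n) d := by
        intro d
        ext δ
        unfold contactArcs CA
        simp only [Set.mem_ofPred_eq, hy]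
      refine ⟨y, ⟨f0, hf0, ?_⟩, ?_⟩
      · rw [hy]
        exact hne
      · unfold lefSum
        rw [hcomm]
        unfold ksum at hk
        rw [hbp] at hk
        intro h1
        apply hk
        rw [← h1]
        refine Finset.sum_congr rfl fun d _ => ?_
        rw [e d]

theorem visK_iff_vt {χ : K0 →+* ℤ} (f : Fin r → MvPolynomial (Fin N) ℂ) (p : Fin N → ℂ) (lam : ℂ)
    (K : ℕ) : VisK χ (Ideal.span (Set.range f)) p lam K ↔ VT χ f p lam K := by
  constructor
  · rintro ⟨n, γ₀, hn, hb, ho, hne, hk⟩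
    subst hb
    have h2 := (ordGe_iff f n γ₀).1 ho
    refine ⟨vec f n γ₀, (ne_iff f n γ₀ h2).1 hne, ?_⟩
    intro h0
    apply hk
    rw [← h0]
    refine Finset.sum_congr rfl fun d _ => ?_
    rw [CA_eq_CT f γ₀ h2]
  · rintro ⟨v, hv, hk⟩
    obtain ⟨n, hn, γ₀, h1, h2, h3⟩ := A1_exists _ _ _ hk
    subst h1
    subst h3
    refine ⟨n, γ₀, hn, rfl, (ordGe_iff f n γ₀).2 h2, (ne_iff f n γ₀ h2).2 hv, ?_⟩
    intro h0
    apply hk
    rw [← h0]
    refine Finset.sum_congr rfl fun d _ => ?_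
    rw [CA_eq_CT f γ₀ h2]

theorem nearK_iff {χ : K0 →+* ℤ} (I : Ideal (MvPolynomial (Fin N) ℂ)) (Λ : ℂ) :
    ZeroOrPoleNear χ I Λ ↔ NearK χ I 0 Λ := by
  unfold ZeroOrPoleNear NearK
  refine forall_congr' fun ε => forall_congr' fun _ => exists_congr fun K₀ =>
    and_congr_right fun _ => forall_congr' fun K => forall_congr' fun _ => forall_congr' fun _ =>
      exists_congr fun p => ?_
  rw [sub_zero, A1_key]

theorem mp_iff {χ : K0 →+* ℤ} (I : Ideal (MvPolynomial (Fin N) ℂ)) :
    MonodromyProperty χ I ↔ MP χ I := by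
  unfold MonodromyProperty MP
  refine forall_congr' fun s₀ => forall_congr' fun _ => ?_
  unfold IsPole expo
  rw [nearK_iff]

end CB
end MotMono
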