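import Pool.Agent.Lib.MP_4e5fcd_ag.CB.Base
import Pool.Agent.Lib.MP_4e5fcd_ag.CN.V4
import Pool.Agent.Lib.MP_4e5fcd_ag.TV.E1

/-!
# CB-A2: charts

`visK_chart`: `→` as `vis_push` (TV/E1), `←` as `vis_chart` (CN/V2) resp. `perAt_push` (HY/R0); the
jets are the same as there, and `ksum` is transferred by `chi_CA_chart` (CN/E5) for each `d`.

`nearK_of_locPull`: copy the proof of `near_of_locPull` (CN/V4), with the new quantifiers: given `ε`
choose `δ` there, then `K₀` from `hn δ`, and for each `K` the point.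

`nearK_rename`: `Chart (span {rename F}) (span {F}) X (Fin.castAdd k) 1` (as the charts in HY/R7:
`push` and `pull` are immediate from `aeval (fun i => X (castAdd k i)) F = rename (castAdd k) F`;
Jacobian `1` as there), then `visK_chart`, and `‖p ∘ castAdd k‖ ≤ ‖p‖`.
-/

open MvPolynomial

namespace MotMono
namespace CB

open CN HY

private theorem a2_ksum {N k : ℕ} {I : Ideal (MvPolynomial (Fin N) ℂ)}
    {G : Ideal (MvPolynomial (Fin k) ℂ)} {u : Fin N → MvPolynomial (Fin N) ℂ}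
    {e : Fin k → Fin N} {h : MvPolynomial (Fin N) ℂ} {χ : K0 →+* ℤ} (hχ : IsEulerCharF χ)
    (c : Chart I G u e h) {n : ℕ} (γ : Fin N × Fin (n + 1) → ℂ) (hp : eval (bp γ) h ≠ 0)
    (hj : eval (bp γ) (jacDet u) ≠ 0) (ho : OrdGe I n γ) (lam : ℂ) (K : ℕ) :
    ksum χ I γ lam K = ksum χ G (cj (fun i => u (e i)) γ) lam K := by
  unfold ksum
  refine Finset.sum_congr rfl fun d _ => ?_
  rw [chi_CA_chart hχ c γ hp hj ho d]

theorem visK_chart {N k : ℕ} {I : Ideal (MvPolynomial (Fin N) ℂ)}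
    {G : Ideal (MvPolynomial (Fin k) ℂ)} {u : Fin N → MvPolynomial (Fin N) ℂ}
    {e : Fin k → Fin N} {h : MvPolynomial (Fin N) ℂ} {χ : K0 →+* ℤ} (hχ : IsEulerCharF χ)
    (c : Chart I G u e h) (p : Fin N → ℂ) (hp : eval p h ≠ 0) (hj : eval p (jacDet u) ≠ 0)
    (lam : ℂ) (K : ℕ) :
    VisK χ I p lam K ↔ VisK χ G (fun i => eval p (u (e i))) lam K := by
  classical
  constructor
  · rintro ⟨n, γ, hn, hb, ho, hne, hk⟩
    have hp' : eval (bp γ) h ≠ 0 := by rw [hb]; exact hp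
    have hj' : eval (bp γ) (jacDet u) ≠ 0 := by rw [hb]; exact hj
    have hb' : bp (cj (fun i => u (e i)) γ) = fun i => eval p (u (e i)) := by
      rw [bp_cj, hb]
    refine ⟨n, cj (fun i => u (e i)) γ, hn, hb', (ordGe_chart c γ hp' (Nat.le_succ n)).1 ho,
      (ne_chart c γ hp' ho).1 hne, ?_⟩
    rw [← a2_ksum hχ c γ hp' hj' ho lam K]
    exact hk
  · rintro ⟨n, δ, hn, hb, ho, hne, hk⟩
    obtain ⟨Ψ, -, hΨ, -⟩ := exists_lift u n
    set z : Fin N ⊕ (Fin N × Fin (n + 1)) → ℂ :=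
      Sum.elim p (fun q => if h : ∃ i, e i = q.1 then δ (h.choose, q.2) else 0) with hz
    obtain ⟨h1, h2⟩ := hΨ z hj
    have hbp : bp (Ψ z) = p := funext fun i => h1 i
    have hcj : cj (fun i => u (e i)) (Ψ z) = δ := by
      funext q
      obtain ⟨i, l⟩ := q
      by_cases hl : l = 0
      · subst hl
        have h3 := congrFun (bp_cj (fun i => u (e i)) (Ψ z)) i
        have h4 := congrFun hb i
        unfold bp at h3 h4
        rw [h3, h4]
        show eval (bp (Ψ z)) (u (e i)) = eval p (u (e i))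
        rw [hbp]
      · have h3 := h2 (e i) l hl
        have h4 : ∃ j, e j = e i := ⟨i, rfl⟩
        have h5 : h4.choose = i := c.inj h4.choose_spec
        have h6 : z (Sum.inr (e i, l)) = δ (i, l) := by
          show (if h : ∃ j, e j = e i then δ (h.choose, l) else 0) = δ (i, l)
          rw [dif_pos h4, h5]
        rw [← h6, ← h3]
        rfl
    have hp' : eval (bp (Ψ z)) h ≠ 0 := by rw [hbp]; exact hp
    have hj' : eval (bp (Ψ z)) (jacDet u) ≠ 0 := by rw [hbp]; exact hj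
    have ho' : OrdGe I n (Ψ z) := by
      rw [ordGe_chart c (Ψ z) hp' (Nat.le_succ n), hcj]
      exact ho
    refine ⟨n, Ψ z, hn, hbp, ho', ?_, ?_⟩
    · rw [ne_chart c (Ψ z) hp' ho', hcj]
      exact hne
    · rw [a2_ksum hχ c (Ψ z) hp' hj' ho' lam K, hcj]
      exact hk

theorem nearK_of_locPull {N k : ℕ} {χ : K0 →+* ℤ} (hχ : IsEulerCharF χ)
    (I : Ideal (MvPolynomial (Fin N) ℂ)) (p : Fin N → ℂ) (G : Ideal (MvPolynomial (Fin k) ℂ))
    (h : LocPull I p G) (lam : ℂ) (hn : NearK χ G 0 lam) : NearK χ I p lam := by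
  obtain ⟨u, e, g, hinj, hg, hjac, h0, hpush, hpull⟩ := h
  intro ε hε
  have c : Chart I G u e g := ⟨hinj, hpush, hpull⟩
  have hopen : IsOpen {z : Fin N → ℂ | eval z g ≠ 0 ∧ eval z (jacDet u) ≠ 0} :=
    (isOpen_ne_fun (MvPolynomial.continuous_eval g) continuous_const).inter
      (isOpen_ne_fun (MvPolynomial.continuous_eval (jacDet u)) continuous_const)
  obtain ⟨r, hr, hball⟩ := Metric.isOpen_iff.1 hopen p ⟨hg, hjac⟩
  obtain ⟨δ, hδ, hδ'⟩ := exists_near_preimage u p hjac (min ε r) (lt_min hε hr)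
  obtain ⟨K₀, hK₀, hK⟩ := hn δ hδ
  refine ⟨K₀, hK₀, fun K hK1 hK2 => ?_⟩
  obtain ⟨q', hq', hvis⟩ := hK K hK1 hK2
  have hq : ‖Function.extend e q' (fun j => eval p (u j)) - fun i => eval p (u i)‖ < δ := by
    rw [pi_norm_lt_iff hδ]
    intro j
    by_cases hj : ∃ i, e i = j
    · obtain ⟨i, rfl⟩ := hj
      rw [Pi.sub_apply, hinj.extend_apply, h0 i, sub_zero]
      rw [sub_zero] at hq'
      exact lt_of_le_of_lt (norm_le_pi_norm q' i) hq'
    · rw [Pi.sub_apply, Function.extend_apply' _ _ _ hj, sub_self, norm_zero]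
      exact hδ
  obtain ⟨p', hp', hpq⟩ := hδ' _ hq
  have hp'r := hball (show p' ∈ Metric.ball p r by
    rw [Metric.mem_ball, dist_eq_norm]; exact lt_of_lt_of_le hp' (min_le_right _ _))
  refine ⟨p', lt_of_lt_of_le hp' (min_le_left _ _), ?_⟩
  refine (visK_chart hχ c p' hp'r.1 hp'r.2 lam K).2 ?_
  have : (fun i => eval p' (u (e i))) = q' := by
    funext i
    rw [hpq (e i), hinj.extend_apply]
  rw [this]
  exact hvis

private theorem a2_rename {n k : ℕ} (g : MvPolynomial (Fin n) ℂ) :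
    aeval (fun i => (X (Fin.castAdd k i) : MvPolynomial (Fin (n + k)) ℂ)) g =
      rename (Fin.castAdd k) g := by
  rw [rename_eq_aeval]
  rfl

private theorem a2_jac (N : ℕ) : jacDet (fun i => (X i : MvPolynomial (Fin N) ℂ)) = 1 := by
  unfold jacDet
  have : (Matrix.of fun i j => pderiv j (X i : MvPolynomial (Fin N) ℂ)) = 1 := by
    ext1 i j
    rw [Matrix.of_apply, pderiv_X, Matrix.one_apply, Pi.single_apply]
  rw [this, Matrix.det_one]

private theorem a2_chart {n k : ℕ} (F : MvPolynomial (Fin n) ℂ) :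
    Chart (Ideal.span {rename (Fin.castAdd k) F}) (Ideal.span {F})
      (fun i => (X i : MvPolynomial (Fin (n + k)) ℂ)) (Fin.castAdd k) 1 := by
  refine ⟨Fin.castAdd_injective n k, ?_, ?_⟩
  · intro g hg
    rw [one_mul, a2_rename]
    obtain ⟨a, rfl⟩ := Ideal.mem_span_singleton'.1 hg
    rw [map_mul]
    exact Ideal.mul_mem_left _ _ (Ideal.subset_span rfl)
  · intro f hf
    rw [one_mul]
    obtain ⟨a, rfl⟩ := Ideal.mem_span_singleton'.1 hf
    refine Ideal.mul_mem_left _ _ (Ideal.subset_span ⟨F, Ideal.subset_span rfl, ?_⟩)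
    rw [a2_rename]

theorem nearK_rename {χ : K0 →+* ℤ} (hχ : IsEulerCharF χ) {n k : ℕ} (F : MvPolynomial (Fin n) ℂ)
    (lam : ℂ) (hn : NearK χ (Ideal.span {rename (Fin.castAdd k) F}) 0 lam) :
    NearK χ (Ideal.span {F}) 0 lam := by
  intro ε hε
  obtain ⟨K₀, hK₀, hK⟩ := hn ε hε
  refine ⟨K₀, hK₀, fun K hK1 hK2 => ?_⟩
  obtain ⟨p, hp, hvis⟩ := hK K hK1 hK2
  refine ⟨fun i => p (Fin.castAdd k i), ?_, ?_⟩
  · rw [sub_zero] at hp ⊢
    rw [pi_norm_lt_iff hε]
    intro i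
    exact lt_of_le_of_lt (norm_le_pi_norm p (Fin.castAdd k i)) hp
  · have h1 := (visK_chart hχ (a2_chart (k := k) F) p (by rw [map_one]; exact one_ne_zero)
      (by rw [a2_jac, map_one]; exact one_ne_zero) lam K).1 hvis
    have h2 : (fun i : Fin n => eval p (X (Fin.castAdd k i) : MvPolynomial (Fin (n + k)) ℂ)) =
        fun i => p (Fin.castAdd k i) := by
      funext i
      rw [eval_X]
    rw [h2] at h1
    exact h1

end CB
end MotMono
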