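import Pool.Agent.Lib.MP_4e5fcd_ag.CB.A2
import Pool.Agent.Lib.MP_4e5fcd_ag.HY.A3

/-!
# CB-A3: smooth points

Proof. Put `u i = X i - C (p i)` for `i ≠ j` and `u j = f`, `G = span {X 0} ⊆ ℂ[X 0]` (`k = 1`),
`e = fun _ => j`, `h = 1`. `Chart (span {f}) G u e 1`: `aeval (fun i => u (e i)) (X 0) = f`; `push`,
`pull` by membership in principal ideals. `jacDet u`, evaluated at `p`: the matrix is the identity
with row `j` replaced by the gradient of `f` at `p` (map the determinant through `eval p`,
`RingHom.map_det`), so its determinant is `eval p (pderiv j f)` (e.g. `Matrix.cramer_one` and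
`Matrix.cramer_apply` for the transpose, `Matrix.det_transpose`). By `visK_chart` it is enough to
show `¬ VisK χ (span {X 0}) 0 lam K` in one variable (the point `fun i => eval p (u (e i))` is `0` as
`eval p f = 0`). Here for a jet `γ₀` with `OrdGe … n γ₀`, `n ≥ 1`, and leading coefficient
`w = (along (X 0) γ₀).coeff n = γ₀ (0, n)`: the set `CA (span {X 0}) (bp γ₀) _ d`, `d ≥ 1`, is by
`mem_CA_span` the set of all `γ` with `γ (0, 0) = 0`, `γ (0, l) = 0` for `l < d`, `γ (0, d) = w`, a
single point, of class `1` (`cls_singleton`). So `ksum = ∑_{d=1}^{K} lam^d = 0`, as `lam^K = 1`,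
`lam ≠ 1` (geometric sum, `Finset.sum_range_succ'`, `mul_neg_geom_sum`).
-/

open MvPolynomial

namespace MotMono
namespace CB

open CN HY

theorem sum_Icc_pow_eq_zero {lam : ℂ} (h1 : lam ≠ 1) {K : ℕ} (hK : lam ^ K = 1) :
    ∑ d ∈ Finset.Icc 1 K, lam ^ d = 0 := by
  have h : ∀ K : ℕ, (∑ d ∈ Finset.Icc 1 K, lam ^ d) * (lam - 1) = lam ^ K * lam - lam := by
    intro K
    induction K with
    | zero => simp
    | succ K ih =>
      rw [Finset.sum_Icc_succ_top (by omega), add_mul, ih, pow_succ]
      ring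
  have h2 := h K
  rw [hK, one_mul, sub_self] at h2
  exact (mul_eq_zero.mp h2).resolve_right (sub_ne_zero.mpr h1)

private theorem A3_along_X {n : ℕ} (γ : Fin 1 × Fin (n + 1) → ℂ) :
    along (X 0) γ = arc γ 0 := by
  unfold along
  exact aeval_X _ _

private theorem A3_coeff {n : ℕ} (γ : Fin 1 × Fin (n + 1) → ℂ) (l : Fin (n + 1)) :
    (along (X 0) γ).coeff (l : ℕ) = γ (0, l) := by
  rw [A3_along_X, a1_arc_coeff, dif_pos l.isLt]

private theorem A3_not_visK {χ : K0 →+* ℤ} {lam : ℂ} (h1 : lam ≠ 1) {K : ℕ} (hK : lam ^ K = 1) :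
    ¬ VisK χ (Ideal.span {(X 0 : MvPolynomial (Fin 1) ℂ)}) 0 lam K := by
  rintro ⟨n, γ₀, hn, hbp, hord, -, hsum⟩
  refine hsum ?_
  unfold ksum
  rw [← sum_Icc_pow_eq_zero h1 hK]
  refine Finset.sum_congr rfl fun d hd => ?_
  have hd1 : 1 ≤ d := (Finset.mem_Icc.mp hd).1
  have e : CA (Ideal.span {(X 0 : MvPolynomial (Fin 1) ℂ)}) (bp γ₀)
      (fun f => (along f γ₀).coeff n) d =
      {fun q : Fin 1 × Fin (d + 1) => if (q.2 : ℕ) = d then (along (X 0) γ₀).coeff n else 0} := by
    ext γ
    rw [mem_CA_span _ _ hord, hbp, Set.mem_singleton_iff]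
    constructor
    · rintro ⟨-, h3⟩
      obtain ⟨h4, h5⟩ := h3 _ rfl
      funext q
      obtain ⟨i, l⟩ := q
      obtain rfl : i = 0 := Subsingleton.elim _ _
      rw [← A3_coeff γ l]
      dsimp only
      by_cases hl : (l : ℕ) = d
      · rw [if_pos hl, hl]
        exact h5
      · rw [if_neg hl]
        exact h4 _ (by omega)
    · rintro rfl
      refine ⟨?_, ?_⟩
      · funext i
        change (if ((0 : Fin (d + 1)) : ℕ) = d then _ else _) = (0 : ℂ)
        rw [if_neg]
        simp only [Fin.val_zero]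
        omega
      · rintro _ rfl
        refine ⟨fun l hl => ?_, ?_⟩
        · have h6 := A3_coeff (fun q : Fin 1 × Fin (d + 1) =>
            if (q.2 : ℕ) = d then (along (X 0) γ₀).coeff n else 0) ⟨l, by omega⟩
          refine h6.trans ?_
          exact if_neg (by simp only; omega)
        · have h6 := A3_coeff (fun q : Fin 1 × Fin (d + 1) =>
            if (q.2 : ℕ) = d then (along (X 0) γ₀).coeff n else 0) ⟨d, by omega⟩
          refine h6.trans ?_
          exact if_pos rfl
  rw [e, cls_singleton, map_one, Int.cast_one, mul_one]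

theorem not_visK_smooth {N : ℕ} {χ : K0 →+* ℤ} (hχ : IsEulerCharF χ) (f : MvPolynomial (Fin N) ℂ)
    (p : Fin N → ℂ) (hf : eval p f = 0) (j : Fin N) (hj : eval p (pderiv j f) ≠ 0) {lam : ℂ}
    (h1 : lam ≠ 1) {K : ℕ} (hK : lam ^ K = 1) : ¬ VisK χ (Ideal.span {f}) p lam K := by
  classical
  set u : Fin N → MvPolynomial (Fin N) ℂ :=
    Function.update (fun i => X i - C (p i)) j f with hu
  have huj : u j = f := by rw [hu, Function.update_self]
  have hc : Chart (Ideal.span {f}) (Ideal.span {(X 0 : MvPolynomial (Fin 1) ℂ)}) u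
      (fun _ => j) 1 := by
    have hX : aeval (fun _ : Fin 1 => u j) (X 0 : MvPolynomial (Fin 1) ℂ) = f := by
      rw [aeval_X, huj]
    refine ⟨Function.injective_of_subsingleton _, ?_, ?_⟩
    · intro g hg
      rw [one_mul]
      rw [Ideal.mem_span_singleton] at hg ⊢
      obtain ⟨c, rfl⟩ := hg
      rw [map_mul, hX]
      exact dvd_mul_right _ _
    · intro g hg
      rw [one_mul]
      rw [Ideal.mem_span_singleton] at hg
      obtain ⟨c, rfl⟩ := hg
      refine Ideal.mul_mem_right _ _ (Ideal.subset_span ⟨X 0, ?_, hX.symm⟩)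
      exact Ideal.subset_span rfl
  have hJ : eval p (jacDet u) ≠ 0 := by
    have h2 : eval p (jacDet u) =
        ((1 : Matrix (Fin N) (Fin N) ℂ).updateRow j (fun k => eval p (pderiv k f))).det := by
      unfold jacDet
      rw [RingHom.map_det]
      congr 1
      ext i k
      rw [RingHom.mapMatrix_apply, Matrix.map_apply, Matrix.of_apply]
      by_cases hij : i = j
      · subst hij
        rw [huj, Matrix.updateRow_self]
      · rw [Matrix.updateRow_ne hij, hu, Function.update_of_ne hij, map_sub, pderiv_X,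
          pderiv_C, sub_zero, Matrix.one_apply, Pi.single_apply]
        by_cases hik : i = k
        · subst hik
          simp
        · rw [if_neg hik, if_neg (fun h => hik h), map_zero]
    rw [h2, ← Matrix.cramer_transpose_apply, Matrix.transpose_one, Matrix.cramer_one]
    exact hj
  rw [visK_chart hχ hc p (by rw [map_one]; exact one_ne_zero) hJ]
  have hp : (fun i : Fin 1 => eval p (u ((fun _ => j) i))) = 0 := by
    funext i
    change eval p (u j) = 0
    rw [huj, hf]
  rw [hp]
  exact A3_not_visK h1 hK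

end CB
end MotMono
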