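import Pool.Agent.Lib.MP_4e5fcd_ag.CB.A1
import Pool.Agent.Lib.MP_4e5fcd_ag.CB.A3
import Pool.Agent.Lib.MP_4e5fcd_ag.HY.R4
import Pool.Agent.Lib.MP_4e5fcd_ag.HY.A4

/-!
# CB-A4: points near the origin for `G + u v`

Proof of `nearK_hyp`. Given `ε`, take `K₀` from `hn ε` and use `K₀ * M`. For `K` divisible by it
`lam ^ K = 1`. Let `P` be the point of `hn` (`‖P‖ < ε`), `VisK χ (span {hyp G}) P lam K`. As
`hyp G ∈ span {hyp G}` has coefficient `0` zero along the jet of `VisK` (`n ≥ 1`), `eval P (hyp G) = 0`.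
* If `P (natAdd n 0) ≠ 0`: `pderiv (natAdd n 1) (hyp G) = X (natAdd n 0)`, not zero at `P`:
  contradiction with `not_visK_smooth`. Same if `P (natAdd n 1) ≠ 0`.
* Otherwise let `p = P ∘ castAdd 2`, `‖p‖ ≤ ‖P‖ < ε`. `VT χ ![hyp G] P lam K` by `visK_iff_vt` (with
  `Set.range ![F] = {F}`), so it is enough that for all `w` and `d ≥ 1`
  `χ (cls (CT ![hyp G] P w d)) = χ (cls (CT ![G] p w d))` (`chi_CT_hyp`), then `VT χ ![G] p lam K` with
  the same vector, and `visK_iff_vt` back.

Proof of `chi_CT_hyp`. `along (hyp G) z = along G (x-part) + (u-arc) (v-arc)`. The set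
`E = CT ![hyp G] P w d` is constructible (`constr_CT`) and stable under `s ≠ 0`:
`z ↦ (x, s u, s⁻¹ v)` (the product of the `u`-arc and the `v`-arc does not change, the base point does
not change as `P` vanishes at `u`, `v`). Apply `chi_fixed` (HY/R4) with the weights `1` on the
coordinates `(natAdd n 0, l)`, `-1` on `(natAdd n 1, l)`, `0` else. The fixed set
`{z ∈ E | u-part = v-part = 0}` is isomorphic to `CT ![G] p w d` (`cls_iso`: the projection to the
`x`-part, inverse: extension by `0`).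
-/

open MvPolynomial

namespace MotMono
namespace CB

open CN HY

variable {n : ℕ}

private theorem a4_along (G : MvPolynomial (Fin n) ℂ) {m : ℕ} (z : Fin (n + 2) × Fin m → ℂ) :
    along (hyp G) z = along G (fun q => z (Fin.castAdd 2 q.1, q.2)) +
      arc z (Fin.natAdd n 0) * arc z (Fin.natAdd n 1) := by
  unfold along hyp
  rw [map_add, map_mul, aeval_X, aeval_X, aeval_rename]
  rfl

private theorem a4_mem {N : ℕ} (F : MvPolynomial (Fin N) ℂ) (p : Fin N → ℂ) (w : Fin 1 → ℂ) (d : ℕ)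
    (γ : Fin N × Fin (d + 1) → ℂ) : γ ∈ CT ![F] p w d ↔
      bp γ = p ∧ (∀ l < d, (along F γ).coeff l = 0) ∧ (along F γ).coeff d = w 0 := by
  unfold CT TO vec
  rw [Set.mem_ofPred_eq]
  refine and_congr_right fun _ => and_congr ?_ ?_
  · constructor
    · intro h l hl
      exact h 0 l hl
    · intro h j l hl
      rw [Subsingleton.elim j 0]
      exact h l hl
  · constructor
    · intro h
      exact congrFun h 0
    · intro h
      funext j
      rw [Subsingleton.elim j 0]
      exact h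

private theorem a4_ne : (Fin.natAdd n 0 : Fin (n + 2)) ≠ Fin.natAdd n 1 := by
  intro h
  have := congrArg Fin.val h
  simp at this

private theorem a4_ne0 (i : Fin n) : (Fin.castAdd 2 i : Fin (n + 2)) ≠ Fin.natAdd n 0 := by
  intro h
  have := congrArg Fin.val h
  have hi := i.2
  simp at this
  omega

private theorem a4_ne1 (i : Fin n) : (Fin.castAdd 2 i : Fin (n + 2)) ≠ Fin.natAdd n 1 := by
  intro h
  have := congrArg Fin.val h
  have hi := i.2
  simp at this
  omega

/-- the weights -/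
private def a4_w (d : ℕ) (q : Fin (n + 2) × Fin (d + 1)) : ℤ :=
  if q.1 = Fin.natAdd n 0 then 1 else if q.1 = Fin.natAdd n 1 then -1 else 0

private theorem a4_w_cast (d : ℕ) (i : Fin n) (l : Fin (d + 1)) :
    a4_w d (Fin.castAdd 2 i, l) = 0 := by
  unfold a4_w
  rw [if_neg (a4_ne0 i), if_neg (a4_ne1 i)]

private theorem a4_w_zero (d : ℕ) (l : Fin (d + 1)) :
    a4_w (n := n) d (Fin.natAdd n 0, l) = 1 := by
  unfold a4_w
  rw [if_pos rfl]

private theorem a4_w_one (d : ℕ) (l : Fin (d + 1)) :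
    a4_w (n := n) d (Fin.natAdd n 1, l) = -1 := by
  unfold a4_w
  rw [if_neg (fun h => a4_ne h.symm), if_pos rfl]

private theorem a4_arc_scale {N m : ℕ} (z z' : Fin N × Fin m → ℂ) (i : Fin N) (c : ℂ)
    (h : ∀ l, z' (i, l) = c * z (i, l)) : arc z' i = Polynomial.C c * arc z i := by
  unfold arc
  rw [Finset.mul_sum]
  refine Finset.sum_congr rfl fun l _ => ?_
  rw [h, map_mul]
  ring

private theorem a4_along_act (G : MvPolynomial (Fin n) ℂ) {d : ℕ} {s : ℂ} (hs : s ≠ 0)
    (z : Fin (n + 2) × Fin (d + 1) → ℂ) :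
    along (hyp G) (fun q => s ^ (a4_w d q) * z q) = along (hyp G) z := by
  rw [a4_along, a4_along]
  have h0 : (fun q : Fin n × Fin (d + 1) => s ^ (a4_w d (Fin.castAdd 2 q.1, q.2)) *
      z (Fin.castAdd 2 q.1, q.2)) = fun q => z (Fin.castAdd 2 q.1, q.2) := by
    funext q
    rw [a4_w_cast, zpow_zero, one_mul]
  rw [h0, a4_arc_scale z (fun q => s ^ (a4_w d q) * z q) (Fin.natAdd n 0) s (fun l => by
      simp only [a4_w_zero, zpow_one]),
    a4_arc_scale z (fun q => s ^ (a4_w d q) * z q) (Fin.natAdd n 1) s⁻¹ (fun l => by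
      simp only [a4_w_one, zpow_neg, zpow_one])]
  congr 1
  have h1 : (Polynomial.C s * Polynomial.C s⁻¹ : Polynomial ℂ) = 1 := by
    rw [← map_mul, mul_inv_cancel₀ hs, map_one]
  linear_combination (arc z (Fin.natAdd n 0) * arc z (Fin.natAdd n 1)) * h1

private theorem a4_constr_coord {τ : Type} [Finite τ] (P : τ → Prop) :
    Constr {z : τ → ℂ | ∀ q, P q → z q = 0} := by
  have h1 := constr_zeroLocus {g : MvPolynomial τ ℂ | ∃ q, P q ∧ g = X q}
  have h2 : {z : τ → ℂ | ∀ q, P q → z q = 0} =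
      {x | ∀ f ∈ {g : MvPolynomial τ ℂ | ∃ q, P q ∧ g = X q}, eval x f = 0} := by
    ext γ
    simp only [Set.mem_ofPred_eq]
    constructor
    · rintro h g ⟨q, hq, rfl⟩
      rw [eval_X]
      exact h q hq
    · intro h q hq
      have := h _ ⟨q, hq, rfl⟩
      rwa [eval_X] at this
  rw [h2]
  exact h1

private theorem a4_arc_zero {N m : ℕ} (z : Fin N × Fin m → ℂ) (i : Fin N)
    (h : ∀ l, z (i, l) = 0) : arc z i = 0 := by
  unfold arc
  refine Finset.sum_eq_zero fun l _ => ?_
  rw [h, map_zero, zero_mul]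

private theorem a4_along_fix (G : MvPolynomial (Fin n) ℂ) {m : ℕ}
    (z : Fin (n + 2) × Fin m → ℂ) (h : ∀ l, z (Fin.natAdd n 0, l) = 0) :
    along (hyp G) z = along G (fun q => z (Fin.castAdd 2 q.1, q.2)) := by
  rw [a4_along, a4_arc_zero z _ h, zero_mul, add_zero]

theorem chi_CT_hyp {χ : K0 →+* ℤ} (hχ : IsEulerCharF χ) (G : MvPolynomial (Fin n) ℂ)
    (P : Fin (n + 2) → ℂ) (hu : P (Fin.natAdd n 0) = 0) (hv : P (Fin.natAdd n 1) = 0)
    (w : Fin 1 → ℂ) {d : ℕ} (hd : 0 < d) :
    χ (cls (CT ![hyp G] P w d)) = χ (cls (CT ![G] (fun i => P (Fin.castAdd 2 i)) w d)) := by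
  have _ := hd
  rw [chi_fixed hχ (a4_w d) (CT ![hyp G] P w d) (constr_CT _ _ _ _) (by
    intro s hs z hz
    rw [a4_mem] at hz ⊢
    rw [a4_along_act G hs z]
    refine ⟨?_, hz.2⟩
    funext i
    have h1 : z (i, 0) = P i := congrFun hz.1 i
    show s ^ (a4_w d (i, 0)) * z (i, 0) = P i
    rw [h1]
    unfold a4_w
    simp only
    split_ifs with h2 h3
    · rw [h2, hu, mul_zero]
    · rw [h3, hv, mul_zero]
    · rw [zpow_zero, one_mul])]
  congr 1
  have hC := a4_constr_coord (fun q : Fin (n + 2) × Fin (d + 1) => a4_w d q ≠ 0)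
  refine cls_iso ((constr_CT _ _ _ _).inter hC) (constr_CT _ _ _ _) ?_
  -- the zero extension
  have hE0 : ∀ (y : Fin n × Fin (d + 1) → ℂ) (l : Fin (d + 1)),
      (fun q : Fin (n + 2) × Fin (d + 1) => Fin.addCases (motive := fun _ => ℂ)
        (fun a => y (a, q.2)) (fun _ => 0) q.1) (Fin.natAdd n 0, l) = 0 := by
    intro y l
    simp only [Fin.addCases_right]
  have hE1 : ∀ (y : Fin n × Fin (d + 1) → ℂ) (l : Fin (d + 1)),
      (fun q : Fin (n + 2) × Fin (d + 1) => Fin.addCases (motive := fun _ => ℂ)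
        (fun a => y (a, q.2)) (fun _ => 0) q.1) (Fin.natAdd n 1, l) = 0 := by
    intro y l
    simp only [Fin.addCases_right]
  have hEx : ∀ (y : Fin n × Fin (d + 1) → ℂ) (i : Fin n) (l : Fin (d + 1)),
      (fun q : Fin (n + 2) × Fin (d + 1) => Fin.addCases (motive := fun _ => ℂ)
        (fun a => y (a, q.2)) (fun _ => 0) q.1) (Fin.castAdd 2 i, l) = y (i, l) := by
    intro y i l
    simp only [Fin.addCases_left]
  refine ⟨fun z q => z (Fin.castAdd 2 q.1, q.2),
    fun y q => Fin.addCases (motive := fun _ => ℂ) (fun a => y (a, q.2)) (fun _ => 0) q.1,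
    fun q => regFun_coord _ _, ?_, ?_, ?_, ?_, ?_⟩
  · rintro ⟨i, l⟩
    induction i using Fin.addCases with
    | left i =>
      simp only [Fin.addCases_left]
      exact regFun_coord _ _
    | right i =>
      simp only [Fin.addCases_right]
      exact regFun_const _ 0
  · rintro z ⟨hz, hz0⟩
    rw [a4_mem] at hz ⊢
    have h0 : ∀ l, z (Fin.natAdd n 0, l) = 0 := fun l => hz0 _ (by rw [a4_w_zero]; norm_num)
    rw [a4_along_fix G z h0] at hz
    refine ⟨?_, hz.2⟩
    funext i
    exact congrFun hz.1 (Fin.castAdd 2 i)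
  · intro y hy
    rw [a4_mem] at hy
    refine ⟨?_, ?_⟩
    · rw [a4_mem, a4_along_fix G _ (hE0 y)]
      have hx : (fun q : Fin n × Fin (d + 1) => (fun q : Fin (n + 2) × Fin (d + 1) =>
          Fin.addCases (motive := fun _ => ℂ) (fun a => y (a, q.2)) (fun _ => 0) q.1)
          (Fin.castAdd 2 q.1, q.2)) = y := by
        funext q
        exact hEx y q.1 q.2
      rw [hx]
      refine ⟨?_, hy.2⟩
      funext i
      induction i using Fin.addCases with
      | left i => exact (hEx y i 0).trans (congrFun hy.1 i)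
      | right i =>
        have h2 : i = 0 ∨ i = 1 := by
          fin_cases i
          · exact Or.inl rfl
          · exact Or.inr rfl
        rcases h2 with rfl | rfl
        · exact (hE0 y 0).trans hu.symm
        · exact (hE1 y 0).trans hv.symm
    · rintro ⟨i, l⟩ hw
      induction i using Fin.addCases with
      | left i => exact absurd (a4_w_cast d i l) hw
      | right i => simp only [Fin.addCases_right]
  · rintro z ⟨hz, hz0⟩
    funext q
    obtain ⟨i, l⟩ := q
    induction i using Fin.addCases with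
    | left i => simp only [Fin.addCases_left]
    | right i =>
      simp only [Fin.addCases_right]
      have h2 : i = 0 ∨ i = 1 := by
        fin_cases i
        · exact Or.inl rfl
        · exact Or.inr rfl
      rcases h2 with rfl | rfl
      · exact (hz0 _ (by rw [a4_w_zero]; norm_num)).symm
      · exact (hz0 _ (by rw [a4_w_one]; norm_num)).symm
  · intro y hy
    funext q
    exact hEx y q.1 q.2

private theorem a4_pd_rename (G : MvPolynomial (Fin n) ℂ) (b : Fin 2) :
    pderiv (Fin.natAdd n b) (rename (Fin.castAdd 2) G) = 0 := by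
  refine pderiv_eq_zero_of_notMem_vars fun h => ?_
  classical
  obtain ⟨a, -, ha⟩ := Finset.mem_image.1 (vars_rename (Fin.castAdd 2) G h)
  have h2 := congrArg Fin.val ha
  have h3 := a.2
  simp at h2
  omega

theorem nearK_hyp {χ : K0 →+* ℤ} (hχ : IsEulerCharF χ) (G : MvPolynomial (Fin n) ℂ) {lam : ℂ}
    (h1 : lam ≠ 1) {M : ℕ} (hM : 0 < M) (hl : lam ^ M = 1)
    (hn : NearK χ (Ideal.span {hyp G}) 0 lam) : NearK χ (Ideal.span {G}) 0 lam := by
  intro ε hε
  obtain ⟨K₀, hK₀, h⟩ := hn ε hε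
  refine ⟨K₀ * M, Nat.mul_pos hK₀ hM, fun K hK hdvd => ?_⟩
  obtain ⟨P, hP, hv⟩ := h K hK ((Nat.dvd_mul_right K₀ M).trans hdvd)
  have hlK : lam ^ K = 1 := by
    obtain ⟨c, rfl⟩ := (Nat.dvd_mul_left M K₀).trans hdvd
    rw [pow_mul, hl, one_pow]
  have hev : eval P (hyp G) = 0 := by
    obtain ⟨m, γ₀, hm, hb, ho, -⟩ := hv
    have h2 := ho (hyp G) (Ideal.subset_span rfl) 0 hm
    rw [LF.coeff_along_zero] at h2
    rw [← hb]
    exact h2
  have hpd0 : pderiv (Fin.natAdd n 1) (hyp G) = X (Fin.natAdd n 0) := by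
    unfold hyp
    rw [map_add, a4_pd_rename, pderiv_mul, pderiv_X_self, pderiv_X_of_ne a4_ne]
    ring
  have hpd1 : pderiv (Fin.natAdd n 0) (hyp G) = X (Fin.natAdd n 1) := by
    unfold hyp
    rw [map_add, a4_pd_rename, pderiv_mul, pderiv_X_self, pderiv_X_of_ne (Ne.symm a4_ne)]
    ring
  have hu : P (Fin.natAdd n 0) = 0 := by
    by_contra hne
    exact not_visK_smooth hχ (hyp G) P hev (Fin.natAdd n 1) (by rwa [hpd0, eval_X]) h1 hlK hv
  have hw : P (Fin.natAdd n 1) = 0 := by
    by_contra hne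
    exact not_visK_smooth hχ (hyp G) P hev (Fin.natAdd n 0) (by rwa [hpd1, eval_X]) h1 hlK hv
  refine ⟨fun i => P (Fin.castAdd 2 i), ?_, ?_⟩
  · rw [sub_zero] at hP ⊢
    rw [pi_norm_lt_iff hε] at hP ⊢
    exact fun i => hP _
  · have hr : ∀ {N : ℕ} (F : MvPolynomial (Fin N) ℂ), Set.range ![F] = {F} := by
      intro N F
      simp
    rw [← hr G, visK_iff_vt]
    rw [← hr (hyp G), visK_iff_vt] at hv
    obtain ⟨v, hv0, hsum⟩ := hv
    refine ⟨v, hv0, ?_⟩
    rw [Finset.sum_congr rfl fun d hd => by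
      rw [← chi_CT_hyp hχ G P hu hw v (Finset.mem_Icc.1 hd).1]]
    exact hsum

end CB
end MotMono
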