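import Pool.Agent.Lib.MP_4e5fcd_ag.CB.A1
import Pool.Agent.Lib.MP_4e5fcd_ag.CB.A3
import Pool.Agent.Lib.MP_4e5fcd_ag.HY.B4

/-!
# CB-A5: points near `(0, C)` for the hypersurface `∑ j, Y_j g_j`

Proof. Given `ε`, take `K₀` from `hn ε` and use `K₀ * M`; for `K` divisible by it `lam ^ K = 1`. Let
`P` be the point of `hn`, `P = pt p C'` (`eq_pt`, HY/A1); from `‖P - pt 0 C‖ < ε` get `‖p‖ < ε`
(coordinates). `linGen g 1 = span (range (gen g 1))` (`rfl`), so `VT χ (gen g 1) (pt p C') lam K` by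
`visK_iff_vt`: `w ≠ 0` with `∑ lam^d χ (CT (gen g 1) (pt p C') w d) ≠ 0`.
* `g (p) ≠ 0` (`(fun j => eval p (g j)) ≠ 0`): if `C' *ᵥ g(p) = 0`, all `χ` are `1`
  (`chi_CT_gen_one`, HY/B2) and the sum is `0` (`sum_Icc_pow_eq_zero`); if `C' *ᵥ g(p) ≠ 0`, then
  `CT (gen g 1) (pt p C') w d = ∅` for `d ≥ 1` (the coefficient `0` of `gen g 1` along a jet at
  `pt p C'` is `C' *ᵥ g(p)`), the sum is `0`. Contradiction.
* `g (p) = 0`: all `χ` are `χ (cls (RR g p C' w d))` (`chi_CT_gen_zero`). It remains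
  `exists_of_RR`, which gives `VT χ g p lam K`, and `visK_iff_vt`.

Proof of `exists_of_RR` (contraposition). Suppose that for all `v ≠ 0` the sum over `CT g p v d` is
`0`. `cls (RR g p C w d)` is the class of the graph `{(γ, y) | γ ∈ RR, y = vec g d γ}`
(`cls_graph_RR`, HY/B4). Apply `LF.fubini_C` (as in `radon`, `per_RR`, HY/B4; index type
`Finset.Icc 1 K`, coefficients `lam ^ d`): the fibre over `y` is `CT g p y d` if `C *ᵥ y = w` and
empty otherwise; if `C *ᵥ y = w` then `y ≠ 0` because `w ≠ 0`, so the sum over the fibres is `0`.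
-/

open MvPolynomial Matrix

namespace MotMono
namespace CB

open CN HY

variable {N R : ℕ}

theorem exists_of_RR {χ : K0 →+* ℤ} (hχ : IsEulerCharF χ) (g : Fin R → MvPolynomial (Fin N) ℂ)
    (p : Fin N → ℂ) (C : Matrix (Fin 1) (Fin R) ℂ) {w : Fin 1 → ℂ} (hw : w ≠ 0) {lam : ℂ} {K : ℕ}
    (h : ∑ d ∈ Finset.Icc 1 K, lam ^ d * ((χ (cls (RR g p C w d)) : ℤ) : ℂ) ≠ 0) :
    VT χ g p lam K := by
  by_contra hno
  have hz : ∀ v : Fin R → ℂ, v ≠ 0 →
      ∑ d ∈ Finset.Icc 1 K, lam ^ d * ((χ (cls (CT g p v d)) : ℤ) : ℂ) = 0 := by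
    intro v hv
    by_contra h1
    exact hno ⟨v, hv, h1⟩
  apply h
  have key := LF.fubini_C hχ (ι := Finset.Icc 1 K) (τ := Fin R)
    (fun e => Fin N × Fin ((e : ℕ) + 1))
    (fun e => {z : (Fin N × Fin ((e : ℕ) + 1)) ⊕ Fin R → ℂ |
      (fun q => z (Sum.inl q)) ∈ RR g p C w (e : ℕ) ∧
        (fun j => z (Sum.inr j)) = vec g (e : ℕ) fun q => z (Sum.inl q)})
    (fun e => (cls_graph_RR g p C w (e : ℕ)).1) (fun e => lam ^ (e : ℕ)) (fun y => by
      by_cases hy : C *ᵥ y = w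
      · have e1 : ∀ e : Finset.Icc 1 K, {x : Fin N × Fin ((e : ℕ) + 1) → ℂ |
            Sum.elim x y ∈ {z : (Fin N × Fin ((e : ℕ) + 1)) ⊕ Fin R → ℂ |
              (fun q => z (Sum.inl q)) ∈ RR g p C w (e : ℕ) ∧
              (fun j => z (Sum.inr j)) = vec g (e : ℕ) fun q => z (Sum.inl q)}} =
            CT g p y (e : ℕ) := by
          intro e
          ext x
          constructor
          · rintro ⟨⟨h1, h2, -⟩, h3⟩
            exact ⟨h1, h2, h3.symm⟩
          · rintro ⟨h1, h2, h3⟩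
            refine ⟨⟨h1, h2, ?_⟩, h3.symm⟩
            change C *ᵥ vec g (e : ℕ) x = w
            rw [h3, hy]
        simp only [e1]
        rw [Finset.sum_coe_sort (Finset.Icc 1 K)
          (fun e => lam ^ e * ((χ (cls (CT g p y e)) : ℤ) : ℂ))]
        apply hz
        rintro rfl
        rw [Matrix.mulVec_zero] at hy
        exact hw hy.symm
      · have e1 : ∀ e : Finset.Icc 1 K, {x : Fin N × Fin ((e : ℕ) + 1) → ℂ |
            Sum.elim x y ∈ {z : (Fin N × Fin ((e : ℕ) + 1)) ⊕ Fin R → ℂ |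
              (fun q => z (Sum.inl q)) ∈ RR g p C w (e : ℕ) ∧
              (fun j => z (Sum.inr j)) = vec g (e : ℕ) fun q => z (Sum.inl q)}} = ∅ := by
          intro e
          ext x
          simp only [Set.mem_ofPred_eq, Set.mem_empty_iff_false, iff_false]
          rintro ⟨⟨-, -, h2⟩, h3⟩
          apply hy
          have h4 : y = vec g (e : ℕ) x := h3
          rw [h4]
          exact h2
        simp only [e1, cls_empty, map_zero, Int.cast_zero, mul_zero, Finset.sum_const_zero])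
  simp only [fun e : Finset.Icc 1 K => (cls_graph_RR g p C w (e : ℕ)).2] at key
  rw [Finset.sum_coe_sort (Finset.Icc 1 K)
    (fun e => lam ^ e * ((χ (cls (RR g p C w e)) : ℤ) : ℂ))] at key
  exact key

private theorem A5_norm (P : Fin (N + 1 * R) → ℂ) (C : Matrix (Fin 1) (Fin R) ℂ) {ε : ℝ}
    (hε : 0 < ε) (h : ‖P - pt 0 C‖ < ε) :
    ‖fun a : Fin N => P (Fin.castAdd (1 * R) a)‖ < ε := by
  rw [pi_norm_lt_iff hε]
  intro a
  have h1 := norm_le_pi_norm (P - (pt 0 C : Fin (N + 1 * R) → ℂ)) (Fin.castAdd (1 * R) a)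
  have h2 : (P - (pt 0 C : Fin (N + 1 * R) → ℂ)) (Fin.castAdd (1 * R) a) =
      P (Fin.castAdd (1 * R) a) := by
    rw [Pi.sub_apply]
    have h3 : pt (0 : Fin N → ℂ) C (Fin.castAdd (1 * R) a) = 0 := by
      simp only [pt, Fin.addCases_left, Pi.zero_apply]
    rw [h3, sub_zero]
  rw [h2] at h1
  exact lt_of_le_of_lt h1 h

theorem nearK_gen {χ : K0 →+* ℤ} (hχ : IsEulerCharF χ) (g : Fin R → MvPolynomial (Fin N) ℂ)
    (C : Matrix (Fin 1) (Fin R) ℂ) {lam : ℂ} (h1 : lam ≠ 1) {M : ℕ} (hM : 0 < M)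
    (hl : lam ^ M = 1) (hn : NearK χ (linGen g 1) (pt 0 C) lam) :
    NearK χ (Ideal.span (Set.range g)) 0 lam := by
  intro ε hε
  obtain ⟨K₀, hK₀, hh⟩ := hn ε hε
  refine ⟨K₀ * M, Nat.mul_pos hK₀ hM, fun K hK hdvd => ?_⟩
  obtain ⟨P, hP, hV⟩ := hh K hK (dvd_trans (dvd_mul_right _ _) hdvd)
  have hlK : lam ^ K = 1 := by
    obtain ⟨c, rfl⟩ := dvd_trans (dvd_mul_left M K₀) hdvd
    rw [pow_mul, hl, one_pow]
  have hV2 : VT χ (gen g 1) P lam K := (visK_iff_vt (χ := χ) (gen g 1) P lam K).1 hV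
  refine ⟨fun a : Fin N => P (Fin.castAdd (1 * R) a), ?_, ?_⟩
  · rw [sub_zero]
    exact A5_norm P C hε hP
  rw [visK_iff_vt]
  obtain ⟨w, hw, hsum⟩ := hV2
  rw [eq_pt P] at hsum
  set p : Fin N → ℂ := fun a => P (Fin.castAdd (1 * R) a) with hpdef
  set C' : Matrix (Fin 1) (Fin R) ℂ :=
    Matrix.of fun i j => P (Fin.natAdd N (finProdFinEquiv (i, j))) with hC'
  by_cases hp : (fun j => eval p (g j)) = 0
  · have h2 : ∀ e, χ (cls (CT (gen g 1) (pt p C') w e)) = χ (cls (RR g p C' w e)) :=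
      fun e => chi_CT_gen_zero hχ g p C' w (fun j => congrFun hp j) e
    simp only [h2] at hsum
    exact exists_of_RR hχ g p C' hw hsum
  · exfalso
    apply hsum
    by_cases hC : (C' *ᵥ fun j => eval p (g j)) = 0
    · rw [← sum_Icc_pow_eq_zero h1 hlK]
      refine Finset.sum_congr rfl fun d hd => ?_
      rw [chi_CT_gen_one hχ g p C' w hp hC (Finset.mem_Icc.1 hd).1, Int.cast_one, mul_one]
    · refine Finset.sum_eq_zero fun d hd => ?_
      have e1 : CT (gen g 1) (pt p C') w d = ∅ := by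
        rw [Set.eq_empty_iff_forall_notMem]
        rintro γ ⟨h3, h4, -⟩
        apply hC
        funext i
        have h5 := h4 i 0 (Finset.mem_Icc.1 hd).1
        rw [LF.coeff_along_zero (gen g 1 i)] at h5
        change eval (bp γ) (gen g 1 i) = 0 at h5
        rw [h3, eval_gen] at h5
        exact h5
      rw [e1, cls_empty, map_zero, Int.cast_zero, mul_zero]

end CB
end MotMono
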