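import Pool.Agent.Lib.MP_4e5fcd_ag.CB.Base
import Pool.Agent.Lib.MP_4e5fcd_ag.TV.Y4
import Pool.Agent.Lib.MP_4e5fcd_ag.TV.Y3
import Pool.Agent.Lib.MP_4e5fcd_ag.CN.E1

/-!
# CB-A6: powers

Proof of `visK_pow`. Let `n₀`, `γ₀` be the jet of `VisK χ (I ^ k) p lam (k * K)`: `OrdGe (I^k) n₀ γ₀`,
`n₀ ≥ 1`, the coefficient `n₀` of some element of `I^k` is not zero. Then `k ∣ n₀` (`exOrd_pow_not`,
TV/Y3) and with `n₀ = k * n`, `n ≥ 1`: `OrdGe I n γ₀` (`ordGe_pow`) and the coefficient `n` of some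
`f ∈ I` along `γ₀` is not zero (`coeff_pow_ne`). Let `γ` be the restriction of `γ₀` to the levels
`≤ n` and `γ'` the extension of `γ` by `0` to the levels `≤ k n` as in `chi_CA_pow` (TV/Y4).
For `c ∈ I ^ k` the coefficients `k n` of `c` along `γ₀` and `γ'` agree, because for `f ∈ I` the
coefficients `≤ n` agree (`along_trunc`), and by the (private) lemma `y4_coeff` of TV/Y4 with
`ζ = 1` (copy it). So the sets `CA (I^k) p (…) m` for `γ₀` and for `γ'` are equal, and by `chi_CA_pow`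
the number for `m` is `k * χ (CA I p (…) (m / k))` if `k ∣ m` and `0` otherwise. Hence
`ksum χ (I^k) γ₀ lam (k K) = k * ksum χ I γ (lam ^ k) K` (sum over the multiples of `k` in
`Icc 1 (k K)`: `Finset.sum_bij` / image of `Icc 1 K` under `k * ·`; `lam ^ (k e) = (lam^k)^e`).

`nearK_pow`: given `ε` take `K₀` from `hn ε`; for `K` divisible by `K₀` use `k * K`.
-/

open MvPolynomial

namespace MotMono
namespace CB

open CN HY

variable {N : ℕ}

private theorem a6_along_mul {n : ℕ} (f g : MvPolynomial (Fin N) ℂ) (γ : Fin N × Fin n → ℂ) :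
    along (f * g) γ = along f γ * along g γ := map_mul _ _ _

private theorem a6_along_add {n : ℕ} (f g : MvPolynomial (Fin N) ℂ) (γ : Fin N × Fin n → ℂ) :
    along (f + g) γ = along f γ + along g γ := map_add _ _ _

private theorem a6_coeff_mul {F G : Polynomial ℂ} {m m' : ℕ} (hF : Polynomial.X ^ m ∣ F)
    (hG : Polynomial.X ^ m' ∣ G) : (F * G).coeff (m + m') = F.coeff m * G.coeff m' := by
  obtain ⟨u, rfl⟩ := hF
  obtain ⟨v, rfl⟩ := hG
  have e : Polynomial.X ^ m * u * (Polynomial.X ^ m' * v) =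
      Polynomial.X ^ (m + m') * (u * v) := by
    rw [pow_add]; ring
  rw [e]
  have c1 := Polynomial.coeff_X_pow_mul (u * v) (m + m') 0
  have c2 := Polynomial.coeff_X_pow_mul u m 0
  have c3 := Polynomial.coeff_X_pow_mul v m' 0
  rw [zero_add] at c1 c2 c3
  rw [c1, c2, c3, Polynomial.mul_coeff_zero]

private theorem a6_dvd_pow {m : ℕ} (I : Ideal (MvPolynomial (Fin N) ℂ))
    (γ : Fin N × Fin m → ℂ) (n : ℕ) (h : OrdGe I n γ) (k : ℕ) :
    ∀ c ∈ I ^ k, Polynomial.X ^ (k * n) ∣ along c γ := by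
  rcases Nat.eq_zero_or_pos k with rfl | hk
  · intro c _; simp
  · intro c hc
    exact Polynomial.X_pow_dvd_iff.2 ((TV.ordGe_pow I hk n γ).2 h c hc)

private theorem a6_coeff {a b : ℕ} (I : Ideal (MvPolynomial (Fin N) ℂ)) (γ₁ : Fin N × Fin a → ℂ)
    (γ₂ : Fin N × Fin b → ℂ) (n : ℕ) (h1 : OrdGe I n γ₁) (h2 : OrdGe I n γ₂)
    (h0 : ∀ c : MvPolynomial (Fin N) ℂ, (along c γ₁).coeff 0 = (along c γ₂).coeff 0)
    (h : ∀ f ∈ I, (along f γ₁).coeff n = (along f γ₂).coeff n) (k : ℕ) :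
    ∀ c ∈ I ^ k, (along c γ₁).coeff (k * n) = (along c γ₂).coeff (k * n) := by
  induction k with
  | zero => intro c _; rw [Nat.zero_mul, h0]
  | succ k ih =>
    intro c hc
    rw [pow_succ] at hc
    refine Submodule.mul_induction_on hc (fun x hx y hy => ?_) (fun x y hx hy => ?_)
    · rw [a6_along_mul, a6_along_mul, Nat.succ_mul,
        a6_coeff_mul (a6_dvd_pow I γ₁ n h1 k x hx) (Polynomial.X_pow_dvd_iff.2 (h1 y hy)),
        a6_coeff_mul (a6_dvd_pow I γ₂ n h2 k x hx) (Polynomial.X_pow_dvd_iff.2 (h2 y hy)),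
        ih x hx, h y hy]
    · rw [a6_along_add, a6_along_add, Polynomial.coeff_add, Polynomial.coeff_add, hx, hy]

private theorem a6_sum {k : ℕ} (hk : 0 < k) (K : ℕ) (H : ℕ → ℂ) :
    ∑ d ∈ Finset.Icc 1 (k * K), (if k ∣ d then H (d / k) else 0) = ∑ e ∈ Finset.Icc 1 K, H e := by
  rw [← Finset.sum_filter]
  refine Finset.sum_nbij' (fun d => d / k) (fun e => k * e) ?_ ?_ ?_ ?_ ?_
  · intro d hd
    rw [Finset.mem_filter, Finset.mem_Icc] at hd
    obtain ⟨⟨h1, h2⟩, e, rfl⟩ := hd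
    rw [Nat.mul_div_cancel_left _ hk, Finset.mem_Icc]
    refine ⟨?_, Nat.le_of_mul_le_mul_left h2 hk⟩
    rcases Nat.eq_zero_or_pos e with h | h
    · rw [h, Nat.mul_zero] at h1
      omega
    · exact h
  · intro e he
    rw [Finset.mem_Icc] at he
    rw [Finset.mem_filter, Finset.mem_Icc]
    exact ⟨⟨Nat.mul_pos hk he.1, Nat.mul_le_mul_left k he.2⟩, dvd_mul_right k e⟩
  · intro d hd
    rw [Finset.mem_filter] at hd
    exact Nat.mul_div_cancel' hd.2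
  · intro e _
    exact Nat.mul_div_cancel_left _ hk
  · intro d _
    rfl

theorem visK_pow {χ : K0 →+* ℤ} (hχ : IsEulerCharF χ) {I : Ideal (MvPolynomial (Fin N) ℂ)} {k : ℕ}
    (hk : 0 < k) {p : Fin N → ℂ} {lam : ℂ} {K : ℕ} (h : VisK χ (I ^ k) p lam (k * K)) :
    VisK χ I p (lam ^ k) K := by
  obtain ⟨n₀, γ₀, hn₀, hbp, ho₀, ⟨f₀, hf₀, hne₀⟩, hs⟩ := h
  have hkn : k ∣ n₀ := by
    by_contra hcon
    exact hne₀ (TV.exOrd_pow_not I hk n₀ hcon γ₀ ho₀ f₀ hf₀)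
  obtain ⟨n, rfl⟩ := hkn
  have hn : 1 ≤ n := by
    rcases Nat.eq_zero_or_pos n with h | h
    · rw [h, Nat.mul_zero] at hn₀
      omega
    · exact h
  have hnk : n ≤ k * n := Nat.le_mul_of_pos_left n hk
  have ho : OrdGe I n γ₀ := (TV.ordGe_pow I hk n γ₀).1 ho₀
  obtain ⟨f₁, hf₁, hne₁⟩ := (TV.coeff_pow_ne I hk n γ₀ ho).1 ⟨f₀, hf₀, hne₀⟩
  -- the restriction and its extension by zero
  set γ : Fin N × Fin (n + 1) → ℂ := fun q => γ₀ (q.1, Fin.castLE (by omega) q.2) with hγdef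
  set γ' : Fin N × Fin (k * n + 1) → ℂ := fun q =>
    if h : (q.2 : ℕ) < n + 1 then γ (q.1, ⟨q.2, h⟩) else 0 with hγ'def
  have hγ' : ∀ i (l : Fin (k * n + 1)),
      γ' (i, l) = if h : (l : ℕ) < n + 1 then γ (i, ⟨l, h⟩) else 0 := fun i l => rfl
  have hext0 : ∀ (f : MvPolynomial (Fin N) ℂ) (l : ℕ), l ≤ n →
      (along f γ).coeff l = (along f γ₀).coeff l := by
    intro f l hl
    refine along_trunc f _ _ l fun i l' hl' => ?_
    rw [a1_arc_coeff, a1_arc_coeff, dif_pos (by omega), dif_pos (by omega)]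
    rfl
  have hext1 : ∀ (f : MvPolynomial (Fin N) ℂ) (l : ℕ), l ≤ n →
      (along f γ').coeff l = (along f γ).coeff l := by
    intro f l hl
    refine along_trunc f _ _ l fun i l' hl' => ?_
    rw [a1_arc_coeff, a1_arc_coeff, dif_pos (by omega), dif_pos (by omega), hγ']
    exact dif_pos _
  have hoγ : OrdGe I n γ := by
    intro f hf l hl
    rw [hext0 f l hl.le]
    exact ho f hf l hl
  have hoγ' : OrdGe I n γ' := by
    intro f hf l hl
    rw [hext1 f l hl.le]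
    exact hoγ f hf l hl
  have hbpγ : bp γ = bp γ₀ := by
    funext i
    rfl
  have hbpγ' : bp γ' = bp γ := by
    funext i
    show γ' (i, 0) = γ (i, 0)
    rw [hγ']
    exact dif_pos (Nat.succ_pos n)
  refine ⟨n, γ, hn, by rw [hbpγ, hbp], hoγ, ⟨f₁, hf₁, by rw [hext0 f₁ n le_rfl]; exact hne₁⟩, ?_⟩
  have hcoef : ∀ c ∈ I ^ k, (along c γ₀).coeff (k * n) = (along c γ').coeff (k * n) := by
    refine a6_coeff I γ₀ γ' n ho hoγ' (fun c => ?_) (fun f _ => ?_) k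
    · rw [hext1 c 0 (Nat.zero_le n), hext0 c 0 (Nat.zero_le n)]
    · rw [hext1 f n le_rfl, hext0 f n le_rfl]
  have hCA : ∀ m, CA (I ^ k) (bp γ₀) (fun f => (along f γ₀).coeff (k * n)) m =
      CA (I ^ k) (bp γ') (fun f => (along f γ').coeff (k * n)) m := by
    intro m
    rw [hbpγ', hbpγ]
    ext g
    constructor
    · rintro ⟨h1, h2⟩
      exact ⟨h1, fun f hf => ⟨(h2 f hf).1, (h2 f hf).2.trans (hcoef f hf)⟩⟩
    · rintro ⟨h1, h2⟩
      exact ⟨h1, fun f hf => ⟨(h2 f hf).1, (h2 f hf).2.trans (hcoef f hf).symm⟩⟩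
  have hsum : ksum χ (I ^ k) γ₀ lam (k * K) = (k : ℂ) * ksum χ I γ (lam ^ k) K := by
    unfold ksum
    rw [Finset.mul_sum, ← a6_sum hk K]
    refine Finset.sum_congr rfl fun d hd => ?_
    rw [Finset.mem_Icc] at hd
    rw [hCA d, TV.chi_CA_pow hχ I hk γ γ' hγ' hn hoγ
      ⟨f₁, hf₁, by rw [hext0 f₁ n le_rfl]; exact hne₁⟩ d hd.1]
    split_ifs with hdv
    · obtain ⟨e, rfl⟩ := hdv
      rw [Nat.mul_div_cancel_left _ hk, pow_mul]
      push_cast
      ring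
    · rw [Int.cast_zero, mul_zero]
  intro h0
  apply hs
  rw [hsum, h0, mul_zero]

theorem nearK_pow {χ : K0 →+* ℤ} (hχ : IsEulerCharF χ) {I : Ideal (MvPolynomial (Fin N) ℂ)} {k : ℕ}
    (hk : 0 < k) {lam : ℂ} (hn : NearK χ (I ^ k) 0 lam) : NearK χ I 0 (lam ^ k) := by
  intro ε hε
  obtain ⟨K₀, hK₀, h⟩ := hn ε hε
  refine ⟨K₀, hK₀, fun K hK hdvd => ?_⟩
  obtain ⟨p, hp, hv⟩ := h (k * K) (Nat.mul_pos hk hK) (dvd_mul_of_dvd_right hdvd k)
  exact ⟨p, hp, visK_pow hχ hk hv⟩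

end CB
end MotMono
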