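import Pool.Agent.Lib.MP_4e5fcd_ag.CB.A4

/-!
# CB-A7: points near the origin for `G + u v`, other direction

Given `ε`, take `K₀` from `hn ε`; for `K` divisible by it let `p`, `‖p‖ < ε`, `VisK χ (span {G}) p lam K`;
by `visK_iff_vt` (with `Set.range ![G] = {G}`) `VT χ ![G] p lam K` with a vector `w`. Let
`P = Fin.addCases p 0 : Fin (n + 2) → ℂ`: `P (castAdd 2 i) = p i`, `P (natAdd n 0) = P (natAdd n 1) = 0`,
`‖P‖ ≤ ‖p‖` (`pi_norm_le_iff`; `P - 0`). `chi_CT_hyp` (CB-A4) for all `d` in `Icc 1 K` gives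
`VT χ ![hyp G] P lam K` with the same vector, then `visK_iff_vt` back.
-/

open MvPolynomial

namespace MotMono
namespace CB

open CN HY

variable {n : ℕ}

theorem nearK_hyp' {χ : K0 →+* ℤ} (hχ : IsEulerCharF χ) (G : MvPolynomial (Fin n) ℂ) {lam : ℂ}
    (hn : NearK χ (Ideal.span {G}) 0 lam) : NearK χ (Ideal.span {hyp G}) 0 lam := by
  intro ε hε
  obtain ⟨K₀, hK₀, h⟩ := hn ε hε
  refine ⟨K₀, hK₀, fun K hK hdvd => ?_⟩
  obtain ⟨p, hp, hv⟩ := h K hK hdvd
  have hr : ∀ {N : ℕ} (F : MvPolynomial (Fin N) ℂ), Set.range ![F] = {F} := by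
    intro N F
    simp
  let P : Fin (n + 2) → ℂ := fun a => Fin.addCases (motive := fun _ => ℂ) p (fun _ => 0) a
  have hPl : ∀ i : Fin n, P (Fin.castAdd 2 i) = p i := fun i => by
    simp only [P, Fin.addCases_left]
  have hPr : ∀ j : Fin 2, P (Fin.natAdd n j) = 0 := fun j => by
    simp only [P, Fin.addCases_right]
  refine ⟨P, ?_, ?_⟩
  · rw [sub_zero] at hp ⊢
    rw [pi_norm_lt_iff hε] at hp ⊢
    intro i
    refine Fin.addCases (motive := fun a => ‖P a‖ < ε) (fun a => ?_) (fun b => ?_) i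
    · rw [hPl]
      exact hp a
    · rw [hPr, norm_zero]
      exact hε
  · rw [← hr (hyp G), visK_iff_vt]
    rw [← hr G, visK_iff_vt] at hv
    obtain ⟨v, hv0, hsum⟩ := hv
    refine ⟨v, hv0, ?_⟩
    have hP : (fun i => P (Fin.castAdd 2 i)) = p := funext hPl
    rw [Finset.sum_congr rfl fun d hd => by
      rw [chi_CT_hyp hχ G P (hPr 0) (hPr 1) v (Finset.mem_Icc.1 hd).1, hP]]
    exact hsum

end CB
end MotMono
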