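import Pool.Agent.Lib.MP_4e5fcd_ag.CB.A2

/-!
# CB-A8: charts, other direction

`LocPull I p G` gives `u`, `e`, `h`; `Chart I G u e h`. The polynomials `h`, `jacDet u` do not vanish at
`p`, hence not near `p` (continuity, `MvPolynomial.continuous_eval`), and `q ↦ (eval q (u (e i)))_i` is
continuous with the value `0` at `p`. Given `ε` choose `δ` such that for `‖q - p‖ < δ` these values are
`≠ 0` and `‖(eval q (u (e i)))_i‖ < ε`. Take `K₀` from `hn δ`; for `K` let `q` be the point; by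
`visK_chart` (CB-A2) `VisK χ G (fun i => eval q (u (e i))) lam K`.
-/

open MvPolynomial

namespace MotMono
namespace CB

open CN HY

theorem nearK_push {N k : ℕ} {χ : K0 →+* ℤ} (hχ : IsEulerCharF χ)
    (I : Ideal (MvPolynomial (Fin N) ℂ)) (p : Fin N → ℂ) (G : Ideal (MvPolynomial (Fin k) ℂ))
    (h : LocPull I p G) (lam : ℂ) (hn : NearK χ I p lam) : NearK χ G 0 lam := by
  obtain ⟨u, e, g, hinj, hg, hjac, h0, hpush, hpull⟩ := h
  intro ε hε
  have c : Chart I G u e g := ⟨hinj, hpush, hpull⟩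
  have hcont : Continuous fun z : Fin N → ℂ => (fun i => eval z (u (e i)) : Fin k → ℂ) :=
    continuous_pi fun i => MvPolynomial.continuous_eval (u (e i))
  have hopen : IsOpen ({z : Fin N → ℂ | eval z g ≠ 0 ∧ eval z (jacDet u) ≠ 0} ∩
      {z : Fin N → ℂ | ‖(fun i => eval z (u (e i)) : Fin k → ℂ)‖ < ε}) :=
    ((isOpen_ne_fun (MvPolynomial.continuous_eval g) continuous_const).inter
      (isOpen_ne_fun (MvPolynomial.continuous_eval (jacDet u)) continuous_const)).inter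
      (isOpen_lt hcont.norm continuous_const)
  have hmem : p ∈ ({z : Fin N → ℂ | eval z g ≠ 0 ∧ eval z (jacDet u) ≠ 0} ∩
      {z : Fin N → ℂ | ‖(fun i => eval z (u (e i)) : Fin k → ℂ)‖ < ε}) := by
    refine ⟨⟨hg, hjac⟩, ?_⟩
    show ‖(fun i => eval p (u (e i)) : Fin k → ℂ)‖ < ε
    rw [pi_norm_lt_iff hε]
    intro i
    rw [h0 i, norm_zero]
    exact hε
  obtain ⟨δ, hδ, hball⟩ := Metric.isOpen_iff.1 hopen p hmem
  obtain ⟨K₀, hK₀, hK⟩ := hn δ hδ
  refine ⟨K₀, hK₀, fun K hK1 hK2 => ?_⟩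
  obtain ⟨q, hq, hvis⟩ := hK K hK1 hK2
  have hqb := hball (show q ∈ Metric.ball p δ by
    rw [Metric.mem_ball, dist_eq_norm]; exact hq)
  refine ⟨fun i => eval q (u (e i)), ?_, (visK_chart hχ c q hqb.1.1 hqb.1.2 lam K).1 hvis⟩
  rw [sub_zero]
  exact hqb.2

end CB
end MotMono
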