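import Pool.Agent.Lib.MP_4e5fcd_ag.CB.Base
import Pool.Agent.Lib.MP_4e5fcd_ag.TV.Y3
import Pool.Agent.Lib.MP_4e5fcd_ag.HY.E2

/-!
# CB-B1: rescaling and expansion of power series in the polar rings

`polar_rescale`. As in `zmot_pow` (HY/E2): `exists_ubd`, a version of `den_rescale` (TV/Y0) for
`rescale L : Den (s₀ - 1) → Den s₀` (the factor `1 - L^(-a) T^b` goes to `1 - L^(-(a - b)) T^b`, and
`-(a - b)/b = -a/b + 1`), `ubd_rescale`, `mem_of_ubd`.

`polar_of_expand`. Let `D ∈ Den (s₀ / k)`, `UBd D K (expand k Z)`. Claim: there are `D' ∈ Den s₀` and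
`E` with finitely many non-zero coefficients (`∃ K', ∀ j > K', coeff j E = 0`) and
`E * D = expand k D'`: induction on `D ∈ Submonoid.closure`. For a generator
`D = 1 - L^(-a) T^b`, `-a/b ≠ s₀/k`: `E = ∑_{i<k} (L^(-a) T^b)^i`, `E * D = 1 - L^(-k a) T^(k b)`
(`geom_sum_mul`), `D' = 1 - L^(-k a) T^b`, `-k a / b ≠ s₀`. Products: multiply. Then
`expand k (D' * Z) = E * (D * expand k Z)` is a polynomial (product of two series with finitely many
coefficients), so `D' * Z` has finitely many coefficients (`coeff_expand_mul`), `mem_of_ubd`.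
-/

open MvPolynomial

namespace MotMono
namespace CB

open CN HY TV

private theorem b1_den_rescale {s₀ : ℚ} {D : PowerSeries MC} (h : D ∈ Den (s₀ - 1)) :
    PowerSeries.rescale ((Lu : MCˣ) : MC) D ∈ Den s₀ := by
  induction h using Submonoid.closure_induction with
  | mem D h =>
    obtain ⟨a, b, hb, hab, rfl⟩ := h
    have h1 : PowerSeries.rescale ((Lu : MCˣ) : MC)
        (1 - PowerSeries.C ((Lu ^ (-a) : MCˣ) : MC) * (PowerSeries.X : PowerSeries MC) ^ b) =
        1 - PowerSeries.C ((Lu ^ (-(a - b)) : MCˣ) : MC) * (PowerSeries.X : PowerSeries MC) ^ b := by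
      rw [map_sub, map_one]
      congr 1
      ext k
      rw [PowerSeries.coeff_rescale, PowerSeries.coeff_C_mul, PowerSeries.coeff_C_mul,
        PowerSeries.coeff_X_pow]
      split_ifs with hk
      · rw [hk, mul_one, mul_one, ← Units.val_pow_eq_pow_val, ← Units.val_mul]
        congr 1
        rw [neg_sub, sub_eq_add_neg, zpow_add, zpow_natCast]
      · rw [mul_zero, mul_zero, mul_zero]
    rw [h1]
    refine den_gen (a - b) b hb fun h2 => hab ?_
    have hb' : (b : ℚ) ≠ 0 := by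
      exact_mod_cast hb.ne'
    rw [← h2]
    push_cast
    field_simp
    ring
  | one => rw [map_one]; exact den_one _
  | mul x y _ _ hx hy => rw [map_mul]; exact den_mul hx hy

theorem polar_rescale {s₀ : ℚ} {Z : PowerSeries MC} (h : Z ∈ polarRing (s₀ - 1)) :
    PowerSeries.rescale ((Lu : MCˣ) : MC) Z ∈ polarRing s₀ := by
  obtain ⟨D, hD, K, hK⟩ := exists_ubd h
  exact mem_of_ubd (b1_den_rescale hD) (ubd_rescale hK _)

private theorem b1_mul {D Z : PowerSeries MC} {K K' : ℕ}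
    (h : ∀ k, K < k → PowerSeries.coeff k D = 0) (h' : ∀ k, K' < k → PowerSeries.coeff k Z = 0) :
    ∀ k, K + K' < k → PowerSeries.coeff k (D * Z) = 0 := by
  intro k hk
  rw [PowerSeries.coeff_mul]
  refine Finset.sum_eq_zero fun p hp => ?_
  rw [Finset.HasAntidiagonal.mem_antidiagonal] at hp
  rcases lt_or_ge K p.1 with h1 | h1
  · rw [h _ h1, zero_mul]
  · rw [h' _ (by omega), mul_zero]

private theorem b1_den {s₀ : ℚ} {k : ℕ} (hk : k ≠ 0) {D : PowerSeries MC} (h : D ∈ Den (s₀ / k)) :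
    ∃ D' ∈ Den s₀, ∃ (E : PowerSeries MC) (K' : ℕ), (∀ j, K' < j → PowerSeries.coeff j E = 0) ∧
      E * D = PowerSeries.expand k hk D' := by
  induction h using Submonoid.closure_induction with
  | mem D h =>
    obtain ⟨a, b, hb, hab, rfl⟩ := h
    refine ⟨1 - PowerSeries.C ((Lu ^ (-(k * a)) : MCˣ) : MC) * (PowerSeries.X : PowerSeries MC) ^ b,
      den_gen (k * a) b hb fun h2 => hab ?_,
      ∑ i ∈ Finset.range k, (PowerSeries.C ((Lu ^ (-a) : MCˣ) : MC) *
        (PowerSeries.X : PowerSeries MC) ^ b) ^ i, b * k, ?_, ?_⟩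
    · have hk' : (k : ℚ) ≠ 0 := by
        exact_mod_cast hk
      rw [← h2]
      push_cast
      field_simp
    · intro j hj
      rw [map_sum]
      refine Finset.sum_eq_zero fun i hi => ?_
      rw [Finset.mem_range] at hi
      have h3 : b * i ≤ b * k := Nat.mul_le_mul_left b hi.le
      rw [mul_pow, ← map_pow, ← pow_mul, PowerSeries.coeff_C_mul, PowerSeries.coeff_X_pow,
        if_neg (by omega), mul_zero]
    · rw [mul_comm, mul_neg_geom_sum, map_sub, map_one, map_mul, map_pow, PowerSeries.expand_C,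
        PowerSeries.expand_X, mul_pow, ← map_pow, ← pow_mul, ← pow_mul, mul_comm b k,
        ← Units.val_pow_eq_pow_val, ← zpow_natCast, ← zpow_mul]
      congr 4
      ring_nf
  | one => exact ⟨1, den_one _, 1, 0, fun j hj => by rw [PowerSeries.coeff_one, if_neg (by omega)],
      by rw [map_one, mul_one]⟩
  | mul D₁ D₂ _ _ ih₁ ih₂ =>
    obtain ⟨D₁', h1, E₁, K₁, hE₁, h2⟩ := ih₁
    obtain ⟨D₂', h3, E₂, K₂, hE₂, h4⟩ := ih₂
    refine ⟨D₁' * D₂', den_mul h1 h3, E₁ * E₂, K₁ + K₂, b1_mul hE₁ hE₂, ?_⟩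
    rw [map_mul, ← h2, ← h4]
    ring

theorem polar_of_expand {s₀ : ℚ} {k : ℕ} (hk : k ≠ 0) {Z : PowerSeries MC}
    (h : PowerSeries.expand k hk Z ∈ polarRing (s₀ / k)) : Z ∈ polarRing s₀ := by
  obtain ⟨D, hD, K, hK⟩ := exists_ubd h
  obtain ⟨D', hD', E, K', hE, hED⟩ := b1_den hk hD
  refine mem_of_ubd (K := K' + K) hD' fun j hj => ?_
  have h1 := ubd_mul_left hE hK (k * j) (lt_of_lt_of_le hj (Nat.le_mul_of_pos_left j
    (Nat.pos_of_ne_zero hk)))
  rw [← PowerSeries.coeff_expand_mul k hk, map_mul, ← hED]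
  rw [← h1]
  congr 1
  ring

private theorem b1_zf {N : ℕ} (I : Ideal (MvPolynomial (Fin N) ℂ)) :
    Zf I ({0} : Set (Empty ⊕ Fin N → ℂ)) = Zmot I := by
  rw [Zf_zero I (constr_singleton 0) (by
    intro z hz i
    rw [Set.mem_singleton_iff] at hz
    subst hz
    rfl), cls_singleton, map_one, map_one, one_mul]

/-- the zeta function of a power at the origin -/
theorem zmot_pow_eq {N : ℕ} (I : Ideal (MvPolynomial (Fin N) ℂ)) {k : ℕ} (hk : k ≠ 0) :
    Zmot (I ^ k) = PowerSeries.expand k hk (Zmot I) := by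
  rw [← b1_zf, Zf_pow I hk (constr_singleton 0), b1_zf]

end CB
end MotMono
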