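import Pool.Agent.Lib.MP_4e5fcd_ag.CB.B6
import Pool.Agent.Lib.MP_4e5fcd_ag.HY.A1

/-!
# CB-B2a: `G + u v` as a germ of a generic linear combination

The tuple `tup G = (G, u)` in `n + 1` variables, `linGen (tup G) 1 = (Y₀ G + Y₁ u)` in the variables
`x, u, Y₀, Y₁`, at the point `(0; 1, 0)`; with `Y₀ = 1 + s` the germ is generated by
`H = (1 + s) G + Y₁ u`.

Proof. Let `N' = n + 1 + 1 * 2`, `xi i = castAdd (1*2) (castSucc i)`, `ui = castAdd (1*2) (last n)`,
`si = natAdd (n+1) (finProdFinEquiv (0, 0))`, `yi = natAdd (n+1) (finProdFinEquiv (0, 1))`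
(`A1_cases`, HY/A1: every element of `Fin N'` is one of these). Let
`ι : Fin (n + 2) → Fin N'`, `ι = Fin.addCases xi ![ui, yi]` (injective), `R = rename ι (hyp G)
= rename xi G + X ui * X yi`.
(1) `LocPull (span {R}) 0 (span {hyp G})` with `u = X`, `e = ι`, `h = 1` (compare `locPull_rename`,
CB-B6; Jacobian `1`). (2) `LocPull (span {R}) 0 (germ (linGen (tup G) 1) (pt 0 (unitRow 0)))` with
`u = ψ`, `ψ (yi) = (1 + X si) * X yi`, `ψ = X` at the other variables, `e = id`, `h = 1 + X si`.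
The germ is generated by `H = aeval (fun i => X i + C (pt 0 (unitRow 0) i)) (gen (tup G) 1 0)
= (1 + X si) * rename xi G + X yi * X ui` (`pt 0 (unitRow 0)` is `1` at `si` and `0` elsewhere; a germ
of a principal ideal is principal), and `aeval ψ H = (1 + X si) * R`. `push`: `h * aeval ψ (b H)` is a
multiple of `R`. `pull`: `h * (b R) = b * aeval ψ H`. Jacobian at `0`: the matrix of derivatives at
`0` is the identity. `ψ (0) = 0`, `eval 0 h = 1`.
(3) `zmot_locPull_eq` for both: `C u₁ * Zmot (span {hyp G}) = C u₂ * Zmot (germ …)`, divide.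
-/

open MvPolynomial

namespace MotMono
namespace CB

open CN HY


private def xi {n : ℕ} (i : Fin n) : Fin (n + 1 + 1 * 2) := Fin.castAdd (1 * 2) (Fin.castSucc i)

private def ui (n : ℕ) : Fin (n + 1 + 1 * 2) := Fin.castAdd (1 * 2) (Fin.last n)

private def si (n : ℕ) : Fin (n + 1 + 1 * 2) :=
  Fin.natAdd (n + 1) (finProdFinEquiv ((0 : Fin 1), (0 : Fin 2)))

private def yi (n : ℕ) : Fin (n + 1 + 1 * 2) :=
  Fin.natAdd (n + 1) (finProdFinEquiv ((0 : Fin 1), (1 : Fin 2)))

private def io (n : ℕ) : Fin (n + 2) → Fin (n + 1 + 1 * 2) :=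
  Fin.addCases (fun i : Fin n => xi i) ![ui n, yi n]

private theorem xi_val {n : ℕ} (i : Fin n) : (xi i : ℕ) = i := rfl

private theorem ui_val (n : ℕ) : (ui n : ℕ) = n := rfl

private theorem si_val (n : ℕ) : (si n : ℕ) = n + 1 := rfl

private theorem yi_val (n : ℕ) : (yi n : ℕ) = n + 2 := rfl

private theorem io_left {n : ℕ} (i : Fin n) : io n (Fin.castAdd 2 i) = xi i := by
  simp only [io, Fin.addCases_left]

private theorem io_zero (n : ℕ) : io n (Fin.natAdd n 0) = ui n := by
  simp only [io, Fin.addCases_right, Matrix.cons_val_zero]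

private theorem io_one (n : ℕ) : io n (Fin.natAdd n 1) = yi n := by
  simp only [io, Fin.addCases_right, Matrix.cons_val_one]
  rfl

private theorem io_val {n : ℕ} (a : Fin (n + 2)) :
    (io n a : ℕ) = if (a : ℕ) ≤ n then (a : ℕ) else n + 2 := by
  refine Fin.addCases (fun i => ?_) (fun j => ?_) a
  · rw [io_left, xi_val]
    have h : ((Fin.castAdd 2 i : Fin (n + 2)) : ℕ) = i := rfl
    rw [h, if_pos i.2.le]
  · fin_cases j
    · have h := io_zero n
      have h2 : ((Fin.natAdd n (0 : Fin 2) : Fin (n + 2)) : ℕ) = n := rfl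
      change (io n (Fin.natAdd n 0) : ℕ) = if ((Fin.natAdd n (0 : Fin 2) : Fin (n + 2)) : ℕ) ≤ n
        then ((Fin.natAdd n (0 : Fin 2) : Fin (n + 2)) : ℕ) else n + 2
      rw [h, h2, ui_val, if_pos le_rfl]
    · have h := io_one n
      have h2 : ((Fin.natAdd n (1 : Fin 2) : Fin (n + 2)) : ℕ) = n + 1 := rfl
      change (io n (Fin.natAdd n 1) : ℕ) = if ((Fin.natAdd n (1 : Fin 2) : Fin (n + 2)) : ℕ) ≤ n
        then ((Fin.natAdd n (1 : Fin 2) : Fin (n + 2)) : ℕ) else n + 2
      rw [h, h2, yi_val, if_neg (by omega)]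

private theorem io_inj (n : ℕ) : Function.Injective (io n) := by
  intro a b hab
  have h := congrArg Fin.val hab
  have ha := io_val a
  have hb := io_val b
  apply Fin.ext
  have h1 := a.2
  have h2 := b.2
  split_ifs at ha hb <;> omega

private theorem pt_xi {n : ℕ} (i : Fin n) :
    (pt 0 (unitRow 0) : Fin (n + 1 + 1 * 2) → ℂ) (xi i) = 0 := by
  simp only [pt, xi, Fin.addCases_left, Pi.zero_apply]

private theorem pt_ui (n : ℕ) :
    (pt 0 (unitRow 0) : Fin (n + 1 + 1 * 2) → ℂ) (ui n) = 0 := by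
  simp only [pt, ui, Fin.addCases_left, Pi.zero_apply]

private theorem pt_si (n : ℕ) :
    (pt 0 (unitRow 0) : Fin (n + 1 + 1 * 2) → ℂ) (si n) = 1 := by
  simp only [pt, si, Fin.addCases_right, Equiv.symm_apply_apply, unitRow, Matrix.of_apply, if_true]

private theorem pt_yi (n : ℕ) :
    (pt 0 (unitRow 0) : Fin (n + 1 + 1 * 2) → ℂ) (yi n) = 0 := by
  simp only [pt, yi, Fin.addCases_right, Equiv.symm_apply_apply, unitRow, Matrix.of_apply]
  rw [if_neg (by decide)]

private theorem rename_io {n : ℕ} (G : MvPolynomial (Fin n) ℂ) :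
    rename (io n) (hyp G) = rename xi G + X (ui n) * X (yi n) := by
  have h : (io n) ∘ (Fin.castAdd 2) = (xi : Fin n → _) := funext fun i => io_left i
  rw [hyp, map_add, map_mul, rename_rename, rename_X, rename_X, h, io_zero, io_one]

private theorem gen_eq {n : ℕ} (G : MvPolynomial (Fin n) ℂ) :
    gen (tup G) 1 0 = X (si n) * rename xi G + X (yi n) * X (ui n) := by
  have h : (Fin.castAdd (1 * 2)) ∘ Fin.castSucc = (xi : Fin n → _) := rfl
  rw [gen, Fin.sum_univ_two]
  have h0 : tup G 0 = rename Fin.castSucc G := rfl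
  have h1 : tup G 1 = X (Fin.last n) := rfl
  rw [h0, h1, rename_rename, rename_X, h]
  rfl

private theorem rename_eq_aeval {n m : ℕ} (f : Fin n → Fin m) (G : MvPolynomial (Fin n) ℂ) :
    rename f G = aeval (fun i => (X (f i) : MvPolynomial (Fin m) ℂ)) G := by
  have h : (rename f : MvPolynomial (Fin n) ℂ →ₐ[ℂ] MvPolynomial (Fin m) ℂ) =
      aeval (fun i => (X (f i) : MvPolynomial (Fin m) ℂ)) := by
    ext i
    simp
  rw [h]

private theorem germ_gen {n : ℕ} (G : MvPolynomial (Fin n) ℂ) :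
    aeval (fun i => (X i + C ((pt 0 (unitRow 0) : Fin (n + 1 + 1 * 2) → ℂ) i) :
      MvPolynomial (Fin (n + 1 + 1 * 2)) ℂ)) (gen (tup G) 1 0) =
      (1 + X (si n)) * rename xi G + X (yi n) * X (ui n) := by
  rw [gen_eq, map_add, map_mul, map_mul, aeval_X, aeval_X, aeval_X, pt_si, pt_yi, pt_ui, C_1, C_0,
    add_zero, add_zero, aeval_rename]
  have h : ((fun i => (X i + C ((pt 0 (unitRow 0) : Fin (n + 1 + 1 * 2) → ℂ) i) :
      MvPolynomial (Fin (n + 1 + 1 * 2)) ℂ)) ∘ xi) = fun i : Fin n => X (xi i) := by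
    funext i
    simp only [Function.comp, pt_xi, C_0, add_zero]
  rw [h, ← rename_eq_aeval]
  ring

private noncomputable def psi (n : ℕ) (a : Fin (n + 1 + 1 * 2)) :
    MvPolynomial (Fin (n + 1 + 1 * 2)) ℂ :=
  if a = yi n then (1 + X (si n)) * X (yi n) else X a

private theorem psi_yi (n : ℕ) : psi n (yi n) = (1 + X (si n)) * X (yi n) := if_pos rfl

private theorem psi_ne {n : ℕ} {a : Fin (n + 1 + 1 * 2)} (h : a ≠ yi n) : psi n a = X a :=
  if_neg h

private theorem xi_ne {n : ℕ} (i : Fin n) : xi i ≠ yi n := by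
  intro h
  have h1 := congrArg Fin.val h
  rw [xi_val, yi_val] at h1
  have := i.2
  omega

private theorem ui_ne (n : ℕ) : ui n ≠ yi n := by
  intro h
  have h1 := congrArg Fin.val h
  rw [ui_val, yi_val] at h1
  omega

private theorem si_ne (n : ℕ) : si n ≠ yi n := by
  intro h
  have h1 := congrArg Fin.val h
  rw [si_val, yi_val] at h1
  omega

private theorem psi_H {n : ℕ} (G : MvPolynomial (Fin n) ℂ) :
    aeval (psi n) ((1 + X (si n)) * rename xi G + X (yi n) * X (ui n)) =
      (1 + X (si n)) * (rename xi G + X (ui n) * X (yi n)) := by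
  have h : ((psi n) ∘ xi) = fun i : Fin n => X (xi i) := by
    funext i
    exact psi_ne (xi_ne i)
  rw [map_add, map_mul, map_mul, map_add, map_one, aeval_X, aeval_X, aeval_X, aeval_rename, h,
    ← rename_eq_aeval, psi_yi, psi_ne (ui_ne n), psi_ne (si_ne n)]
  ring

private theorem eval_h (n : ℕ) :
    eval (0 : Fin (n + 1 + 1 * 2) → ℂ) (1 + X (si n)) = 1 := by
  rw [map_add, map_one, eval_X, Pi.zero_apply, add_zero]

private theorem jac_X {N : ℕ} : jacDet (fun i => (X i : MvPolynomial (Fin N) ℂ)) = 1 := by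
  unfold jacDet
  have : (Matrix.of fun i j => pderiv j (X i : MvPolynomial (Fin N) ℂ)) = 1 := by
    ext1 i j
    rw [Matrix.of_apply, pderiv_X, Matrix.one_apply, Pi.single_apply]
  rw [this, Matrix.det_one]

private theorem jac_psi (n : ℕ) :
    eval (0 : Fin (n + 1 + 1 * 2) → ℂ) (jacDet (psi n)) = 1 := by
  unfold jacDet
  rw [RingHom.map_det]
  have : (eval (0 : Fin (n + 1 + 1 * 2) → ℂ)).mapMatrix
      (Matrix.of fun i j => pderiv j (psi n i)) = 1 := by
    ext1 i j
    rw [RingHom.mapMatrix_apply, Matrix.map_apply, Matrix.of_apply, Matrix.one_apply]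
    by_cases hi : i = yi n
    · subst hi
      rw [psi_yi, Derivation.leibniz, smul_eq_mul, smul_eq_mul, map_add, map_mul, map_mul, eval_h,
        eval_X, Pi.zero_apply, zero_mul, add_zero, one_mul, pderiv_X, Pi.single_apply]
      split_ifs <;> simp
    · rw [psi_ne hi, pderiv_X, Pi.single_apply]
      split_ifs <;> simp
  rw [this, Matrix.det_one]

private theorem locPull_one {n : ℕ} (G : MvPolynomial (Fin n) ℂ) :
    LocPull (Ideal.span {rename xi G + X (ui n) * X (yi n)}) 0 (Ideal.span {hyp G}) := by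
  refine ⟨fun i => X i, io n, 1, io_inj n, ?_, ?_, ?_, ?_, ?_⟩
  · rw [map_one]
    exact one_ne_zero
  · rw [jac_X, map_one]
    exact one_ne_zero
  · intro i
    rw [eval_X, Pi.zero_apply]
  · intro g hg
    obtain ⟨b, rfl⟩ := Ideal.mem_span_singleton.1 hg
    rw [one_mul (M := MvPolynomial (Fin (n + 1 + 1 * 2)) ℂ), ← rename_eq_aeval, map_mul, rename_io]
    exact Ideal.mul_mem_right _ _ (Ideal.subset_span rfl)
  · intro f hf
    obtain ⟨b, rfl⟩ := Ideal.mem_span_singleton.1 hf
    rw [one_mul (M := MvPolynomial (Fin (n + 1 + 1 * 2)) ℂ)]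
    refine Ideal.mul_mem_right _ _ (Ideal.subset_span ⟨hyp G, Ideal.subset_span rfl, ?_⟩)
    rw [← rename_eq_aeval, rename_io]

private theorem locPull_two {n : ℕ} (G : MvPolynomial (Fin n) ℂ) :
    LocPull (Ideal.span {rename xi G + X (ui n) * X (yi n)}) 0
      (Ideal.span {(1 + X (si n)) * rename xi G + X (yi n) * X (ui n)}) := by
  refine ⟨psi n, id, 1 + X (si n), Function.injective_id, ?_, ?_, ?_, ?_, ?_⟩
  · rw [eval_h]
    exact one_ne_zero
  · rw [jac_psi]
    exact one_ne_zero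
  · intro i
    rw [id]
    by_cases hi : i = yi n
    · subst hi
      rw [psi_yi, map_mul, eval_X, Pi.zero_apply, mul_zero]
    · rw [psi_ne hi, eval_X, Pi.zero_apply]
  · intro g hg
    obtain ⟨b, rfl⟩ := Ideal.mem_span_singleton.1 hg
    have h : aeval (fun i => psi n (id i)) (((1 + X (si n)) * rename xi G + X (yi n) * X (ui n)) * b) =
        (rename xi G + X (ui n) * X (yi n)) * ((1 + X (si n)) * aeval (psi n) b) := by
      change aeval (psi n) _ = _
      rw [map_mul, psi_H]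
      ring
    rw [h]
    exact Ideal.mul_mem_left _ _ (Ideal.mul_mem_right _ _ (Ideal.subset_span rfl))
  · intro f hf
    obtain ⟨b, rfl⟩ := Ideal.mem_span_singleton.1 hf
    have h : (1 + X (si n)) * ((rename xi G + X (ui n) * X (yi n)) * b) =
        aeval (psi n) ((1 + X (si n)) * rename xi G + X (yi n) * X (ui n)) * b := by
      rw [psi_H]
      ring
    rw [h]
    exact Ideal.mul_mem_right _ _ (Ideal.subset_span ⟨_, Ideal.subset_span rfl, rfl⟩)

private theorem germ_sing {N : ℕ} (F : MvPolynomial (Fin N) ℂ) (c : Fin N → ℂ) :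
    germ (Ideal.span {F}) c = Ideal.span {aeval (fun i => X i + C (c i)) F} := by
  apply le_antisymm
  · rw [germ, Ideal.span_le]
    rintro _ ⟨f, hf, rfl⟩
    obtain ⟨b, rfl⟩ := Ideal.mem_span_singleton.1 hf
    rw [map_mul]
    exact Ideal.mul_mem_right _ _ (Ideal.subset_span rfl)
  · rw [Ideal.span_le]
    rintro _ rfl
    exact Ideal.subset_span ⟨F, Ideal.subset_span rfl, rfl⟩

private theorem linGen_sing {N R : ℕ} (g : Fin R → MvPolynomial (Fin N) ℂ) :
    linGen g 1 = Ideal.span {gen g 1 0} := by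
  have h : linGen g 1 = Ideal.span (Set.range (gen g 1)) := rfl
  rw [h]
  congr 1
  ext f
  constructor
  · rintro ⟨i, rfl⟩
    rw [Subsingleton.elim i 0]
    rfl
  · rintro rfl
    exact ⟨0, rfl⟩

theorem zmot_hyp_eq {n : ℕ} (G : MvPolynomial (Fin n) ℂ) :
    ∃ u : MCˣ, Zmot (Ideal.span {hyp G}) =
      PowerSeries.C (u : MC) * Zmot (germ (linGen (tup G) 1) (pt 0 (unitRow 0))) := by
  obtain ⟨u₁, h₁⟩ := zmot_locPull_eq _ _ (locPull_one G)
  obtain ⟨u₂, h₂⟩ := zmot_locPull_eq _ _ (locPull_two G)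
  refine ⟨u₁⁻¹ * u₂, ?_⟩
  rw [linGen_sing, germ_sing, germ_gen, Units.val_mul, map_mul, mul_assoc, ← h₂, h₁, ← mul_assoc,
    ← map_mul, Units.inv_mul, map_one, one_mul]

end CB
end MotMono
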