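import Pool.Agent.Lib.MP_4e5fcd_ag.CB.Base
import Pool.Agent.Lib.MP_4e5fcd_ag.HY.A8
import Pool.Agent.Lib.MP_4e5fcd_ag.HY.B4

/-!
# CB-B2b: classes for the tuple `(G, u)`

Let `γ : Fin (n+1) × Fin (k+1) → ℂ` have the `x`-part `γ (castSucc i, l)` and the `u`-part
`γ (last n, l)`. `along (tup G 0) γ = along G (x-part)` (`along_castSucc`, TV/Y1),
`along (tup G 1) γ = arc γ (last n)` with coefficients `γ (last n, l)`, `l ≤ k`.
`unitRow 0 *ᵥ v = fun _ => v 0`.

`cls_KK_tup` (`1 ≤ m ≤ k`): `γ ∈ KK (tup G) 0 (unitRow 0) m k` iff the `x`-part is in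
`YY (span {G}) k (m+1)` (base point `0`, coefficients `≤ m` of `G` vanish; `ordGe_span` for the
principal ideal) and the `u`-part has `γ_l = 0` for `l < m` (this includes the base point `l = 0`),
`γ_m ≠ 0`. Reindex to a product (`cls_iso`, `RegIso.reindex`, `cls_prodSet`): the class of the set of
`u`-parts `{w : Fin (k+1) → ℂ | w_l = 0 (l < m), w_m ≠ 0}` is `(L - 1) L^(k - m)` (isomorphic to
`{w : Unit → ℂ | w ≠ 0} × ℂ^(k-m)`, or difference of two linear sets).
`cls_KK_tup_zero`: `m = 0`: at the base point `0` both entries of `vec (tup G) 0 γ` vanish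
(`eval 0 G = 0`), so the set is empty.
`cls_TO_tup`: base point `0`, `TO (tup G) k γ`, `vec_0 ≠ 0`: the `x`-part is in `ordLocus (span {G}) k`
(`mem_ordLocus_iff` for the tuple `![G]`, or directly), the `u`-part has `w_l = 0` for `l < k`; class
`L` (for `k ≥ 1`; for `k = 0` both sides are `0`, the sets are empty because `eval 0 G = 0`).
-/

open MvPolynomial Matrix

namespace MotMono
namespace CB

open CN HY

variable {n : ℕ}

/-- the index map -/
private def B2b_idx (n k : ℕ) : (Fin n × Fin (k + 1)) ⊕ Fin (k + 1) → Fin (n + 1) × Fin (k + 1)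
  | Sum.inl q => (Fin.castSucc q.1, q.2)
  | Sum.inr l => (Fin.last n, l)

private theorem B2b_bij (n k : ℕ) : Function.Bijective (B2b_idx n k) := by
  constructor
  · rintro (⟨a, l⟩ | l) (⟨a', l'⟩ | l') h
    · simp only [B2b_idx, Prod.mk.injEq, Fin.castSucc_inj] at h
      rw [h.1, h.2]
    · simp only [B2b_idx, Prod.mk.injEq] at h
      exact absurd h.1 (Fin.castSucc_lt_last a).ne
    · simp only [B2b_idx, Prod.mk.injEq] at h
      exact absurd h.1 (Fin.castSucc_lt_last a').ne'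
    · simp only [B2b_idx, Prod.mk.injEq] at h
      rw [h.2]
  · rintro ⟨a, l⟩
    refine Fin.lastCases ?_ (fun i => ?_) a
    · exact ⟨Sum.inr l, rfl⟩
    · exact ⟨Sum.inl (i, l), rfl⟩

/-- the class of a product of a set of `x`-parts and a set of `u`-parts -/
private theorem B2b_prod {k : ℕ} {S : Set (Fin n × Fin (k + 1) → ℂ)} {W : Set (Fin (k + 1) → ℂ)}
    (hS : Constr S) (hW : Constr W) :
    cls {γ : Fin (n + 1) × Fin (k + 1) → ℂ | (fun q => γ (Fin.castSucc q.1, q.2)) ∈ S ∧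
      (fun l => γ (Fin.last n, l)) ∈ W} = cls W * cls S := by
  rw [mul_comm, ← cls_prodSet hS hW]
  have h1 : Constr {γ : Fin (n + 1) × Fin (k + 1) → ℂ | (fun q => γ (Fin.castSucc q.1, q.2)) ∈ S ∧
      (fun l => γ (Fin.last n, l)) ∈ W} :=
    (hS.comp (σ := Fin (n + 1) × Fin (k + 1)) (fun q => (Fin.castSucc q.1, q.2))).inter
      (hW.comp (σ := Fin (n + 1) × Fin (k + 1)) (fun l => (Fin.last n, l)))
  refine (cls_iso (hS.prodSet hW) h1 ?_).symm
  exact RegIso.reindex (Equiv.ofBijective _ (B2b_bij n k)) (prodSet S W)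

/-- the linear set of the `w` with `w_l = 0` for `l < m` -/
private def B2b_U (k m : ℕ) : Set (Fin (k + 1) → ℂ) := {w | ∀ l : Fin (k + 1), (l : ℕ) < m → w l = 0}

private theorem B2b_U_constr (k m : ℕ) : Constr (B2b_U k m) := by
  have e : B2b_U k m = ⋂ l : Fin (k + 1), {w | (l : ℕ) < m → w l = 0} := by
    ext w
    simp only [B2b_U, Set.mem_ofPred_eq, Set.mem_iInter]
  rw [e]
  refine constr_iInter fun l => ?_
  by_cases h : (l : ℕ) < m
  · simpa [h] using Constr.zeroSet (X l : MvPolynomial (Fin (k + 1)) ℂ)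
  · simpa [h] using constr_univ (σ := Fin (k + 1))

private theorem B2b_U_cls {k m : ℕ} (hm : m ≤ k + 1) : cls (B2b_U k m) = LL ^ (k + 1 - m) := by
  have h1 : cls (Set.univ : Set (Fin (k + 1 - m) → ℂ)) = LL ^ (k + 1 - m) := by
    rw [cls_univ, Fintype.card_fin]
  rw [← h1]
  refine cls_iso (B2b_U_constr k m) constr_univ
    ⟨fun w i => w ⟨i + m, by omega⟩,
      fun v l => if h : m ≤ (l : ℕ) then v ⟨l - m, by omega⟩ else 0,
      fun i => regFun_coord _ _, fun l => ?_, fun _ _ => Set.mem_univ _, ?_, ?_, ?_⟩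
  · by_cases h : m ≤ (l : ℕ)
    · simp only [h, dif_pos]; exact regFun_coord _ _
    · simp only [h, dif_neg, not_false_iff]; exact regFun_const _ _
  · intro v _ l hl
    simp only [dif_neg (not_le.2 hl)]
  · intro w hw
    funext l
    by_cases h : m ≤ (l : ℕ)
    · simp only [h, dif_pos]
      congr 1
      exact Fin.ext (by simp only; omega)
    · simp only [h, dif_neg, not_false_iff]
      exact (hw l (not_le.1 h)).symm
  · intro v _
    funext i
    simp

private theorem B2b_W_cls {k m : ℕ} (hm : m ≤ k) :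
    cls (B2b_U k m \ B2b_U k (m + 1)) = (LL - 1) * LL ^ (k - m) := by
  rw [cls_diff (B2b_U_constr k m) (B2b_U_constr k (m + 1)) ?_, B2b_U_cls (by omega),
    B2b_U_cls (by omega)]
  · have h1 : k + 1 - m = (k - m) + 1 := by omega
    have h2 : k + 1 - (m + 1) = k - m := by omega
    rw [h1, h2, pow_succ]
    ring
  · intro w hw l hl
    exact hw l (by omega)

private theorem B2b_mem_W {k m : ℕ} (hm : m ≤ k) (w : Fin (k + 1) → ℂ) :
    w ∈ B2b_U k m \ B2b_U k (m + 1) ↔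
      (∀ l : Fin (k + 1), (l : ℕ) < m → w l = 0) ∧ w ⟨m, by omega⟩ ≠ 0 := by
  constructor
  · rintro ⟨h1, h2⟩
    refine ⟨h1, fun h3 => h2 fun l hl => ?_⟩
    rcases Nat.lt_succ_iff_lt_or_eq.1 hl with h4 | h4
    · exact h1 l h4
    · have : l = ⟨m, by omega⟩ := Fin.ext h4
      rw [this]
      exact h3
  · rintro ⟨h1, h2⟩
    exact ⟨h1, fun h3 => h2 (h3 _ (Nat.lt_succ_self m))⟩

private theorem B2b_along0 {k : ℕ} (G : MvPolynomial (Fin n) ℂ) (γ : Fin (n + 1) × Fin k → ℂ) :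
    along (tup G 0) γ = along G (fun q => γ (Fin.castSucc q.1, q.2)) := by
  show along (rename Fin.castSucc G) γ = _
  unfold along
  rw [aeval_rename]
  rfl

private theorem B2b_along1 {k : ℕ} (G : MvPolynomial (Fin n) ℂ) (γ : Fin (n + 1) × Fin k → ℂ) :
    along (tup G 1) γ = arc γ (Fin.last n) := by
  show along (X (Fin.last n)) γ = _
  unfold along
  rw [aeval_X]

private theorem B2b_TO_iff {k m : ℕ} (hm : m ≤ k + 1) (G : MvPolynomial (Fin n) ℂ)
    (γ : Fin (n + 1) × Fin (k + 1) → ℂ) :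
    TO (tup G) m γ ↔
      (∀ l < m, (along G (fun q => γ (Fin.castSucc q.1, q.2))).coeff l = 0) ∧
      ∀ l : Fin (k + 1), (l : ℕ) < m → γ (Fin.last n, l) = 0 := by
  unfold TO
  rw [Fin.forall_fin_two, B2b_along0, B2b_along1]
  refine and_congr_right fun _ => ⟨fun h l hl => ?_, fun h l hl => ?_⟩
  · have h1 := h l hl
    rw [a1_arc_coeff, dif_pos l.2] at h1
    exact h1
  · rw [a1_arc_coeff, dif_pos (by omega)]
    exact h _ hl

private theorem B2b_unit (v : Fin 2 → ℂ) : unitRow (R := 2) 0 *ᵥ v = fun _ => v 0 := by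
  funext i
  simp [Matrix.mulVec, dotProduct, unitRow]

private theorem B2b_vec0 {k m : ℕ} (G : MvPolynomial (Fin n) ℂ)
    (γ : Fin (n + 1) × Fin k → ℂ) :
    vec (tup G) m γ 0 = (along G (fun q => γ (Fin.castSucc q.1, q.2))).coeff m := by
  unfold HY.vec
  rw [B2b_along0]

private theorem B2b_vec1 {k m : ℕ} (hm : m < k) (G : MvPolynomial (Fin n) ℂ)
    (γ : Fin (n + 1) × Fin k → ℂ) :
    vec (tup G) m γ 1 = γ (Fin.last n, ⟨m, hm⟩) := by
  unfold HY.vec
  rw [B2b_along1, a1_arc_coeff, dif_pos hm]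

private theorem B2b_unit_eq_zero (v : Fin 2 → ℂ) : unitRow (R := 2) 0 *ᵥ v = 0 ↔ v 0 = 0 := by
  rw [B2b_unit]
  exact ⟨fun h => congrFun h 0, fun h => funext fun _ => h⟩

private theorem B2b_bp {k : ℕ} (γ : Fin (n + 1) × Fin (k + 1) → ℂ) :
    bp γ = 0 ↔ bp (fun q : Fin n × Fin (k + 1) => γ (Fin.castSucc q.1, q.2)) = 0 ∧
      γ (Fin.last n, 0) = 0 := by
  constructor
  · intro h
    exact ⟨funext fun i => congrFun h (Fin.castSucc i), congrFun h (Fin.last n)⟩
  · rintro ⟨h1, h2⟩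
    funext a
    refine Fin.lastCases ?_ (fun i => ?_) a
    · exact h2
    · exact congrFun h1 i

theorem cls_KK_tup (G : MvPolynomial (Fin n) ℂ) {m k : ℕ} (hm : 1 ≤ m) (hmk : m ≤ k) :
    cls (HY.KK (tup G) 0 (unitRow 0) m k) =
      (LL - 1) * LL ^ (k - m) * cls (YY (Ideal.span {G}) k (m + 1)) := by
  have hY : Constr (YY (Ideal.span {G}) k (m + 1)) :=
    (constr_bp (n := k) (0 : Fin n → ℂ)).inter (constr_ordGe _ _)
  have hset : HY.KK (tup G) 0 (unitRow 0) m k =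
      {γ : Fin (n + 1) × Fin (k + 1) → ℂ |
        (fun q => γ (Fin.castSucc q.1, q.2)) ∈ YY (Ideal.span {G}) k (m + 1) ∧
        (fun l => γ (Fin.last n, l)) ∈ B2b_U k m \ B2b_U k (m + 1)} := by
    ext γ
    rw [Set.mem_ofPred_eq, B2b_mem_W hmk]
    unfold HY.KK YY
    rw [Set.mem_ofPred_eq, Set.mem_ofPred_eq, ordGe_span]
    unfold TE
    rw [B2b_TO_iff (by omega), B2b_unit_eq_zero, B2b_vec0, B2b_bp]
    constructor
    · rintro ⟨⟨h1, h2⟩, ⟨⟨h3, h4⟩, h5⟩, h6⟩
      refine ⟨⟨h1, ?_⟩, h4, ?_⟩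
      · intro f hf l hl
        rw [Set.mem_singleton_iff.1 hf]
        rcases Nat.lt_succ_iff_lt_or_eq.1 hl with h7 | h7
        · exact h3 l h7
        · rw [h7]; exact h6
      · intro h7
        apply h5
        funext j
        refine Fin.cases ?_ (fun j => ?_) j
        · rw [B2b_vec0]; exact h6
        · have hj : j = 0 := Subsingleton.elim _ _
          rw [hj]
          show vec (tup G) m γ 1 = 0
          rw [B2b_vec1 (by omega)]
          exact h7
    · rintro ⟨⟨h1, h2⟩, h3, h4⟩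
      have h5 := h2 G rfl
      refine ⟨⟨h1, h3 0 (by rw [Fin.val_zero]; omega)⟩, ⟨⟨fun l hl => h5 l (by omega), h3⟩, ?_⟩,
        h5 m (Nat.lt_succ_self m)⟩
      intro h6
      have h7 := congrFun h6 1
      rw [B2b_vec1 (by omega)] at h7
      exact h4 h7
  rw [hset, B2b_prod hY ((B2b_U_constr k m).diff (B2b_U_constr k (m + 1))), B2b_W_cls hmk]

private theorem B2b_coeff_zero {k : ℕ} (G : MvPolynomial (Fin n) ℂ) (h0 : eval 0 G = 0)
    (x : Fin n × Fin (k + 1) → ℂ) (hx : bp x = 0) : (along G x).coeff 0 = 0 := by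
  rw [LF.coeff_along_zero]
  have : (fun i => x (i, 0)) = (0 : Fin n → ℂ) := hx
  rw [this]
  exact h0

theorem cls_KK_tup_zero (G : MvPolynomial (Fin n) ℂ) (h0 : eval 0 G = 0) (k : ℕ) :
    cls (HY.KK (tup G) 0 (unitRow 0) 0 k) = 0 := by
  have hset : HY.KK (tup G) 0 (unitRow 0) 0 k = ∅ := by
    rw [Set.eq_empty_iff_forall_notMem]
    rintro γ ⟨h1, ⟨-, h2⟩, -⟩
    rw [B2b_bp] at h1
    apply h2
    funext j
    refine Fin.cases ?_ (fun j => ?_) j
    · rw [B2b_vec0]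
      exact B2b_coeff_zero G h0 _ h1.1
    · have hj : j = 0 := Subsingleton.elim _ _
      rw [hj]
      show vec (tup G) 0 γ 1 = 0
      rw [B2b_vec1 (by omega)]
      exact h1.2
  rw [hset, cls_empty]

theorem cls_TO_tup (G : MvPolynomial (Fin n) ℂ) (h0 : eval 0 G = 0) (k : ℕ) :
    cls {γ : Fin (n + 1) × Fin (k + 1) → ℂ | bp γ = 0 ∧ TO (tup G) k γ ∧
      unitRow 0 *ᵥ vec (tup G) k γ ≠ 0} = LL * cls (ordLocus (Ideal.span {G}) k) := by
  rcases Nat.eq_zero_or_pos k with hk | hk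
  · subst hk
    have e1 : {γ : Fin (n + 1) × Fin (0 + 1) → ℂ | bp γ = 0 ∧ TO (tup G) 0 γ ∧
        unitRow 0 *ᵥ vec (tup G) 0 γ ≠ 0} = ∅ := by
      rw [Set.eq_empty_iff_forall_notMem]
      rintro γ ⟨h1, -, h2⟩
      apply h2
      rw [B2b_unit_eq_zero, B2b_vec0]
      rw [B2b_bp] at h1
      exact B2b_coeff_zero G h0 _ h1.1
    have e2 : ordLocus (Ideal.span {G}) 0 = (∅ : Set (Fin n × Fin (0 + 1) → ℂ)) := by
      rw [Set.eq_empty_iff_forall_notMem]
      rintro x ⟨h1, -, f, hf, h2⟩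
      apply h2
      have h3 : eval 0 f = 0 := by
        obtain ⟨a, rfl⟩ := Ideal.mem_span_singleton.1 hf
        rw [map_mul, h0, zero_mul]
      exact B2b_coeff_zero f h3 x (funext h1)
    rw [e1, e2, cls_empty, cls_empty, mul_zero]
  · have hset : {γ : Fin (n + 1) × Fin (k + 1) → ℂ | bp γ = 0 ∧ TO (tup G) k γ ∧
        unitRow 0 *ᵥ vec (tup G) k γ ≠ 0} =
        {γ : Fin (n + 1) × Fin (k + 1) → ℂ |
          (fun q => γ (Fin.castSucc q.1, q.2)) ∈ ordLocus (Ideal.span {G}) k ∧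
          (fun l => γ (Fin.last n, l)) ∈ B2b_U k k} := by
      ext γ
      rw [Set.mem_ofPred_eq, Set.mem_ofPred_eq, B2b_bp, B2b_TO_iff (by omega), Ne,
        B2b_unit_eq_zero, B2b_vec0]
      have h1 : ∀ x : Fin n × Fin (k + 1) → ℂ, x ∈ ordLocus (Ideal.span {G}) k ↔
          bp x = 0 ∧ x ∈ ExOrd (Ideal.span {G}) k := by
        intro x
        constructor
        · rintro ⟨h1, h2, h3⟩
          exact ⟨funext h1, h2, h3⟩
        · rintro ⟨h1, h2, h3⟩
          exact ⟨fun i => congrFun h1 i, h2, h3⟩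
      rw [h1, exOrd_span]
      constructor
      · rintro ⟨⟨h2, h3⟩, ⟨h4, h5⟩, h6⟩
        refine ⟨⟨h2, fun f hf l hl => ?_, G, rfl, h6⟩, h5⟩
        rw [Set.mem_singleton_iff.1 hf]
        exact h4 l hl
      · rintro ⟨⟨h2, h3, f, hf, h4⟩, h5⟩
        rw [Set.mem_singleton_iff.1 hf] at h4
        exact ⟨⟨h2, h5 0 (by rw [Fin.val_zero]; exact hk)⟩, ⟨fun l hl => h3 G rfl l hl, h5⟩, h4⟩
    rw [hset, B2b_prod (constr_ordLocus _ _) (B2b_U_constr k k), B2b_U_cls (by omega)]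
    have : k + 1 - k = 1 := by omega
    rw [this, pow_one]

end CB
end MotMono
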