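import Pool.Agent.Lib.MP_4e5fcd_ag.CB.Base
import Pool.Agent.Lib.MP_4e5fcd_ag.HY.A7

/-!
# CB-B2c: the jets along which an ideal vanishes to order at least `m + 1`

Proof. `{γ : Fin N × Fin (k+1) → ℂ | bp γ = 0}` has class `L^(N k)` (isomorphic to `ℂ^(N × Fin k)`).
It is the disjoint union of `YY I k (m+1)` and of the sets
`W_l = {γ | bp γ = 0, OrdGe I l γ, ∃ f ∈ I, (along f γ).coeff l ≠ 0}`, `l ≤ m` (the first order at
which some element of `I` does not vanish); `cls W_l = L^(N (k - l)) cls (ordLocus I l)`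
(`cls_truncJ`, HY/A7: `γ ∈ W_l` iff its truncation to the level `l` is in `ordLocus I l`,
`along_trunc`). All sets are constructible (`constr_ordLocus`, …; for `YY`: complement of the union in
`{bp = 0}`, or `I = span` of a finite set).
-/

open MvPolynomial

namespace MotMono
namespace CB

open CN HY

private theorem exists_range {N : ℕ} (I : Ideal (MvPolynomial (Fin N) ℂ)) :
    ∃ (r : ℕ) (f : Fin r → MvPolynomial (Fin N) ℂ), I = Ideal.span (Set.range f) := by
  obtain ⟨S, hS⟩ := (isNoetherianRing_iff_ideal_fg _).1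
    (inferInstance : IsNoetherianRing (MvPolynomial (Fin N) ℂ)) I
  refine ⟨S.card, fun i => (S.equivFin.symm i : MvPolynomial (Fin N) ℂ), ?_⟩
  rw [← hS]
  congr 1
  ext x
  constructor
  · intro hx
    exact ⟨S.equivFin ⟨x, hx⟩, by simp⟩
  · rintro ⟨i, rfl⟩
    exact (S.equivFin.symm i).2

private theorem cls_bp {N : ℕ} (k : ℕ) :
    cls {γ : Fin N × Fin (k + 1) → ℂ | bp γ = 0} = LL ^ (N * k) := by
  have h := cls_truncJ (N := N) (m := k) (j := 0) (Nat.zero_le k)
    (E := ({0} : Set (Fin N × Fin (0 + 1) → ℂ))) (constr_singleton 0)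
  rw [cls_singleton, mul_one, Nat.sub_zero] at h
  rw [← h]
  congr 1
  ext γ
  simp only [Set.mem_ofPred_eq, Set.mem_singleton_iff]
  constructor
  · intro hb
    funext q
    have hq : q.2 = 0 := Fin.ext (by have := q.2.2; simp only [Fin.val_zero]; omega)
    have h1 := congrFun hb q.1
    rw [hq]
    exact h1
  · intro hb
    funext i
    exact congrFun hb (i, 0)

private theorem cls_YT {N r : ℕ} (f : Fin r → MvPolynomial (Fin N) ℂ) {k : ℕ} (m : ℕ) :
    m ≤ k → cls {γ : Fin N × Fin (k + 1) → ℂ | bp γ = 0 ∧ TO f (m + 1) γ} =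
      LL ^ (N * k) - ∑ l ∈ Finset.range (m + 1), LL ^ (N * (k - l)) *
        cls (ordLocus (Ideal.span (Set.range f)) l) := by
  have key : ∀ m, m ≤ k → cls {γ : Fin N × Fin (k + 1) → ℂ | bp γ = 0 ∧ TO f m γ} =
      cls {γ : Fin N × Fin (k + 1) → ℂ | bp γ = 0 ∧ TO f (m + 1) γ} +
        LL ^ (N * (k - m)) * cls (ordLocus (Ideal.span (Set.range f)) m) := by
    intro m hm
    rw [← cls_TE_zero f hm, ← cls_union]
    · congr 1
      ext γ
      simp only [Set.mem_union, Set.mem_ofPred_eq]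
      constructor
      · rintro ⟨h1, h2⟩
        by_cases hv : vec f m γ = 0
        · left
          refine ⟨h1, fun j l hl => ?_⟩
          rcases Nat.lt_succ_iff_lt_or_eq.1 hl with h3 | h3
          · exact h2 j l h3
          · rw [h3]
            exact congrFun hv j
        · right
          exact ⟨h1, h2, hv⟩
      · rintro (⟨h1, h2⟩ | ⟨h1, h2, -⟩)
        · exact ⟨h1, fun j l hl => h2 j l (Nat.lt_succ_of_lt hl)⟩
        · exact ⟨h1, h2⟩
    · exact (constr_bp 0).inter (constr_TO f (m + 1))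
    · exact (constr_bp 0).inter (constr_TE f m)
    · rw [Set.disjoint_left]
      rintro γ ⟨-, h2⟩ ⟨-, -, h4⟩
      exact h4 (funext fun j => h2 j m (Nat.lt_succ_self m))
  induction m with
  | zero =>
    intro h0
    have h := key 0 h0
    have h1 : {γ : Fin N × Fin (k + 1) → ℂ | bp γ = 0 ∧ TO f 0 γ} =
        {γ : Fin N × Fin (k + 1) → ℂ | bp γ = 0} := by
      ext γ
      simp [TO]
    rw [h1, cls_bp] at h
    rw [Finset.sum_range_one, h]
    ring
  | succ m ih =>
    intro h0
    have h := key (m + 1) h0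
    rw [ih (by omega)] at h
    rw [Finset.sum_range_succ, ← sub_sub, h]
    ring

theorem cls_YY {N : ℕ} (I : Ideal (MvPolynomial (Fin N) ℂ)) {m k : ℕ} (hmk : m ≤ k) :
    cls (YY I k (m + 1)) =
      LL ^ (N * k) - ∑ l ∈ Finset.range (m + 1), LL ^ (N * (k - l)) * cls (ordLocus I l) := by
  obtain ⟨r, f, rfl⟩ := exists_range I
  rw [← cls_YT f m hmk]
  congr 1
  ext γ
  simp only [YY, Set.mem_ofPred_eq, ordGe_iff]

end CB
end MotMono
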