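import Pool.Agent.Lib.MP_4e5fcd_ag.CB.B4a
import Pool.Agent.Lib.MP_4e5fcd_ag.CN.E4

/-!
# CB-B4b: the zeta function of the germ of `∑ j, Y_j g_j` at `(0, C)`

`cls_germ`: the jets at the origin along which the germ of `J` at `c` vanishes exactly to order `k`
correspond to the jets at `c` along which `J` does: `RegIso` `γ ↦ γ + c` at the level `0`;
`along (aeval (fun i => X i + C (c i)) f) γ = along f (γ + c at level 0)`; the germ is the span of
these polynomials (`ordGe_span`, and `ne`: if all coefficients `k` of the generators vanish, then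
`OrdGe (germ) (k+1)`, so all do; compare HY/A2 `ne_iff`).
`coeff_germ_gen`: `cls_germ` for `J = linGen g 1 = span (range (gen g 1))`, `mem_ordLocus`-like
`ordGe_iff`, `ne_iff` (HY/A2) to get the set of `cls_gen_at`.
-/

open MvPolynomial Matrix

namespace MotMono
namespace CB

open CN HY

/-- the jet with the base point moved by `c` -/
private def B4bs {N k : ℕ} (c : Fin N → ℂ) (γ : Fin N × Fin (k + 1) → ℂ) :
    Fin N × Fin (k + 1) → ℂ :=
  fun q => if q.2 = 0 then γ q + c q.1 else γ q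

private theorem B4bs_zero {N k : ℕ} (c : Fin N → ℂ) (γ : Fin N × Fin (k + 1) → ℂ) (i : Fin N) :
    B4bs c γ (i, 0) = γ (i, 0) + c i := if_pos rfl

private theorem B4bs_succ {N k : ℕ} (c : Fin N → ℂ) (γ : Fin N × Fin (k + 1) → ℂ) (i : Fin N)
    (l : Fin k) : B4bs c γ (i, l.succ) = γ (i, l.succ) := if_neg (Fin.succ_ne_zero l)

private theorem B4bs_bs {N k : ℕ} (c d : Fin N → ℂ) (h : ∀ i, c i + d i = 0)
    (γ : Fin N × Fin (k + 1) → ℂ) : B4bs d (B4bs c γ) = γ := by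
  funext q
  obtain ⟨i, l⟩ := q
  refine Fin.cases ?_ (fun l => ?_) l
  · rw [B4bs_zero, B4bs_zero, add_assoc, h i, add_zero]
  · rw [B4bs_succ, B4bs_succ]

private theorem B4bs_arc {N k : ℕ} (c : Fin N → ℂ) (γ : Fin N × Fin (k + 1) → ℂ) (i : Fin N) :
    arc (B4bs c γ) i = arc γ i + Polynomial.C (c i) := by
  unfold arc
  rw [Fin.sum_univ_succ, Fin.sum_univ_succ, B4bs_zero]
  have h : ∑ l : Fin k, Polynomial.C (B4bs c γ (i, l.succ)) * Polynomial.X ^ ((l.succ : Fin (k + 1)) : ℕ) =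
      ∑ l : Fin k, Polynomial.C (γ (i, l.succ)) * Polynomial.X ^ ((l.succ : Fin (k + 1)) : ℕ) :=
    Finset.sum_congr rfl fun l _ => by rw [B4bs_succ]
  rw [h, Polynomial.C_add]
  simp only [Fin.val_zero, pow_zero, mul_one]
  ring

private theorem B4bs_along {N k : ℕ} (c : Fin N → ℂ) (γ : Fin N × Fin (k + 1) → ℂ)
    (f : MvPolynomial (Fin N) ℂ) :
    along (aeval (fun i => X i + C (c i)) f) γ = along f (B4bs c γ) := by
  have h : arc (B4bs c γ) = fun i => aeval (arc γ) (X i + C (c i) : MvPolynomial (Fin N) ℂ) := by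
    funext i
    rw [B4bs_arc, map_add, aeval_X, aeval_C]
    rfl
  unfold along
  rw [h, comp_aeval_apply]

private theorem B4bs_reg {N k : ℕ} (c : Fin N → ℂ) (F : Set (Fin N × Fin (k + 1) → ℂ)) :
    RegularOn F (B4bs c) := by
  rintro ⟨i, l⟩
  refine Fin.cases ?_ (fun l => ?_) l
  · refine ((regFun_coord F (i, (0 : Fin (k + 1)))).add (regFun_const F (c i))).congr
      fun γ _ => ?_
    exact (B4bs_zero c γ i).symm
  · refine (regFun_coord F (i, l.succ)).congr fun γ _ => ?_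
    exact (B4bs_succ c γ i l).symm

private theorem B4b_germ {N : ℕ} (J : Ideal (MvPolynomial (Fin N) ℂ)) (c : Fin N → ℂ) (k : ℕ)
    (γ : Fin N × Fin (k + 1) → ℂ) :
    γ ∈ ExOrd (germ J c) k ↔ B4bs c γ ∈ ExOrd J k := by
  have e : germ J c = Ideal.span {f' | ∃ f ∈ J, f' = aeval (fun i => X i + C (c i)) f} := rfl
  rw [e, exOrd_span]
  constructor
  · rintro ⟨h1, f', ⟨f, hf, rfl⟩, h2⟩
    refine ⟨fun f hf l hl => ?_, f, hf, ?_⟩
    · rw [← B4bs_along]
      exact h1 _ ⟨f, hf, rfl⟩ l hl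
    · rw [← B4bs_along]
      exact h2
  · rintro ⟨h1, f, hf, h2⟩
    refine ⟨?_, _, ⟨f, hf, rfl⟩, ?_⟩
    · rintro _ ⟨f, hf, rfl⟩ l hl
      rw [B4bs_along]
      exact h1 f hf l hl
    · rw [B4bs_along]
      exact h2

theorem cls_germ {N : ℕ} (J : Ideal (MvPolynomial (Fin N) ℂ)) (c : Fin N → ℂ) (k : ℕ) :
    cls (ordLocus (germ J c) k) =
      cls {z : Fin N × Fin (k + 1) → ℂ | bp z = c ∧ OrdGe J k z ∧ ∃ f ∈ J, (along f z).coeff k ≠ 0} := by
  have e1 : ordLocus (germ J c) k =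
      {γ : Fin N × Fin (k + 1) → ℂ | bp γ = 0} ∩ ExOrd (germ J c) k := by
    ext γ
    have h : γ ∈ ordLocus (germ J c) k ↔ (∀ i, γ (i, 0) = 0) ∧ OrdGe (germ J c) k γ ∧
      ∃ f ∈ germ J c, (along f γ).coeff k ≠ 0 := Iff.rfl
    rw [h]
    constructor
    · rintro ⟨h1, h2⟩
      exact ⟨funext h1, h2⟩
    · rintro ⟨h1, h2⟩
      exact ⟨fun i => congrFun h1 i, h2⟩
  have e2 : {z : Fin N × Fin (k + 1) → ℂ | bp z = c ∧ OrdGe J k z ∧
      ∃ f ∈ J, (along f z).coeff k ≠ 0} = {z : Fin N × Fin (k + 1) → ℂ | bp z = c} ∩ ExOrd J k := rfl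
  rw [e1, e2]
  refine cls_iso ((constr_bp 0).inter (constr_exOrd _ k)) ((constr_bp c).inter (constr_exOrd _ k))
    ⟨B4bs c, B4bs (fun i => -c i), B4bs_reg c _, B4bs_reg _ _, ?_, ?_, ?_, ?_⟩
  · rintro γ ⟨h1, h2⟩
    refine ⟨funext fun i => ?_, (B4b_germ J c k γ).1 h2⟩
    have h3 : γ (i, 0) = 0 := congrFun h1 i
    have h4 := B4bs_zero c γ i
    rw [h3, zero_add] at h4
    exact h4
  · rintro z ⟨h1, h2⟩
    refine ⟨funext fun i => ?_, (B4b_germ J c k _).2 ?_⟩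
    · have h3 : z (i, 0) = c i := congrFun h1 i
      have h4 := B4bs_zero (fun i => -c i) z i
      rw [h3, add_neg_cancel] at h4
      exact h4
    · rw [B4bs_bs _ _ (fun i => neg_add_cancel (c i))]
      exact h2
  · intro γ _
    exact B4bs_bs _ _ (fun i => add_neg_cancel (c i)) γ
  · intro z _
    exact B4bs_bs _ _ (fun i => neg_add_cancel (c i)) z

theorem coeff_germ_gen {N R : ℕ} (g : Fin R → MvPolynomial (Fin N) ℂ) (C : Matrix (Fin 1) (Fin R) ℂ)
    (k : ℕ) :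
    PowerSeries.coeff k (Zmot (germ (linGen g 1) (pt 0 C))) =
      algebraMap K0 MC (∑ m ∈ Finset.range k,
        LL ^ (1 * R * k - 1 * (k - m)) * ((LL - 1) * cls (HY.KK g 0 C m k)) +
        LL ^ (1 * R * k) * cls {γ : Fin N × Fin (k + 1) → ℂ | bp γ = 0 ∧ TO g k γ ∧
          C *ᵥ vec g k γ ≠ 0}) *
        ((Lu ^ (-(((N + 1 * R : ℕ) : ℤ) * (k + 1))) : MCˣ) : MC) := by
  have e : {z : Fin (N + 1 * R) × Fin (k + 1) → ℂ | bp z = pt 0 C ∧ OrdGe (linGen g 1) k z ∧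
      ∃ f ∈ linGen g 1, (along f z).coeff k ≠ 0} =
      {z : Fin (N + 1 * R) × Fin (k + 1) → ℂ | bp z = pt 0 C ∧ TE (gen g 1) k z} := by
    ext z
    have hl : linGen g 1 = Ideal.span (Set.range (gen g 1)) := rfl
    constructor
    · rintro ⟨h1, h2, h3⟩
      rw [hl] at h2 h3
      have h4 := (ordGe_iff (gen g 1) k z).1 h2
      exact ⟨h1, h4, (ne_iff (gen g 1) k z h4).1 h3⟩
    · rintro ⟨h1, h2, h3⟩
      refine ⟨h1, ?_, ?_⟩
      · rw [hl]
        exact (ordGe_iff (gen g 1) k z).2 h2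
      · rw [hl]
        exact (ne_iff (gen g 1) k z h2).2 h3
  rw [← cls_gen_at g C k, ← e, ← cls_germ]
  unfold Zmot
  rw [PowerSeries.coeff_mk]

end CB
end MotMono
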