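import Pool.Agent.Lib.MP_4e5fcd_ag.CB.B1
import Pool.Agent.Lib.MP_4e5fcd_ag.CB.B2a
import Pool.Agent.Lib.MP_4e5fcd_ag.CB.B2b
import Pool.Agent.Lib.MP_4e5fcd_ag.CB.B2c
import Pool.Agent.Lib.MP_4e5fcd_ag.CB.B4b
import Pool.Agent.Lib.MP_4e5fcd_ag.CN.P4

/-!
# CB-B3: the zeta function of `G + u v`

Write `q = L^(-1)`, `e k = coeff k (Zmot (span {G})) = cls (ordLocus (span {G}) k) L^(-n(k+1))`,
`W = Zmot (germ (linGen (tup G) 1) (pt 0 (unitRow 0)))`, and
`y m = L^(-n) - ∑_{l ≤ m} e l`; by `cls_YY` (CB-B2c)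
`cls (YY (span {G}) k (m+1)) L^(-n(k+1)) = y m` for `m ≤ k`.
`coeff_W`: by `coeff_germ_gen` (CB-B4b, `N = n + 1`, `R = 2`) and CB-B2b
`coeff k W = L^(2k) L^(-(n+3)(k+1)) ((L-1)^2 ∑_{m=1}^{k-1} cls (YY … k (m+1)) + L cls (ordLocus … k))`
(the powers: `L^(2k - (k-m)) (L - 1) (L - 1) L^(k-m) = (L-1)^2 L^(2k)`)
`= L^(-(k+3)) ((L-1)^2 ∑_{m=1}^{k-1} y m + L e k)`.
`polar_hyp`: let `W ∈ polarRing (s₀ - 1)` (`zmot_hyp_eq`, CB-B2a, and `C_mem_polar`). Then
`V = C (L^3) * rescale L W ∈ polarRing s₀` (`polar_rescale`), with the coefficients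
`V k = (L-1)^2 ∑_{m=1}^{k-1} y m + L e k`. For `k ≥ 3`:
`V k - 2 V (k-1) + V (k-2) = (L-1)^2 (y (k-1) - y (k-2)) + L (e k - 2 e (k-1) + e (k-2))`
`= L e k - (2 L + (L-1)^2) e (k-1) + L e (k-2) = L e k - (L^2 + 1) e (k-1) + L e (k-2)`,
the coefficient `k` of `(L - (L^2+1) T + L T^2) Zmot (span {G}) = L (1 - L T)(1 - q T) Zmot (span {G})`.
So `(1 - T)^2 V - L (1 - L T)(1 - q T) Zmot (span {G})` has no coefficients of degree `≥ 3`, hence is
in `polarRing s₀` (a polynomial: it is the sum of three terms `C a * X ^ i`, `X_pow_mem_polar`), and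
so is `(1 - L T)(1 - q T) Zmot (span {G})`. Now `mem_polar_of_mul` (CN/P4) twice: `a = -1, b = 1`
(`-a/b = 1 ≠ s₀`) and `a = 1, b = 1` (`-1 ≠ s₀`).
-/

open MvPolynomial

namespace MotMono
namespace CB

open CN HY

private theorem b3_LL : algebraMap K0 MC LL = ((Lu : MCˣ) : MC) :=
  (IsUnit.unit_spec (IsLocalization.Away.algebraMap_isUnit (S := MC) LL)).symm

/-- powers of `L` -/
private theorem b3_pow (j : ℕ) : algebraMap K0 MC (LL ^ j) = ((Lu ^ (j : ℤ) : MCˣ) : MC) := by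
  rw [map_pow, b3_LL, zpow_natCast, Units.val_pow_eq_pow_val]

/-- the coefficients of the zeta function -/
private theorem b3_coeff {N : ℕ} (I : Ideal (MvPolynomial (Fin N) ℂ)) (k : ℕ) :
    PowerSeries.coeff k (Zmot I) =
      algebraMap K0 MC (cls (ordLocus I k)) * ((Lu ^ (-(N * (k + 1) : ℤ)) : MCˣ) : MC) := by
  rw [Zmot, PowerSeries.coeff_mk]

/-- the classes of the jets along which `I` vanishes to order `≥ m + 1` -/
private theorem b3_y {n : ℕ} (I : Ideal (MvPolynomial (Fin n) ℂ)) {m k : ℕ} (hmk : m ≤ k) :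
    algebraMap K0 MC (cls (YY I k (m + 1))) * ((Lu ^ (-(n * (k + 1) : ℤ)) : MCˣ) : MC) =
      ((Lu ^ (-(n : ℤ)) : MCˣ) : MC) -
        ∑ l ∈ Finset.range (m + 1), PowerSeries.coeff l (Zmot I) := by
  rw [cls_YY I hmk, map_sub, map_sum, sub_mul, Finset.sum_mul, b3_pow, ← Units.val_mul,
    ← zpow_add]
  congr 1
  · congr 2
    push_cast
    ring
  · refine Finset.sum_congr rfl fun l hl => ?_
    have hl' : l ≤ k := by
      have := Finset.mem_range.1 hl
      omega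
    rw [b3_coeff, map_mul, b3_pow]
    have e : (((n * (k - l) : ℕ) : ℤ)) + (-(n * (k + 1) : ℤ)) = -(n * (l + 1) : ℤ) := by
      push_cast [Nat.cast_sub hl']
      ring
    rw [← e, zpow_add, Units.val_mul]
    ring

/-- the coefficients of the zeta function of the germ -/
private theorem b3_W {n : ℕ} (G : MvPolynomial (Fin n) ℂ) (h0 : eval 0 G = 0) (k : ℕ) :
    PowerSeries.coeff k (Zmot (germ (linGen (tup G) 1) (pt 0 (unitRow 0)))) =
      ((Lu ^ (-((k : ℤ) + 3)) : MCˣ) : MC) *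
        ((((Lu : MCˣ) : MC) - 1) ^ 2 * ∑ m ∈ Finset.Ico 1 k, (((Lu ^ (-(n : ℤ)) : MCˣ) : MC) -
          ∑ l ∈ Finset.range (m + 1), PowerSeries.coeff l (Zmot (Ideal.span {G}))) +
        ((Lu : MCˣ) : MC) * PowerSeries.coeff k (Zmot (Ideal.span {G}))) := by
  rw [coeff_germ_gen (tup G) (unitRow 0) k, cls_TO_tup G h0 k]
  have hs : ∑ m ∈ Finset.range k, LL ^ (1 * 2 * k - 1 * (k - m)) *
        ((LL - 1) * cls (HY.KK (tup G) 0 (unitRow 0) m k)) =
      LL ^ (2 * k) * ((LL - 1) ^ 2 *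
        ∑ m ∈ Finset.Ico 1 k, cls (YY (Ideal.span {G}) k (m + 1))) := by
    rw [Finset.mul_sum, Finset.mul_sum]
    rcases Nat.eq_zero_or_pos k with rfl | hk
    · simp
    · rw [Finset.range_eq_Ico, Finset.sum_eq_sum_Ico_succ_bot hk, cls_KK_tup_zero G h0 k, mul_zero,
        mul_zero, zero_add]
      refine Finset.sum_congr rfl fun m hm => ?_
      have hm' := Finset.mem_Ico.1 hm
      have hm1 : 1 ≤ m := by omega
      have hm2 : m ≤ k := by omega
      rw [cls_KK_tup G hm1 hm2]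
      have e : LL ^ (2 * k) = LL ^ (1 * 2 * k - 1 * (k - m)) * LL ^ (k - m) := by
        rw [← pow_add]
        congr 1
        omega
      rw [e]
      ring
  have hZ : ((Lu ^ (-(((n + 1 + 1 * 2 : ℕ) : ℤ) * (k + 1))) : MCˣ) : MC) =
      ((Lu ^ (-(((2 * k : ℕ) : ℤ))) : MCˣ) : MC) * ((Lu ^ (-((k : ℤ) + 3)) : MCˣ) : MC) *
        ((Lu ^ (-(n * (k + 1) : ℤ)) : MCˣ) : MC) := by
    rw [← Units.val_mul, ← zpow_add, ← Units.val_mul, ← zpow_add]
    congr 2
    push_cast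
    ring
  have h2 : algebraMap K0 MC (LL ^ (2 * k)) * ((Lu ^ (-(((2 * k : ℕ) : ℤ))) : MCˣ) : MC) = 1 := by
    rw [b3_pow, ← Units.val_mul, ← zpow_add, add_neg_cancel, zpow_zero, Units.val_one]
  have h3 : ∑ m ∈ Finset.Ico 1 k, (((Lu ^ (-(n : ℤ)) : MCˣ) : MC) -
        ∑ l ∈ Finset.range (m + 1), PowerSeries.coeff l (Zmot (Ideal.span {G}))) =
      (∑ m ∈ Finset.Ico 1 k, algebraMap K0 MC (cls (YY (Ideal.span {G}) k (m + 1)))) *
        ((Lu ^ (-(n * (k + 1) : ℤ)) : MCˣ) : MC) := by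
    rw [Finset.sum_mul]
    refine Finset.sum_congr rfl fun m hm => ?_
    have hm' := Finset.mem_Ico.1 hm
    exact (b3_y (Ideal.span {G}) (by omega)).symm
  rw [hs, h3, b3_coeff, hZ]
  have e1 : (1 * 2 * k) = 2 * k := by ring
  rw [e1, map_add, map_mul, map_mul, map_mul, map_mul, map_pow _ (LL - 1), map_sub, map_one,
    map_sum, b3_LL]
  linear_combination (((Lu ^ (-((k : ℤ) + 3)) : MCˣ) : MC) *
    ((Lu ^ (-(n * (k + 1) : ℤ)) : MCˣ) : MC) *
    ((((Lu : MCˣ) : MC) - 1) ^ 2 *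
      ∑ m ∈ Finset.Ico 1 k, algebraMap K0 MC (cls (YY (Ideal.span {G}) k (m + 1))) +
      ((Lu : MCˣ) : MC) * algebraMap K0 MC (cls (ordLocus (Ideal.span {G}) k)))) * h2

/-- a power series whose coefficients vanish from degree `3` on is in the ring -/
private theorem b3_poly (s₀ : ℚ) (P : PowerSeries MC)
    (h : ∀ k, PowerSeries.coeff (k + 3) P = 0) : P ∈ polarRing s₀ := by
  have e : P = PowerSeries.C (PowerSeries.coeff 0 P) * PowerSeries.X ^ 0 +
      PowerSeries.C (PowerSeries.coeff 1 P) * PowerSeries.X ^ 1 +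
      PowerSeries.C (PowerSeries.coeff 2 P) * PowerSeries.X ^ 2 := by
    ext k
    rw [map_add, map_add, PowerSeries.coeff_C_mul, PowerSeries.coeff_C_mul,
      PowerSeries.coeff_C_mul, PowerSeries.coeff_X_pow, PowerSeries.coeff_X_pow,
      PowerSeries.coeff_X_pow]
    match k with
    | 0 => simp
    | 1 => simp
    | 2 => simp
    | k + 3 => simp [h k]
  rw [e]
  exact Subring.add_mem _ (Subring.add_mem _
    (Subring.mul_mem _ (C_mem_polar s₀ _) (X_pow_mem_polar s₀ 0))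
    (Subring.mul_mem _ (C_mem_polar s₀ _) (X_pow_mem_polar s₀ 1)))
    (Subring.mul_mem _ (C_mem_polar s₀ _) (X_pow_mem_polar s₀ 2))

private theorem b3_coeff_X_mul (P : PowerSeries MC) (k : ℕ) :
    PowerSeries.coeff (k + 1) (PowerSeries.X * P) = PowerSeries.coeff k P :=
  PowerSeries.coeff_succ_X_mul k P

theorem polar_hyp {n : ℕ} (G : MvPolynomial (Fin n) ℂ) (h0 : eval 0 G = 0) {s₀ : ℚ}
    (hs : ∀ z : ℤ, s₀ ≠ z) (h : Zmot (Ideal.span {hyp G}) ∈ polarRing (s₀ - 1)) :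
    Zmot (Ideal.span {G}) ∈ polarRing s₀ := by
  obtain ⟨u, hu⟩ := zmot_hyp_eq G
  set W := Zmot (germ (linGen (tup G) 1) (pt 0 (unitRow 0))) with hWdef
  set Z := Zmot (Ideal.span {G}) with hZdef
  set L : MC := ((Lu : MCˣ) : MC) with hL
  set q : MC := ((Lu⁻¹ : MCˣ) : MC) with hq
  have hLq : L * q = 1 := by rw [hL, hq, ← Units.val_mul, mul_inv_cancel, Units.val_one]
  have hW : W ∈ polarRing (s₀ - 1) := by
    have e : W = PowerSeries.C ((u⁻¹ : MCˣ) : MC) * Zmot (Ideal.span {hyp G}) := by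
      rw [hu, ← mul_assoc, ← map_mul, ← Units.val_mul, inv_mul_cancel, Units.val_one, map_one,
        one_mul]
    rw [e]
    exact Subring.mul_mem _ (C_mem_polar _ _) h
  have hV := polar_rescale hW
  set V : PowerSeries MC := PowerSeries.C (L ^ 3) * PowerSeries.rescale L W with hVdef
  have hV' : V ∈ polarRing s₀ := Subring.mul_mem _ (C_mem_polar _ _) hV
  set y : ℕ → MC := fun m => ((Lu ^ (-(n : ℤ)) : MCˣ) : MC) -
    ∑ l ∈ Finset.range (m + 1), PowerSeries.coeff l Z with hy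
  have hVk : ∀ k, PowerSeries.coeff k V =
      (L - 1) ^ 2 * ∑ m ∈ Finset.Ico 1 k, y m + L * PowerSeries.coeff k Z := by
    intro k
    rw [hVdef, PowerSeries.coeff_C_mul, PowerSeries.coeff_rescale, hWdef, b3_W G h0 k]
    have e : L ^ 3 * (L ^ k * ((Lu ^ (-((k : ℤ) + 3)) : MCˣ) : MC)) = 1 := by
      rw [hL, ← Units.val_pow_eq_pow_val, ← Units.val_pow_eq_pow_val, ← Units.val_mul,
        ← Units.val_mul, ← zpow_natCast, ← zpow_natCast, ← zpow_add, ← zpow_add]
      have : (((3 : ℕ) : ℤ) + ((k : ℤ) + -((k : ℤ) + 3))) = 0 := by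
        push_cast
        ring
      rw [this, zpow_zero, Units.val_one]
    have e2 : ∀ x : MC, L ^ 3 * (L ^ k * (((Lu ^ (-((k : ℤ) + 3)) : MCˣ) : MC) * x)) = x := by
      intro x
      calc _ = (L ^ 3 * (L ^ k * ((Lu ^ (-((k : ℤ) + 3)) : MCˣ) : MC))) * x := by ring
        _ = x := by rw [e, one_mul]
    exact e2 _
  clear_value V
  have hD : (1 - PowerSeries.X) ^ 2 * V -
      (PowerSeries.C L - PowerSeries.C (L ^ 2 + 1) * PowerSeries.X +
        PowerSeries.C L * PowerSeries.X ^ 2) * Z ∈ polarRing s₀ := by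
    refine b3_poly s₀ _ fun k => ?_
    have e1 : (1 - PowerSeries.X) ^ 2 * V -
        (PowerSeries.C L - PowerSeries.C (L ^ 2 + 1) * PowerSeries.X +
          PowerSeries.C L * PowerSeries.X ^ 2) * Z =
        V - PowerSeries.C (2 : MC) * (PowerSeries.X * V) + PowerSeries.X * (PowerSeries.X * V) -
        PowerSeries.C L * Z + PowerSeries.C (L ^ 2 + 1) * (PowerSeries.X * Z) -
        PowerSeries.C L * (PowerSeries.X * (PowerSeries.X * Z)) := by
      have : (PowerSeries.C (2 : MC) : PowerSeries MC) = 2 := by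
        rw [map_ofNat]
      rw [this]
      ring
    rw [e1, map_sub, map_add, map_sub, map_add, map_sub, PowerSeries.coeff_C_mul,
      PowerSeries.coeff_C_mul, PowerSeries.coeff_C_mul, PowerSeries.coeff_C_mul,
      b3_coeff_X_mul V (k + 2), b3_coeff_X_mul (PowerSeries.X * V) (k + 2),
      b3_coeff_X_mul V (k + 1), b3_coeff_X_mul Z (k + 2),
      b3_coeff_X_mul (PowerSeries.X * Z) (k + 2), b3_coeff_X_mul Z (k + 1), hVk, hVk, hVk,
      Finset.sum_Ico_succ_top (show 1 ≤ k + 2 by omega), Finset.sum_Ico_succ_top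
        (show 1 ≤ k + 1 by omega)]
    have e3 : y (k + 2) = y (k + 1) - PowerSeries.coeff (k + 2) Z := by
      rw [hy]
      dsimp only
      rw [Finset.sum_range_succ _ (k + 2)]
      ring
    rw [e3]
    ring
  have hD2 : (PowerSeries.C L - PowerSeries.C (L ^ 2 + 1) * PowerSeries.X +
        PowerSeries.C L * PowerSeries.X ^ 2) * Z ∈ polarRing s₀ := by
    have h1 : (1 - PowerSeries.X) ^ 2 * V ∈ polarRing s₀ := by
      refine Subring.mul_mem _ (Subring.pow_mem _ (Subring.sub_mem _ (Subring.one_mem _) ?_) 2) hV'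
      have := X_pow_mem_polar s₀ 1
      rwa [pow_one] at this
    have := Subring.sub_mem _ h1 hD
    rwa [sub_sub_cancel] at this
  have hD3 : (Z * (1 - PowerSeries.C ((Lu ^ (-(-1 : ℤ)) : MCˣ) : MC) * PowerSeries.X ^ 1)) *
      (1 - PowerSeries.C ((Lu ^ (-(1 : ℤ)) : MCˣ) : MC) * PowerSeries.X ^ 1) ∈ polarRing s₀ := by
    have e1 : ((Lu ^ (-(-1 : ℤ)) : MCˣ) : MC) = L := by rw [neg_neg, zpow_one]
    have e2 : ((Lu ^ (-(1 : ℤ)) : MCˣ) : MC) = q := by rw [zpow_neg_one]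
    rw [e1, e2]
    have e3 : (Z * (1 - PowerSeries.C L * PowerSeries.X ^ 1)) *
        (1 - PowerSeries.C q * PowerSeries.X ^ 1) =
        PowerSeries.C q * ((PowerSeries.C L - PowerSeries.C (L ^ 2 + 1) * PowerSeries.X +
        PowerSeries.C L * PowerSeries.X ^ 2) * Z) := by
      have h1 : (PowerSeries.C L : PowerSeries MC) * PowerSeries.C q = 1 := by
        rw [← map_mul, hLq, map_one]
      rw [map_add, map_pow, map_one]
      linear_combination (Z * (PowerSeries.C L * PowerSeries.X - 1)) * h1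
    rw [e3]
    exact Subring.mul_mem _ (C_mem_polar _ _) hD2
  refine mem_polar_of_mul s₀ (-1) 1 one_pos ?_ Z ?_
  · have := hs 1
    push_cast at this ⊢
    intro hh
    apply this
    rw [← hh]
    norm_num
  · refine mem_polar_of_mul s₀ 1 1 one_pos ?_ _ hD3
    have := hs (-1)
    push_cast at this ⊢
    intro hh
    apply this
    rw [← hh]
    norm_num

end CB
end MotMono
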