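import Pool.Agent.Lib.MP_4e5fcd_ag.CB.Base
import Pool.Agent.Lib.MP_4e5fcd_ag.HY.A8
import Pool.Agent.Lib.MP_4e5fcd_ag.HY.B4

/-!
# CB-B4a: the class of the jets at `(0, C)` along which `∑ j, Y_j g_j` vanishes exactly to order `k`

Proof. The proof of `cls_ordLocus_gen` (HY/A8) with the base point `pt 0 C` instead of `0`, `s = 1`.
The set is the disjoint union over `m ≤ k` of its parts with `TE g m (xj z)`; there is such an
`m ≤ k`: otherwise `TO g (k+1) (xj z)` and the coefficient `k` of `gen g 1` along `z` would be `0`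
(`vec_gen`). For `m < k`: `cls_unif` with `E = {bp = 0}`, `T = A8T 1 k`
(`= {y | y_l = 0 (l < k), y_k ≠ 0}`): on the right side the conditions at the levels `l ≤ m < k` of
`y ∈ T` say `(C *ᵥ vec g m γ) = y_m = 0`, i.e. `γ ∈ KK g 0 C m k`, and `y ∈ T`: product of
`KK g 0 C m k` and `T`, and `cls T = L ^ 1 - 1` (`A8_cls`; the lemmas of HY/A8 are private: copy them).
For `m = k`: `cls_unif` with `k - k = 0`: `y_l = 0` for `l < k`, `y_k = C *ᵥ vec g k γ ≠ 0`: the graph
over `{γ | bp γ = 0, TE g k γ, C *ᵥ vec g k γ ≠ 0}` (`cls_iso` with the projection; regularity of the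
inverse as in `cls_graph_RR`, HY/B4); `TE g k` is `TO g k` here because `C *ᵥ 0 = 0`.
-/

open MvPolynomial Matrix

namespace MotMono
namespace CB

open CN HY

variable {N R : ℕ}

/-- the target set -/
private def B4T (s k : ℕ) : Set (Fin s × Fin (k + 1) → ℂ) :=
  {y | (∀ i (l : Fin (k + 1)), (l : ℕ) < k → y (i, l) = 0) ∧ ∃ i, y (i, Fin.last k) ≠ 0}

private theorem B4_constr (s k : ℕ) : Constr (B4T s k) := by
  have e : B4T s k = (⋂ i : Fin s, ⋂ l : Fin (k + 1), {y | (l : ℕ) < k → y (i, l) = 0}) ∩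
      (⋂ i : Fin s, {y | eval y (X (i, Fin.last k) : MvPolynomial (Fin s × Fin (k + 1)) ℂ) =
        eval y 0})ᶜ := by
    ext y
    simp only [B4T, Set.mem_ofPred_eq, Set.mem_inter_iff, Set.mem_iInter, Set.mem_compl_iff, eval_X,
      map_zero, not_forall]
  rw [e]
  refine Constr.inter (constr_iInter fun i => constr_iInter fun l => ?_)
    (constr_iInter fun i => constr_eq _ _).compl
  by_cases h : (l : ℕ) < k
  · simpa [h] using Constr.zeroSet (X (i, l) : MvPolynomial (Fin s × Fin (k + 1)) ℂ)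
  · simpa [h] using constr_univ (σ := Fin s × Fin (k + 1))

private theorem B4_cls (s k : ℕ) : cls (B4T s k) = LL ^ s - 1 := by
  classical
  have h1 : cls ((Set.univ : Set (Fin s → ℂ)) \ {0}) = LL ^ s - 1 := by
    rw [cls_diff constr_univ (constr_singleton _) (Set.subset_univ _), cls_univ, cls_singleton,
      Fintype.card_fin]
  rw [← h1]
  refine cls_iso (B4_constr s k) (constr_univ.diff (constr_singleton _))
    ⟨fun y i => y (i, Fin.last k), fun v q => if q.2 = Fin.last k then v q.1 else 0,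
      fun i => regFun_coord _ _, fun q => ?_, ?_, ?_, ?_, ?_⟩
  · by_cases h : q.2 = Fin.last k
    · simp only [h, if_true]; exact regFun_coord _ _
    · simp only [h, if_false]; exact regFun_const _ _
  · rintro y ⟨-, i, hi⟩
    refine ⟨Set.mem_univ _, fun h => hi ?_⟩
    exact congrFun (Set.mem_singleton_iff.1 h) i
  · rintro v ⟨-, hv⟩
    refine ⟨fun i l hl => ?_, ?_⟩
    · have : l ≠ Fin.last k := fun h => by rw [h, Fin.val_last] at hl; exact lt_irrefl _ hl
      simp only [this, if_false]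
    · by_contra h
      push Not at h
      refine hv (Set.mem_singleton_iff.2 (funext fun i => ?_))
      have := h i
      simpa using this
  · rintro y ⟨h1, -⟩
    funext q
    by_cases h : q.2 = Fin.last k
    · simp only [h, if_true]
      rw [← h]
    · simp only [h, if_false]
      have h2 : (q.2 : ℕ) < k := by
        have h3 := q.2.2
        have h4 : (q.2 : ℕ) ≠ k := fun h5 => h (Fin.ext (by rw [h5, Fin.val_last]))
        omega
      exact (h1 q.1 q.2 h2).symm
  · rintro v -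
    funext i
    simp

private theorem B4_TE_iff {r : ℕ} (g : Fin r → MvPolynomial (Fin N) ℂ) (k : ℕ)
    (z : Fin N × Fin (k + 1) → ℂ) : TE g k z ↔ cj g z ∈ B4T r k := by
  constructor
  · rintro ⟨h1, h2⟩
    refine ⟨fun i l hl => h1 i l hl, ?_⟩
    obtain ⟨i, hi⟩ := Function.ne_iff.1 h2
    exact ⟨i, hi⟩
  · rintro ⟨h1, i, hi⟩
    refine ⟨fun j l hl => h1 j ⟨l, by omega⟩ hl, Function.ne_iff.2 ⟨i, hi⟩⟩

private theorem B4_unique {n : ℕ} {r : ℕ} (f : Fin r → MvPolynomial (Fin N) ℂ) {m m' : ℕ}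
    {γ : Fin N × Fin n → ℂ} (h : TE f m γ) (h' : TE f m' γ) : m = m' := by
  rcases lt_trichotomy m m' with hlt | he | hlt
  · exact absurd (funext fun j => h'.1 j m hlt) h.2
  · exact he
  · exact absurd (funext fun j => h.1 j m' hlt) h'.2

private theorem B4_exists {n : ℕ} {r : ℕ} (f : Fin r → MvPolynomial (Fin N) ℂ) {k : ℕ}
    {γ : Fin N × Fin n → ℂ} (h : ¬ TO f k γ) : ∃ m < k, TE f m γ := by
  classical
  unfold TO at h
  push Not at h
  obtain ⟨j, l, hl, hne⟩ := h
  have hex : ∃ l, ∃ j, (along (f j) γ).coeff l ≠ 0 := ⟨l, j, hne⟩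
  refine ⟨Nat.find hex, lt_of_le_of_lt (Nat.find_min' hex ⟨j, hne⟩) hl, ?_, ?_⟩
  · intro j' l' hl'
    by_contra hc
    exact Nat.find_min hex hl' ⟨j', hc⟩
  · obtain ⟨j', hj'⟩ := Nat.find_spec hex
    exact Function.ne_iff.2 ⟨j', hj'⟩


private theorem B4_TO_of_le {n : ℕ} {r : ℕ} (f : Fin r → MvPolynomial (Fin N) ℂ) {k m : ℕ}
    {γ : Fin N × Fin n → ℂ} (h : TO f k γ) (hm : m ≤ k) : TO f m γ :=
  fun j l hl => h j l (lt_of_lt_of_le hl hm)

private theorem B4_constrS {r : ℕ} (f : Fin r → MvPolynomial (Fin N) ℂ) (s k m : ℕ)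
    (C' : Matrix (Fin s) (Fin r) ℂ) :
    Constr {z : Fin (N + s * r) × Fin (k + 1) → ℂ |
      xj z ∈ {γ : Fin N × Fin (k + 1) → ℂ | bp γ = 0} ∧ TE f m (xj z) ∧
      (∀ i j, yj z i j 0 = C' i j) ∧ cj (gen f s) z ∈ B4T s k} := by
  have h1 : Constr {z : Fin (N + s * r) × Fin (k + 1) → ℂ |
      xj z ∈ {γ : Fin N × Fin (k + 1) → ℂ | bp γ = 0}} :=
    (constr_bp (0 : Fin N → ℂ)).comp (fun q => (Fin.castAdd (s * r) q.1, q.2))
  have h2 : Constr {z : Fin (N + s * r) × Fin (k + 1) → ℂ | TE f m (xj z)} :=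
    (constr_TE f m).comp (fun q => (Fin.castAdd (s * r) q.1, q.2))
  have h3 : Constr {z : Fin (N + s * r) × Fin (k + 1) → ℂ |
      ∀ i j, yj z i j 0 = C' i j} := by
    have e3 : {z : Fin (N + s * r) × Fin (k + 1) → ℂ |
        ∀ i j, yj z i j 0 = C' i j} =
        ⋂ i, ⋂ j, {z | eval z (X (Fin.natAdd N (finProdFinEquiv (i, j)), (0 : Fin (k + 1))) :
          MvPolynomial (Fin (N + s * r) × Fin (k + 1)) ℂ) =
            eval z (MvPolynomial.C (C' i j))} := by
      ext z
      simp only [Set.mem_ofPred_eq, Set.mem_iInter, eval_X, eval_C]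
      rfl
    rw [e3]
    exact constr_iInter fun i => constr_iInter fun j => constr_eq _ _
  choose R hR using fun q : Fin s × Fin (k + 1) =>
    exists_alongPoly (n := k + 1) (gen f s q.1) (q.2 : ℕ)
  have h4 : Constr {z : Fin (N + s * r) × Fin (k + 1) → ℂ | cj (gen f s) z ∈ B4T s k} := by
    have := (B4_constr s k).preimage R
    have e4 : {z : Fin (N + s * r) × Fin (k + 1) → ℂ | cj (gen f s) z ∈ B4T s k} =
        {x | (fun j => eval x (R j)) ∈ B4T s k} := by
      ext z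
      have : cj (gen f s) z = fun j => eval z (R j) := by
        funext q
        rw [hR]
        rfl
      simp only [Set.mem_ofPred_eq, this]
    rw [e4]
    exact this
  exact h1.inter (h2.inter (h3.inter h4))

/-- the class of the graph over the jets with `C v ≠ 0` -/
private theorem B4_graph {r s : ℕ} (f : Fin r → MvPolynomial (Fin N) ℂ)
    (C' : Matrix (Fin s) (Fin r) ℂ) (k : ℕ) :
    cls {z : (Fin N × Fin (k + 1)) ⊕ (Fin s × Fin (k + 1)) → ℂ |
        (fun q => z (Sum.inl q)) ∈ {γ : Fin N × Fin (k + 1) → ℂ | bp γ = 0} ∧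
        TE f k (fun q => z (Sum.inl q)) ∧ (fun q => z (Sum.inr q)) ∈ B4T s k ∧
        (∀ i (l : Fin (k + 1)), (l : ℕ) < k → z (Sum.inr (i, l)) = 0) ∧
        ∀ i (l : Fin (k + 1)), (l : ℕ) = k → z (Sum.inr (i, l)) =
          (C' *ᵥ vec f k fun q => z (Sum.inl q)) i} =
      cls {γ : Fin N × Fin (k + 1) → ℂ | bp γ = 0 ∧ TO f k γ ∧ C' *ᵥ vec f k γ ≠ 0} := by
  classical
  choose P hP using fun j : Fin r => exists_alongPoly (n := k + 1) (f j) k
  have hB : Constr {γ : Fin N × Fin (k + 1) → ℂ | bp γ = 0 ∧ TO f k γ ∧ C' *ᵥ vec f k γ ≠ 0} := by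
    have h1 := ((constr_bp (n := k) (0 : Fin N → ℂ)).inter (constr_TO (n := k + 1) f k)).diff
      (constr_RR f (0 : Fin N → ℂ) C' 0 k)
    refine (congrArg Constr ?_).mp h1
    ext γ
    simp only [Set.mem_sdiff, Set.mem_inter_iff, Set.mem_ofPred_eq, RR]
    constructor
    · rintro ⟨⟨h1, h2⟩, h3⟩
      exact ⟨h1, h2, fun h4 => h3 ⟨h1, h2, h4⟩⟩
    · rintro ⟨h1, h2, h3⟩
      exact ⟨⟨h1, h2⟩, fun h4 => h3 h4.2.2⟩
  have hmul : ∀ (i : Fin s) (γ : Fin N × Fin (k + 1) → ℂ),
      eval γ (∑ j, MvPolynomial.C (C' i j) * P j) = (C' *ᵥ vec f k γ) i := by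
    intro i γ
    rw [map_sum]
    refine Finset.sum_congr rfl fun j _ => ?_
    rw [map_mul, eval_C, hP]
    rfl
  have hU : {z : (Fin N × Fin (k + 1)) ⊕ (Fin s × Fin (k + 1)) → ℂ |
        (fun q => z (Sum.inl q)) ∈ {γ : Fin N × Fin (k + 1) → ℂ | bp γ = 0} ∧
        TE f k (fun q => z (Sum.inl q)) ∧ (fun q => z (Sum.inr q)) ∈ B4T s k ∧
        (∀ i (l : Fin (k + 1)), (l : ℕ) < k → z (Sum.inr (i, l)) = 0) ∧
        ∀ i (l : Fin (k + 1)), (l : ℕ) = k → z (Sum.inr (i, l)) =
          (C' *ᵥ vec f k fun q => z (Sum.inl q)) i} =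
      {z | (fun q => z (Sum.inl q)) ∈
          {γ : Fin N × Fin (k + 1) → ℂ | bp γ = 0 ∧ TO f k γ ∧ C' *ᵥ vec f k γ ≠ 0} ∧
        ∀ q : Fin s × Fin (k + 1), z (Sum.inr q) =
          if q.2 = Fin.last k then (C' *ᵥ vec f k fun q => z (Sum.inl q)) q.1 else 0} := by
    ext z
    simp only [Set.mem_ofPred_eq]
    constructor
    · rintro ⟨h1, h2, ⟨-, i, hi⟩, h4, h5⟩
      refine ⟨⟨h1, h2.1, fun h6 => hi ?_⟩, fun q => ?_⟩
      · change z (Sum.inr (i, Fin.last k)) = 0
        rw [h5 i (Fin.last k) (Fin.val_last k), h6]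
        rfl
      · by_cases hq : q.2 = Fin.last k
        · rw [if_pos hq]
          exact h5 q.1 q.2 (by rw [hq, Fin.val_last])
        · rw [if_neg hq]
          refine h4 q.1 q.2 ?_
          have h3 := q.2.2
          have h6 : (q.2 : ℕ) ≠ k := fun h5 => hq (Fin.ext (by rw [h5, Fin.val_last]))
          omega
    · rintro ⟨⟨h1, h2, h3⟩, h4⟩
      have h5 : ∀ i (l : Fin (k + 1)), (l : ℕ) < k → z (Sum.inr (i, l)) = 0 := by
        intro i l hl
        have h6 := h4 (i, l)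
        have h7 : l ≠ Fin.last k := fun h => by rw [h, Fin.val_last] at hl; exact lt_irrefl _ hl
        rw [if_neg h7] at h6
        exact h6
      have h6 : ∀ i (l : Fin (k + 1)), (l : ℕ) = k → z (Sum.inr (i, l)) =
          (C' *ᵥ vec f k fun q => z (Sum.inl q)) i := by
        intro i l hl
        have h7 := h4 (i, l)
        have h8 : l = Fin.last k := Fin.ext (by rw [hl, Fin.val_last])
        rw [if_pos h8] at h7
        exact h7
      refine ⟨h1, ⟨h2, fun h7 => h3 ?_⟩, ⟨fun i l hl => h5 i l hl, ?_⟩, h5, h6⟩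
      · rw [h7, Matrix.mulVec_zero]
      · obtain ⟨i, hi⟩ := Function.ne_iff.1 h3
        refine ⟨i, ?_⟩
        change z (Sum.inr (i, Fin.last k)) ≠ 0
        rw [h6 i (Fin.last k) (Fin.val_last k)]
        exact hi
  rw [hU]
  have hUC : Constr {z : (Fin N × Fin (k + 1)) ⊕ (Fin s × Fin (k + 1)) → ℂ |
      (fun q => z (Sum.inl q)) ∈
          {γ : Fin N × Fin (k + 1) → ℂ | bp γ = 0 ∧ TO f k γ ∧ C' *ᵥ vec f k γ ≠ 0} ∧
        ∀ q : Fin s × Fin (k + 1), z (Sum.inr q) =
          if q.2 = Fin.last k then (C' *ᵥ vec f k fun q => z (Sum.inl q)) q.1 else 0} := by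
    have h1 := hB.comp (Sum.inl : Fin N × Fin (k + 1) →
      (Fin N × Fin (k + 1)) ⊕ (Fin s × Fin (k + 1)))
    have h2 : ∀ q : Fin s × Fin (k + 1),
        Constr {z : (Fin N × Fin (k + 1)) ⊕ (Fin s × Fin (k + 1)) → ℂ |
        eval z (X (Sum.inr q) : MvPolynomial ((Fin N × Fin (k + 1)) ⊕ (Fin s × Fin (k + 1))) ℂ) =
          eval z (if q.2 = Fin.last k then
            rename Sum.inl (∑ j, MvPolynomial.C (C' q.1 j) * P j) else 0)} :=
      fun q => constr_eq _ _
    have h3 := h1.inter (constr_iInter h2)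
    convert h3 using 1
    ext z
    simp only [Set.mem_ofPred_eq, Set.mem_inter_iff, Set.mem_iInter, eval_X]
    refine and_congr_right fun _ => forall_congr' fun q => ?_
    by_cases hq : q.2 = Fin.last k
    · rw [if_pos hq, if_pos hq, eval_rename]
      have h4 := hmul q.1 (z ∘ Sum.inl)
      rw [h4]
      rfl
    · rw [if_neg hq, if_neg hq, map_zero]
  refine (cls_iso hB hUC ?_).symm
  refine ⟨fun γ => Sum.elim γ (fun q : Fin s × Fin (k + 1) =>
      if q.2 = Fin.last k then (C' *ᵥ vec f k γ) q.1 else 0), fun z q => z (Sum.inl q), ?_,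
    fun q => regFun_coord _ _, ?_, fun z hz => hz.1, fun γ _ => rfl, ?_⟩
  · rintro (q | q)
    · exact regFun_coord _ q
    · by_cases hq : q.2 = Fin.last k
      · refine (regFun_poly _ (∑ j, MvPolynomial.C (C' q.1 j) * P j)).congr ?_
        intro x _
        change eval x _ = if q.2 = Fin.last k then (C' *ᵥ vec f k x) q.1 else 0
        rw [if_pos hq]
        exact hmul q.1 x
      · refine (regFun_const _ (0 : ℂ)).congr ?_
        intro x _
        change (0 : ℂ) = if q.2 = Fin.last k then (C' *ᵥ vec f k x) q.1 else 0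
        rw [if_neg hq]
  · intro γ hγ
    exact ⟨hγ, fun q => rfl⟩
  · intro z hz
    funext i
    rcases i with q | q
    · rfl
    · exact (hz.2 q).symm

theorem cls_gen_at (g : Fin R → MvPolynomial (Fin N) ℂ) (C : Matrix (Fin 1) (Fin R) ℂ) (k : ℕ) :
    cls {z : Fin (N + 1 * R) × Fin (k + 1) → ℂ | bp z = pt 0 C ∧ TE (gen g 1) k z} =
      ∑ m ∈ Finset.range k, LL ^ (1 * R * k - 1 * (k - m)) * ((LL - 1) * cls (HY.KK g 0 C m k)) +
        LL ^ (1 * R * k) * cls {γ : Fin N × Fin (k + 1) → ℂ | bp γ = 0 ∧ TO g k γ ∧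
          C *ᵥ vec g k γ ≠ 0} := by
  classical
  have hset : {z : Fin (N + 1 * R) × Fin (k + 1) → ℂ | bp z = pt 0 C ∧ TE (gen g 1) k z} =
      ⋃ m ∈ Finset.range (k + 1),
      {z : Fin (N + 1 * R) × Fin (k + 1) → ℂ |
        xj z ∈ {γ : Fin N × Fin (k + 1) → ℂ | bp γ = 0} ∧ TE g m (xj z) ∧
        (∀ i j, yj z i j 0 = C i j) ∧
        cj (gen g 1) z ∈ B4T 1 k} := by
    ext z
    simp only [Set.mem_iUnion, Finset.mem_range, exists_prop, Set.mem_ofPred_eq]
    rw [bp_eq_pt]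
    constructor
    · rintro ⟨⟨h1, h2⟩, h3⟩
      have h4 : ¬ TO g (k + 1) (xj z) := by
        intro h5
        apply h3.2
        rw [vec_gen g z (B4_TO_of_le g h5 (Nat.le_succ k))]
        have h6 : vec g k (xj z) = 0 := by
          funext j
          exact h5 j k (Nat.lt_succ_self k)
        rw [h6, Matrix.mulVec_zero]
      obtain ⟨m, hm, hTE⟩ := B4_exists g h4
      exact ⟨m, hm, h1, hTE, h2, (B4_TE_iff _ _ _).1 h3⟩
    · rintro ⟨m, -, h1, -, h2, h3⟩
      exact ⟨⟨h1, h2⟩, (B4_TE_iff _ _ _).2 h3⟩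
  rw [hset, cls_biUnion]
  · rw [Finset.sum_range_succ]
    congr 1
    · refine Finset.sum_congr rfl fun m hm => ?_
      have hlt := Finset.mem_range.1 hm
      have hmk : m ≤ k := hlt.le
      have h1 := cls_unif (s := 1) g hmk C
        (constr_bp (n := k) (0 : Fin N → ℂ)) (B4_constr 1 k)
      rw [h1]
      congr 1
      have h2 : {z : (Fin N × Fin (k + 1)) ⊕ (Fin 1 × Fin (k + 1)) → ℂ |
          (fun q => z (Sum.inl q)) ∈ {γ : Fin N × Fin (k + 1) → ℂ | bp γ = 0} ∧
          TE g m (fun q => z (Sum.inl q)) ∧ (fun q => z (Sum.inr q)) ∈ B4T 1 k ∧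
          (∀ i (l : Fin (k + 1)), (l : ℕ) < m → z (Sum.inr (i, l)) = 0) ∧
          ∀ i (l : Fin (k + 1)), (l : ℕ) = m → z (Sum.inr (i, l)) =
            (C *ᵥ vec g m fun q => z (Sum.inl q)) i} =
          prodSet (HY.KK g 0 C m k) (B4T 1 k) := by
        ext z
        simp only [prodSet, Set.mem_ofPred_eq, HY.KK]
        constructor
        · rintro ⟨h1, h2, h3, -, h5⟩
          refine ⟨⟨h1, h2, ?_⟩, h3⟩
          funext i
          have h6 := h5 i ⟨m, by omega⟩ rfl
          have h7 : z (Sum.inr (i, ⟨m, by omega⟩)) = 0 := h3.1 i ⟨m, by omega⟩ hlt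
          rw [h7] at h6
          exact h6.symm
        · rintro ⟨⟨h1, h2, h2'⟩, h3⟩
          refine ⟨h1, h2, h3, fun i l hl => h3.1 i l (by omega), fun i l hl => ?_⟩
          rw [h2']
          exact h3.1 i l (by omega)
      rw [h2, cls_prodSet (constr_KK g 0 C m k) (B4_constr 1 k), B4_cls, pow_one]
      ring
    · have h1 := cls_unif (s := 1) g (le_refl k) C
        (constr_bp (n := k) (0 : Fin N → ℂ)) (B4_constr 1 k)
      rw [h1, B4_graph g C k]
      congr 2
      omega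
  · exact fun m _ => B4_constrS g 1 k m C
  · intro m _ m' _ hne
    rw [Set.disjoint_left]
    rintro z ⟨-, h1, -⟩ ⟨-, h2, -⟩
    exact hne (B4_unique g h1 h2)

end CB
end MotMono
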