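import Pool.Agent.Lib.MP_4e5fcd_ag.CB.V0
import Pool.Agent.Lib.MP_4e5fcd_ag.CB.B4b
import Pool.Agent.Lib.MP_4e5fcd_ag.CN.P4

/-!
# CB-B5: alternating sums of zeta functions of germs

Proof. Let `Z i = Zmot (germ (linGen g 1) (pt 0 (C i)))`. Claim:
`∑ i, a i • Z i = C (L^(-R)) * Zmot (span (range g))`. Coefficient `k`: by `coeff_germ_gen`
it is `algebraMap (∑ i, a i (…)) * L^(-(N+R)(k+1))`. By `cls_valuation` (CB-V0), with `hsum`:
* for `m < k`: `∑ i, a i cls (HY.KK g 0 (C i) m k) = cls ∅ = 0`: for a jet `γ` with `bp γ = 0`,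
  `TE g m γ` the sum over the `i` with `C i *ᵥ vec g m γ = 0` of the `a i` is `0`; other jets are in
  none of the sets;
* `∑ i, a i cls {γ | bp γ = 0, TO g k γ, C i *ᵥ vec g k γ ≠ 0} = cls {γ | bp γ = 0 ∧ TE g k γ}`: for
  `vec g k γ = 0` both sides are `0`, otherwise `TE g k γ` and the sum of the `a i` over the `i` with
  `C i *ᵥ … ≠ 0` is `(∑ a i) - 0 = 1`.
The last class is `cls (ordLocus (span (range g)) k)` (`mem_ordLocus_iff`, HY/A2). So the coefficient
is `algebraMap (LL ^ (1 * R * k) * cls (ordLocus …)) * L^(-(N+R)(k+1)) = L^(-R) * (coefficient of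
Zmot (span (range g)))`, as `R k - (N + R)(k + 1) = -R - N (k + 1)`
(`algebraMap K0 MC LL = Lu`, zpow arithmetic as in HY/A9).
Then `Zmot (span (range g)) = C (L^R) * ∑ a i • Z i ∈ polarRing s₀` (`C_mem_polar`, integer multiples:
`Subring.zsmul_mem` / `intCast_mem`).
-/

open MvPolynomial Matrix

namespace MotMono
namespace CB

open CN HY

private theorem b5_LL : algebraMap K0 MC LL = ((Lu : MCˣ) : MC) := by
  rw [Lu, IsUnit.unit_spec]

/-- the sets of the second kind -/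
private def b5T {N R : ℕ} (g : Fin R → MvPolynomial (Fin N) ℂ) (C : Matrix (Fin 1) (Fin R) ℂ)
    (k : ℕ) : Set (Fin N × Fin (k + 1) → ℂ) :=
  {γ | bp γ = 0 ∧ TO g k γ ∧ C *ᵥ vec g k γ ≠ 0}

private theorem b5_constr {N R : ℕ} (g : Fin R → MvPolynomial (Fin N) ℂ)
    (C : Matrix (Fin 1) (Fin R) ℂ) (k : ℕ) : Constr (b5T g C k) := by
  have h := ((constr_bp (0 : Fin N → ℂ) (n := k)).inter (constr_TO (n := k + 1) g k)).diff
    (constr_RR g 0 C 0 k)
  have e : ({γ : Fin N × Fin (k + 1) → ℂ | bp γ = 0} ∩ {γ : Fin N × Fin (k + 1) → ℂ | TO g k γ}) \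
      RR g 0 C 0 k = b5T g C k := by
    ext γ
    simp only [b5T, RR, Set.mem_sdiff, Set.mem_inter_iff, Set.mem_ofPred_eq]
    tauto
  rwa [e] at h

open Classical in
private theorem b5_one {N R : ℕ} (g : Fin R → MvPolynomial (Fin N) ℂ) {ι : Type} [Fintype ι]
    (C : ι → Matrix (Fin 1) (Fin R) ℂ) (a : ι → ℤ)
    (hsum : ∀ (k m : ℕ) (γ : Fin N × Fin (k + 1) → ℂ), bp γ = 0 → TE g m γ →
      ∑ i, (if C i *ᵥ vec g m γ = 0 then a i else 0) = 0) (k m : ℕ) :
    ∑ i, (a i : K0) * cls (HY.KK g 0 (C i) m k) = 0 := by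
  have h := cls_valuation (fun i => HY.KK g 0 (C i) m k) (fun i => constr_KK g 0 (C i) m k) a ∅
    constr_empty (by
      intro x
      rw [if_neg (Set.notMem_empty x)]
      by_cases hx : bp x = 0 ∧ TE g m x
      · refine Eq.trans (Finset.sum_congr rfl fun i _ => ?_) (hsum k m x hx.1 hx.2)
        have e : (x ∈ HY.KK g 0 (C i) m k) ↔ C i *ᵥ vec g m x = 0 :=
          ⟨fun h => h.2.2, fun h => ⟨hx.1, hx.2, h⟩⟩
        by_cases h2 : C i *ᵥ vec g m x = 0
        · rw [if_pos h2, if_pos (e.2 h2)]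
        · rw [if_neg h2, if_neg fun h3 => h2 (e.1 h3)]
      · refine Finset.sum_eq_zero fun i _ => ?_
        rw [if_neg]
        rintro ⟨h1, h2, h3⟩
        exact hx ⟨h1, h2⟩)
  rw [h, cls_empty]

open Classical in
private theorem b5_two {N R : ℕ} (g : Fin R → MvPolynomial (Fin N) ℂ) {ι : Type} [Fintype ι]
    (C : ι → Matrix (Fin 1) (Fin R) ℂ) (a : ι → ℤ) (h1 : ∑ i, a i = 1)
    (hsum : ∀ (k m : ℕ) (γ : Fin N × Fin (k + 1) → ℂ), bp γ = 0 → TE g m γ →
      ∑ i, (if C i *ᵥ vec g m γ = 0 then a i else 0) = 0) (k : ℕ) :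
    ∑ i, (a i : K0) * cls (b5T g (C i) k) = cls (ordLocus (Ideal.span (Set.range g)) k) := by
  refine cls_valuation (fun i => b5T g (C i) k) (fun i => b5_constr g (C i) k) a _
    (constr_ordLocus _ k) ?_
  intro x
  by_cases hx : bp x = 0 ∧ TE g k x
  · rw [if_pos ((mem_ordLocus_iff g k x).2 hx)]
    have h2 := hsum k k x hx.1 hx.2
    have h3 : ∀ i, (if x ∈ b5T g (C i) k then a i else 0) =
        a i - (if C i *ᵥ vec g k x = 0 then a i else 0) := by
      intro i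
      by_cases h4 : C i *ᵥ vec g k x = 0
      · rw [if_pos h4, if_neg, sub_self]
        rintro ⟨_, _, h5⟩
        exact h5 h4
      · rw [if_neg h4, if_pos, sub_zero]
        exact ⟨hx.1, hx.2.1, h4⟩
    rw [Finset.sum_congr rfl fun i _ => h3 i, Finset.sum_sub_distrib, h1, h2, sub_zero]
  · rw [if_neg fun h2 => hx ((mem_ordLocus_iff g k x).1 h2)]
    refine Finset.sum_eq_zero fun i _ => ?_
    rw [if_neg]
    rintro ⟨h2, h3, h4⟩
    refine hx ⟨h2, h3, fun h5 => h4 ?_⟩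
    rw [h5, Matrix.mulVec_zero]

theorem polar_alt {N R : ℕ} (g : Fin R → MvPolynomial (Fin N) ℂ) {ι : Type} [Fintype ι]
    (C : ι → Matrix (Fin 1) (Fin R) ℂ) (a : ι → ℤ) (h1 : ∑ i, a i = 1)
    (hsum : ∀ (k m : ℕ) (γ : Fin N × Fin (k + 1) → ℂ), bp γ = 0 → TE g m γ →
      ∑ i, (if C i *ᵥ vec g m γ = 0 then a i else 0) = 0)
    {s₀ : ℚ} (h : ∀ i, Zmot (germ (linGen g 1) (pt 0 (C i))) ∈ polarRing s₀) :
    Zmot (Ideal.span (Set.range g)) ∈ polarRing s₀ := by
  classical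
  obtain ⟨Z, hZ⟩ : ∃ Z : ι → PowerSeries MC, Z = fun i => Zmot (germ (linGen g 1) (pt 0 (C i))) :=
    ⟨_, rfl⟩
  have hsum' : ∀ (k m : ℕ) (γ : Fin N × Fin (k + 1) → ℂ), bp γ = 0 → TE g m γ →
      ∑ i, (if C i *ᵥ vec g m γ = 0 then a i else 0) = 0 := by
    intro k m γ h2 h3
    refine Eq.trans (Finset.sum_congr rfl fun i _ => ?_) (hsum k m γ h2 h3)
    by_cases h4 : C i *ᵥ vec g m γ = 0
    · rw [if_pos h4]
    · rw [if_neg h4]
  have hcoef : ∀ k, ∑ i, (a i : MC) * PowerSeries.coeff k (Z i) =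
      algebraMap K0 MC (LL ^ (1 * R * k) * cls (ordLocus (Ideal.span (Set.range g)) k)) *
        ((Lu ^ (-(((N + 1 * R : ℕ) : ℤ) * (k + 1))) : MCˣ) : MC) := by
    intro k
    have e1 : ∀ i, (a i : MC) * PowerSeries.coeff k (Z i) =
        algebraMap K0 MC ((a i : K0) * (∑ m ∈ Finset.range k,
          LL ^ (1 * R * k - 1 * (k - m)) * ((LL - 1) * cls (HY.KK g 0 (C i) m k)) +
          LL ^ (1 * R * k) * cls (b5T g (C i) k))) *
        ((Lu ^ (-(((N + 1 * R : ℕ) : ℤ) * (k + 1))) : MCˣ) : MC) := by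
      intro i
      rw [hZ]
      show (a i : MC) * PowerSeries.coeff k (Zmot (germ (linGen g 1) (pt 0 (C i)))) = _
      rw [coeff_germ_gen, map_mul (algebraMap K0 MC) (a i : K0), map_intCast (algebraMap K0 MC) (a i)]
      exact (mul_assoc _ _ _).symm
    rw [Finset.sum_congr rfl fun i _ => e1 i, ← Finset.sum_mul, ← map_sum]
    congr 2
    have e2 : ∀ i, (a i : K0) * (∑ m ∈ Finset.range k,
          LL ^ (1 * R * k - 1 * (k - m)) * ((LL - 1) * cls (HY.KK g 0 (C i) m k)) +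
          LL ^ (1 * R * k) * cls (b5T g (C i) k)) =
        ∑ m ∈ Finset.range k, LL ^ (1 * R * k - 1 * (k - m)) * ((LL - 1) *
          ((a i : K0) * cls (HY.KK g 0 (C i) m k))) +
        LL ^ (1 * R * k) * ((a i : K0) * cls (b5T g (C i) k)) := by
      intro i
      rw [mul_add, Finset.mul_sum]
      congr 1
      · refine Finset.sum_congr rfl fun m _ => ?_
        ring
      · ring
    rw [Finset.sum_congr rfl fun i _ => e2 i, Finset.sum_add_distrib, Finset.sum_comm]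
    have e3 : ∀ m ∈ Finset.range k, ∑ i, LL ^ (1 * R * k - 1 * (k - m)) * ((LL - 1) *
          ((a i : K0) * cls (HY.KK g 0 (C i) m k))) = 0 := by
      intro m _
      rw [← Finset.mul_sum, ← Finset.mul_sum, b5_one g C a hsum' k m, mul_zero, mul_zero]
    rw [Finset.sum_eq_zero e3, zero_add, ← Finset.mul_sum, b5_two g C a h1 hsum' k]
  have key : Zmot (Ideal.span (Set.range g)) =
      PowerSeries.C ((Lu ^ (R : ℤ) : MCˣ) : MC) * ∑ i, a i • Z i := by
    refine PowerSeries.ext fun k => ?_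
    rw [PowerSeries.coeff_C_mul, map_sum]
    have e4 : ∀ i, PowerSeries.coeff k (a i • Z i) = (a i : MC) * PowerSeries.coeff k (Z i) := by
      intro i
      rw [map_zsmul, zsmul_eq_mul]
    rw [Finset.sum_congr rfl fun i _ => e4 i, hcoef k]
    have e5 : PowerSeries.coeff k (Zmot (Ideal.span (Set.range g))) =
        algebraMap K0 MC (cls (ordLocus (Ideal.span (Set.range g)) k)) *
          ((Lu ^ (-(N * (k + 1) : ℤ)) : MCˣ) : MC) := by
      rw [Zmot, PowerSeries.coeff_mk]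
    rw [e5, map_mul, map_pow, b5_LL]
    have e6 : (Lu ^ (R : ℤ) : MCˣ) * (Lu ^ (1 * R * k) * Lu ^ (-(((N + 1 * R : ℕ) : ℤ) * (k + 1)))) =
        Lu ^ (-(N * (k + 1) : ℤ)) := by
      rw [← zpow_natCast, ← _root_.zpow_add, ← _root_.zpow_add]
      congr 1
      push_cast
      ring
    have e7 := congrArg (fun u : MCˣ => (u : MC)) e6
    simp only [Units.val_mul, Units.val_pow_eq_pow_val] at e7
    rw [← e7]
    ring
  rw [key]
  refine Subring.mul_mem _ (C_mem_polar s₀ _) (Subring.sum_mem _ fun i _ => ?_)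
  refine Subring.zsmul_mem _ ?_ _
  rw [hZ]
  exact h i

end CB
end MotMono
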