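import Pool.Agent.Lib.MP_4e5fcd_ag.CB.Base
import Pool.Agent.Lib.MP_4e5fcd_ag.CN.E4
import Pool.Agent.Lib.MP_4e5fcd_ag.CN.P4

/-!
# CB-B6: the zeta function at the origin in a chart

`zmot_locPull_eq`: the proof of `zmot_pull` (HY/D1) shows it: `Zf_chart` and two times `Zf_zero`;
the class of `push … {0}` is `1`: this set is a single point. `Lu ^ (k - N)` is a unit.
`zmot_push`, `zmot_pull'`: multiply by the (inverse) constant, `C_mem_polar`. `locPull_rename`: with `u = X`, `e = castAdd k`, `h = 1`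
(compare HY/R7; Jacobian `1`).
-/

open MvPolynomial

namespace MotMono
namespace CB

open CN HY

variable {N k : ℕ}

private theorem B6_push {v : Fin k → MvPolynomial (Fin N) ℂ} (h0 : ∀ i, eval 0 (v i) = 0) :
    push v ({0} : Set (Empty ⊕ Fin N → ℂ)) = {0} := by
  ext z
  rw [Set.mem_singleton_iff]
  constructor
  · rintro ⟨hz1, hz2⟩
    rw [Set.mem_singleton_iff] at hz1
    funext s
    rcases s with s | i
    · exact congrFun hz1 s
    · rw [hz2 i]
      have e1 : (fun j => z (Sum.inl (Sum.inr j))) = (0 : Fin N → ℂ) := by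
        funext j
        exact congrFun hz1 (Sum.inr j)
      rw [e1]
      exact h0 i
  · rintro rfl
    refine ⟨rfl, fun i => ?_⟩
    exact (h0 i).symm

theorem zmot_locPull_eq (I : Ideal (MvPolynomial (Fin N) ℂ)) (G : Ideal (MvPolynomial (Fin k) ℂ))
    (h : LocPull I 0 G) : ∃ u : MCˣ, Zmot I = PowerSeries.C (u : MC) * Zmot G := by
  obtain ⟨u, e, h, hinj, hh, hj, h0, hpush, hpull⟩ := h
  have c : Chart I G u e h := ⟨hinj, hpush, hpull⟩
  have hΓ : Constr ({0} : Set (Empty ⊕ Fin N → ℂ)) := constr_singleton 0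
  have h1 := Zf_chart c hΓ (by
    intro z hz
    rw [Set.mem_singleton_iff] at hz
    subst hz
    exact hh) (by
    intro z hz
    rw [Set.mem_singleton_iff] at hz
    subst hz
    exact hj)
  rw [Zf_zero I hΓ (by
    intro z hz i
    rw [Set.mem_singleton_iff] at hz
    subst hz
    rfl), cls_singleton, map_one, map_one, one_mul, B6_push h0, Zf_zero G (constr_singleton 0) (by
    intro z hz i
    rw [Set.mem_singleton_iff] at hz
    subst hz
    rfl), cls_singleton, map_one, map_one, one_mul] at h1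
  exact ⟨_, h1⟩

theorem zmot_push {s₀ : ℚ} (I : Ideal (MvPolynomial (Fin N) ℂ))
    (G : Ideal (MvPolynomial (Fin k) ℂ)) (h : LocPull I 0 G) (hI : Zmot I ∈ polarRing s₀) :
    Zmot G ∈ polarRing s₀ := by
  obtain ⟨u, hu⟩ := zmot_locPull_eq I G h
  have e : Zmot G = PowerSeries.C ((u⁻¹ : MCˣ) : MC) * Zmot I := by
    rw [hu, ← mul_assoc, ← map_mul, Units.inv_mul, map_one, one_mul]
  rw [e]
  exact Subring.mul_mem _ (C_mem_polar s₀ _) hI

theorem zmot_pull' {s₀ : ℚ} (I : Ideal (MvPolynomial (Fin N) ℂ))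
    (G : Ideal (MvPolynomial (Fin k) ℂ)) (h : LocPull I 0 G) (hG : Zmot G ∈ polarRing s₀) :
    Zmot I ∈ polarRing s₀ := by
  obtain ⟨u, hu⟩ := zmot_locPull_eq I G h
  rw [hu]
  exact Subring.mul_mem _ (C_mem_polar s₀ _) hG

private theorem B6_rename {N L : ℕ} (e : Fin N → Fin L) (f : MvPolynomial (Fin N) ℂ) :
    aeval (fun i => (X (e i) : MvPolynomial (Fin L) ℂ)) f = rename e f := by
  have h : aeval (fun i => (X (e i) : MvPolynomial (Fin L) ℂ)) = rename e := by
    apply MvPolynomial.algHom_ext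
    intro i
    simp
  rw [h]

private theorem B6_jac {N : ℕ} : jacDet (fun i => (X i : MvPolynomial (Fin N) ℂ)) = 1 := by
  unfold jacDet
  have : (Matrix.of fun i j => pderiv j (X i : MvPolynomial (Fin N) ℂ)) = 1 := by
    ext1 i j
    rw [Matrix.of_apply, pderiv_X, Matrix.one_apply, Pi.single_apply]
  rw [this, Matrix.det_one]

theorem locPull_rename {n k : ℕ} (F : MvPolynomial (Fin n) ℂ) :
    LocPull (Ideal.span {rename (Fin.castAdd k) F}) 0 (Ideal.span {F}) := by
  refine ⟨fun i => X i, Fin.castAdd k, 1, Fin.castAdd_injective n k, ?_, ?_, fun i => ?_,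
    fun g hg => ?_, fun f hf => ?_⟩
  · rw [map_one]
    exact one_ne_zero
  · rw [B6_jac, map_one]
    exact one_ne_zero
  · rw [eval_X]
    rfl
  · rw [B6_rename, one_mul]
    rw [Ideal.mem_span_singleton] at hg ⊢
    obtain ⟨a, rfl⟩ := hg
    rw [map_mul]
    exact Dvd.intro _ rfl
  · rw [one_mul]
    rw [Ideal.mem_span_singleton] at hf
    obtain ⟨a, rfl⟩ := hf
    refine Ideal.mul_mem_right _ _ (Ideal.subset_span ⟨F, Ideal.mem_span_singleton_self F, ?_⟩)
    rw [B6_rename]

end CB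
end MotMono
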