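import Pool.Agent.Lib.MP_4e5fcd_ag.CB.B1

/-!
# CB-B7: the inverse rescaling

As `polar_rescale` (CB-B1, its private lemmas may be copied): the factor `1 - L^(-a) T^b` goes to
`1 - L^(-(a + b)) T^b`, and `-(a + b)/b = -a/b - 1 ≠ s₀ - 1`.
-/

open MvPolynomial

namespace MotMono
namespace CB

open CN HY TV

private theorem b7_den_rescale {s₀ : ℚ} {D : PowerSeries MC} (h : D ∈ Den s₀) :
    PowerSeries.rescale ((Lu⁻¹ : MCˣ) : MC) D ∈ Den (s₀ - 1) := by
  induction h using Submonoid.closure_induction with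
  | mem D h =>
    obtain ⟨a, b, hb, hab, rfl⟩ := h
    have h1 : PowerSeries.rescale ((Lu⁻¹ : MCˣ) : MC)
        (1 - PowerSeries.C ((Lu ^ (-a) : MCˣ) : MC) * (PowerSeries.X : PowerSeries MC) ^ b) =
        1 - PowerSeries.C ((Lu ^ (-(a + b)) : MCˣ) : MC) * (PowerSeries.X : PowerSeries MC) ^ b := by
      rw [map_sub, map_one]
      congr 1
      ext k
      rw [PowerSeries.coeff_rescale, PowerSeries.coeff_C_mul, PowerSeries.coeff_C_mul,
        PowerSeries.coeff_X_pow]
      split_ifs with hk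
      · rw [hk, mul_one, mul_one, ← Units.val_pow_eq_pow_val, ← Units.val_mul]
        congr 1
        rw [inv_pow, ← zpow_natCast, ← zpow_neg, ← zpow_add]
        congr 1
        ring
      · rw [mul_zero, mul_zero, mul_zero]
    rw [h1]
    refine den_gen (a + b) b hb fun h2 => hab ?_
    have hb' : (b : ℚ) ≠ 0 := by
      exact_mod_cast hb.ne'
    have h3 : s₀ = s₀ - 1 + 1 := by ring
    rw [h3, ← h2]
    push_cast
    field_simp
    ring
  | one => rw [map_one]; exact den_one _
  | mul x y _ _ hx hy => rw [map_mul]; exact den_mul hx hy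

theorem polar_rescale_inv {s₀ : ℚ} {Z : PowerSeries MC} (h : Z ∈ polarRing s₀) :
    PowerSeries.rescale ((Lu⁻¹ : MCˣ) : MC) Z ∈ polarRing (s₀ - 1) := by
  obtain ⟨D, hD, K, hK⟩ := exists_ubd h
  exact mem_of_ubd (b7_den_rescale hD) (ubd_rescale hK _)

end CB
end MotMono
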