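import Pool.Agent.Lib.MP_4e5fcd_ag.CB.Defs
import Pool.Agent.Lib.MP_4e5fcd_ag.HY.Base

/-!
# CB-Base: notation for the proof

`ksum`, `VisK`, `NearK`: as `CN.Vis`, `CN.Near`, with sums of Lefschetz numbers instead of zeta
functions. `VT`: the same for a tuple of polynomials and a vector.
`hyp G = G + u v`, `stp G A B = G + (u + A) (v + B)`, `u`, `v` two new variables.
-/

open MvPolynomial

namespace MotMono
namespace CB

open CN HY

/-- the sum of the Lefschetz numbers at the point of the cone given by the leading coefficients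
along `γ₀` -/
noncomputable def ksum (χ : K0 →+* ℤ) {N : ℕ} (I : Ideal (MvPolynomial (Fin N) ℂ)) {n : ℕ}
    (γ₀ : Fin N × Fin (n + 1) → ℂ) (lam : ℂ) (K : ℕ) : ℂ :=
  ∑ d ∈ Finset.Icc 1 K, lam ^ d *
    ((χ (cls (CA I (bp γ₀) (fun f => (along f γ₀).coeff n) d)) : ℤ) : ℂ)

/-- `lam` is visible at `p`, up to level `K` -/
def VisK (χ : K0 →+* ℤ) {N : ℕ} (I : Ideal (MvPolynomial (Fin N) ℂ)) (p : Fin N → ℂ) (lam : ℂ)
    (K : ℕ) : Prop :=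
  ∃ (n : ℕ) (γ₀ : Fin N × Fin (n + 1) → ℂ), 1 ≤ n ∧ bp γ₀ = p ∧ OrdGe I n γ₀ ∧
    (∃ f ∈ I, (along f γ₀).coeff n ≠ 0) ∧ ksum χ I γ₀ lam K ≠ 0

/-- `lam` is visible arbitrarily near `q` -/
def NearK (χ : K0 →+* ℤ) {N : ℕ} (I : Ideal (MvPolynomial (Fin N) ℂ)) (q : Fin N → ℂ) (lam : ℂ) :
    Prop :=
  ∀ ε : ℝ, 0 < ε → ∃ K₀ : ℕ, 0 < K₀ ∧ ∀ K : ℕ, 0 < K → K₀ ∣ K →
    ∃ p : Fin N → ℂ, ‖p - q‖ < ε ∧ VisK χ I p lam K

/-- the same as `VisK` for a tuple of generators -/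
def VT (χ : K0 →+* ℤ) {N r : ℕ} (f : Fin r → MvPolynomial (Fin N) ℂ) (p : Fin N → ℂ) (lam : ℂ)
    (K : ℕ) : Prop :=
  ∃ v : Fin r → ℂ, v ≠ 0 ∧
    ∑ d ∈ Finset.Icc 1 K, lam ^ d * ((χ (cls (CT f p v d)) : ℤ) : ℂ) ≠ 0

/-- `G + u v` -/
noncomputable def hyp {n : ℕ} (G : MvPolynomial (Fin n) ℂ) : MvPolynomial (Fin (n + 2)) ℂ :=
  rename (Fin.castAdd 2) G + X (Fin.natAdd n 0) * X (Fin.natAdd n 1)

/-- `G + (u + A) (v + B)` -/
noncomputable def stp {n : ℕ} (G A B : MvPolynomial (Fin n) ℂ) : MvPolynomial (Fin (n + 2)) ℂ :=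
  rename (Fin.castAdd 2) G + (X (Fin.natAdd n 0) + rename (Fin.castAdd 2) A) *
    (X (Fin.natAdd n 1) + rename (Fin.castAdd 2) B)

/-- the property of the ideal `I` which is proved by induction -/
def MP (χ : K0 →+* ℤ) {N : ℕ} (I : Ideal (MvPolynomial (Fin N) ℂ)) : Prop :=
  ∀ s₀ : ℚ, (∀ z : ℤ, s₀ ≠ z) → Zmot I ∉ polarRing s₀ → NearK χ I 0 (expo s₀)

/-- the tuple `(G, u)`, `u` a new variable -/
noncomputable def tup {n : ℕ} (G : MvPolynomial (Fin n) ℂ) : Fin 2 → MvPolynomial (Fin (n + 1)) ℂ :=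
  ![rename Fin.castSucc G, X (Fin.last n)]

/-- the matrix `(0 … 1 … 0)` with `1` row -/
def unitRow {R : ℕ} (j : Fin R) : Matrix (Fin 1) (Fin R) ℂ := Matrix.of fun _ j' => if j' = j then 1 else 0

/-- the `n`-jets at the origin along which `I` vanishes to order `m` -/
def YY {N : ℕ} (I : Ideal (MvPolynomial (Fin N) ℂ)) (n m : ℕ) : Set (Fin N × Fin (n + 1) → ℂ) :=
  {γ | bp γ = 0 ∧ OrdGe I m γ}

/-- the products of `r` of the `f j`, with repetitions -/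
noncomputable def pw {N r : ℕ} (f : Fin r → MvPolynomial (Fin N) ℂ) :
    Fin (r ^ r) → MvPolynomial (Fin N) ℂ :=
  fun a => ∏ i : Fin r, f (finFunctionFinEquiv.symm a i)

/-- `u ↦ (∏ u (α i))_α` -/
def pv {r : ℕ} (u : Fin r → ℂ) : Fin (r ^ r) → ℂ :=
  fun a => ∏ i : Fin r, u (finFunctionFinEquiv.symm a i)

end CB
end MotMono
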