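import Pool.Agent.Lib.MP_4e5fcd_ag.CB.Base

/-!
# CB-C1: `G + u v` is a pull-back of `G + (u + A) (v + B)`

Proof. Let `φ (castAdd 2 i) = X (castAdd 2 i)`, `φ (natAdd n 0) = X (natAdd n 0) - rename A`,
`φ (natAdd n 1) = X (natAdd n 1) - rename B` (`Fin.addCases`; `Fin (n+2)`). `aeval φ` fixes the
polynomials `rename (castAdd 2) Q`, so `aeval φ (stp G A B) = hyp G`. `LocPull` with `u = φ`, `e = id`,
`h = 1`: `push`, `pull` by membership in principal ideals (`Ideal.mem_span_singleton`); `φ` vanishes at
`0` as `A`, `B` do. `eval 0 (jacDet φ) = 1`: map the determinant through `eval 0`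
(`RingHom.map_det`); the matrix is lower triangular with `1` on the diagonal
(`Matrix.det_of_lowerTriangular`): row `castAdd 2 i` is the unit vector; in the rows `natAdd n 0`,
`natAdd n 1` the entries in the last two columns are `1, 0` and `0, 1` (`pderiv` of a renamed
polynomial in a new variable is `0`, e.g. `MvPolynomial.pderiv_rename`-like lemma or by
`MvPolynomial.induction_on`).
-/

open MvPolynomial

namespace MotMono
namespace CB

open CN HY

/-- the coordinate change -/
private noncomputable def c1phi {n : ℕ} (A B : MvPolynomial (Fin n) ℂ) :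
    Fin (n + 2) → MvPolynomial (Fin (n + 2)) ℂ :=
  Fin.addCases (fun i => X (Fin.castAdd 2 i))
    (fun j => X (Fin.natAdd n j) - rename (Fin.castAdd 2) ((![A, B] : Fin 2 → _) j))

private theorem c1phi_left {n : ℕ} (A B : MvPolynomial (Fin n) ℂ) (i : Fin n) :
    c1phi A B (Fin.castAdd 2 i) = X (Fin.castAdd 2 i) := by
  unfold c1phi
  rw [Fin.addCases_left]

private theorem c1phi_right {n : ℕ} (A B : MvPolynomial (Fin n) ℂ) (j : Fin 2) :
    c1phi A B (Fin.natAdd n j) =
      X (Fin.natAdd n j) - rename (Fin.castAdd 2) ((![A, B] : Fin 2 → _) j) := by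
  unfold c1phi
  rw [Fin.addCases_right]

private theorem c1_rename {n : ℕ} (A B Q : MvPolynomial (Fin n) ℂ) :
    aeval (c1phi A B) (rename (Fin.castAdd 2) Q) = rename (Fin.castAdd 2) Q := by
  rw [aeval_rename]
  have : c1phi A B ∘ Fin.castAdd 2 = X ∘ (Fin.castAdd 2 : Fin n → Fin (n + 2)) := by
    funext i
    exact c1phi_left A B i
  rw [this, ← aeval_rename, aeval_X_left_apply]

private theorem c1_stp {n : ℕ} (G A B : MvPolynomial (Fin n) ℂ) :
    aeval (c1phi A B) (stp G A B) = hyp G := by
  unfold stp hyp
  rw [map_add, map_mul, map_add, map_add, aeval_X, aeval_X, c1_rename, c1_rename, c1_rename,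
    c1phi_right, c1phi_right]
  simp

private theorem c1_eval {n : ℕ} (Q : MvPolynomial (Fin n) ℂ) (hQ : eval 0 Q = 0) :
    eval (0 : Fin (n + 2) → ℂ) (rename (Fin.castAdd 2) Q) = 0 := by
  rw [eval_rename]
  exact hQ

private theorem c1_pderiv {n : ℕ} (Q : MvPolynomial (Fin n) ℂ) (j : Fin 2) :
    pderiv (Fin.natAdd n j) (rename (Fin.castAdd 2) Q) = 0 := by
  apply pderiv_eq_zero_of_notMem_vars
  intro h
  have h1 := vars_rename (Fin.castAdd 2) Q h
  rw [Finset.mem_image] at h1
  obtain ⟨a, _, ha⟩ := h1
  have h2 := congrArg Fin.val ha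
  simp at h2
  omega

private theorem c1_jac {n : ℕ} (A B : MvPolynomial (Fin n) ℂ) :
    jacDet (c1phi A B) = 1 := by
  unfold jacDet
  rw [Matrix.det_of_isLowerTriangular]
  · apply Finset.prod_eq_one
    intro i _
    rw [Matrix.of_apply]
    induction i using Fin.addCases with
    | left i => rw [c1phi_left, pderiv_X_self]
    | right j => rw [c1phi_right, map_sub, pderiv_X_self, c1_pderiv, sub_zero]
  · intro i j hij
    have hij' : i < j := hij
    rw [Matrix.of_apply]
    induction i using Fin.addCases with
    | left i => rw [c1phi_left, pderiv_X_of_ne hij'.ne]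
    | right a =>
      induction j using Fin.addCases with
      | left j =>
        exfalso
        have := Fin.lt_def.1 hij'
        simp at this
        omega
      | right b =>
        rw [c1phi_right, map_sub, c1_pderiv, pderiv_X_of_ne hij'.ne, sub_zero]

theorem locPull_stp {n : ℕ} (G A B : MvPolynomial (Fin n) ℂ) (hA : eval 0 A = 0)
    (hB : eval 0 B = 0) : LocPull (Ideal.span {hyp G}) 0 (Ideal.span {stp G A B}) := by
  refine ⟨c1phi A B, id, 1, Function.injective_id, ?_, ?_, ?_, ?_, ?_⟩
  · rw [map_one]
    exact one_ne_zero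
  · rw [c1_jac, map_one]
    exact one_ne_zero
  · intro i
    simp only [id]
    induction i using Fin.addCases with
    | left i => rw [c1phi_left, eval_X]; rfl
    | right j =>
      rw [c1phi_right, map_sub, eval_X, c1_eval]
      · simp
      · fin_cases j
        · exact hA
        · exact hB
  · intro g hg
    rw [one_mul]
    simp only [id]
    rw [Ideal.mem_span_singleton] at hg ⊢
    obtain ⟨q, rfl⟩ := hg
    rw [map_mul]
    have := c1_stp G A B
    refine ⟨aeval (c1phi A B) q, ?_⟩
    rw [← this]
  · intro f hf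
    rw [one_mul]
    simp only [id]
    rw [Ideal.mem_span_singleton] at hf
    obtain ⟨q, rfl⟩ := hf
    apply Ideal.mul_mem_right
    apply Ideal.subset_span
    exact ⟨stp G A B, Ideal.mem_span_singleton_self _, (c1_stp G A B).symm⟩

end CB
end MotMono
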