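import Pool.Agent.Lib.MP_4e5fcd_ag.CB.Base

/-!
# CB-C2: from a polynomial with coloured variables to a trilinear form

Let `κ : Fin n → Fin 3`, every monomial of `F` has degree at most one in the variables of each
colour, `F (0) = 0`. Write `s a = X (natAdd n a)`, `a : Fin 3`, for the three new variables.

`T = ∑_{m ∈ supp F} F_m x^m ∏_{a : no variable of colour a in x^m} s_a`, i.e. the sum of the
`monomial (mapDomain castAdd m + ∑_{a, ∑_{κ i = a} m i = 0} single (natAdd n a) 1) (F_m)`.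
`IsTrilinear T` with the colouring `Fin.addCases κ id` of `Fin (n + 3)`: the support of `T` is
contained in the set of these exponents (`MvPolynomial.support_sum` …), and for each of them the sum
over the colour `a` is `∑_{κ i = a} m i + [that is 0] = 1`.
`c (castAdd 3 i) = 0`, `c (natAdd n a) = 1`. `eval c T = 0`: for `m ≠ 0` the monomial vanishes at `c`,
and `F_0 = eval 0 F = 0` (so `0 ∉ supp F`).

`LocPull`: `u (castAdd 3 i) = X (castAdd 3 i) * (1 + s_{κ i})`, `u (natAdd n a) = s_a`, `e = id`,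
`h = U := ∏ a, (1 + s_a)`. `G = germ (span {T}) c` is the ideal generated by
`T' = aeval (fun i => X i + C (c i)) T` (`germ` of a principal ideal is principal: one inclusion is
clear, for the other the map is a ring homomorphism). Main computation:
`aeval u T' = U * rename (castAdd 3) F`: `aeval u T' = aeval (fun i => u i + C (c i)) T`, and
`u (natAdd n a) + 1 = 1 + s_a`, `u (castAdd 3 i) + 0 = x_i (1 + s_{κ i})`, so the term of `m` becomes
`F_m x^m ∏_i (1 + s_{κ i})^{m i} ∏_{a missing} (1 + s_a)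
   = F_m x^m ∏_a (1 + s_a)^{(∑_{κ i = a} m i) + [a missing]} = F_m x^m U`
(`Finset.prod_fiberwise` for the first product; the exponent is `1` for every `a`).
`push`: for `g ∈ G`, `g = b * T'`: `h * aeval u g = h * aeval u b * U * rename F ∈ span {rename F}`.
`pull`: `f = b * rename F`: `h * f = b * aeval u T'` is in the span. `eval 0 h = 1`. `u` vanishes at
`0`. `eval 0 (jacDet u) = 1`: the matrix of the derivatives at `0` is the identity
(`∂ (x_i (1 + s_κ)) / ∂ s_κ = x_i` vanishes at `0`, `∂ / ∂ x_i = 1 + s_κ` is `1` at `0`).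
-/

open MvPolynomial

namespace MotMono
namespace CB

open CN HY

/-- the exponent of the trilinear monomial -/
private noncomputable def c2E {n : ℕ} (κ : Fin n → Fin 3) (m : Fin n →₀ ℕ) : Fin (n + 3) →₀ ℕ :=
  Finsupp.equivFunOnFinite.symm (Fin.addCases (fun i => m i)
    (fun a => 1 - ∑ i with κ i = a, m i) : Fin (n + 3) → ℕ)

private theorem c2E_l {n : ℕ} (κ : Fin n → Fin 3) (m : Fin n →₀ ℕ) (i : Fin n) :
    c2E κ m (Fin.castAdd 3 i) = m i := by
  simp [c2E]

private theorem c2E_r {n : ℕ} (κ : Fin n → Fin 3) (m : Fin n →₀ ℕ) (a : Fin 3) :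
    c2E κ m (Fin.natAdd n a) = 1 - ∑ i with κ i = a, m i := by
  simp [c2E]

/-- the trilinear form -/
private noncomputable def c2T {n : ℕ} (κ : Fin n → Fin 3) (F : MvPolynomial (Fin n) ℂ) :
    MvPolynomial (Fin (n + 3)) ℂ :=
  ∑ m ∈ F.support, monomial (c2E κ m) (coeff m F)

/-- the point -/
private def c2c (n : ℕ) : Fin (n + 3) → ℂ := Fin.addCases (fun _ => 0) (fun _ => 1)

private theorem c2c_l {n : ℕ} (i : Fin n) : c2c n (Fin.castAdd 3 i) = 0 := by
  simp [c2c]

private theorem c2c_r {n : ℕ} (a : Fin 3) : c2c n (Fin.natAdd n a) = 1 := by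
  simp [c2c]

/-- the coordinates -/
private noncomputable def c2u {n : ℕ} (κ : Fin n → Fin 3) :
    Fin (n + 3) → MvPolynomial (Fin (n + 3)) ℂ :=
  Fin.addCases (fun i => X (Fin.castAdd 3 i) * (1 + X (Fin.natAdd n (κ i))))
    (fun a => X (Fin.natAdd n a))

private theorem c2u_l {n : ℕ} (κ : Fin n → Fin 3) (i : Fin n) :
    c2u κ (Fin.castAdd 3 i) = X (Fin.castAdd 3 i) * (1 + X (Fin.natAdd n (κ i))) := by
  simp [c2u]

private theorem c2u_r {n : ℕ} (κ : Fin n → Fin 3) (a : Fin 3) :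
    c2u κ (Fin.natAdd n a) = X (Fin.natAdd n a) := by
  simp [c2u]

/-- the unit -/
private noncomputable def c2U (n : ℕ) : MvPolynomial (Fin (n + 3)) ℂ :=
  ∏ a : Fin 3, (1 + X (Fin.natAdd n a))

private theorem c2_tri {n : ℕ} (F : MvPolynomial (Fin n) ℂ) (κ : Fin n → Fin 3)
    (hκ : ∀ m ∈ F.support, ∀ a : Fin 3, ∑ i with κ i = a, m i ≤ 1) : IsTrilinear (c2T κ F) := by
  classical
  refine ⟨Fin.addCases κ id, fun m' hm' a => ?_⟩
  have h1 := MvPolynomial.support_sum hm'
  rw [Finset.mem_biUnion] at h1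
  obtain ⟨m, hm, h2⟩ := h1
  have h3 : m' = c2E κ m := by
    have := MvPolynomial.support_monomial_subset h2
    simpa using this
  subst h3
  rw [Finset.sum_filter, Fin.sum_univ_add]
  simp only [Fin.addCases_left, Fin.addCases_right, c2E_l, c2E_r, id]
  rw [Finset.sum_ite_eq' Finset.univ a, if_pos (Finset.mem_univ a), ← Finset.sum_filter]
  have := hκ m hm a
  omega

private theorem c2_eval {n : ℕ} (F : MvPolynomial (Fin n) ℂ) (h0 : eval 0 F = 0)
    (κ : Fin n → Fin 3) : eval (c2c n) (c2T κ F) = 0 := by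
  classical
  unfold c2T
  rw [map_sum]
  refine Finset.sum_eq_zero fun m hm => ?_
  rw [eval_monomial]
  have hm0 : m ≠ 0 := by
    rintro rfl
    rw [mem_support_iff] at hm
    apply hm
    have h1 : eval (0 : Fin n → ℂ) F = constantCoeff F := by
      rw [MvPolynomial.eval_zero]
    rw [← constantCoeff_eq, ← h1, h0]
  obtain ⟨i, hi⟩ : ∃ i, m i ≠ 0 := by
    by_contra hcon
    push Not at hcon
    exact hm0 (Finsupp.ext hcon)
  have h2 : ((c2E κ m).prod fun j k => c2c n j ^ k) = 0 := by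
    rw [Finsupp.prod_fintype _ _ (fun _ => pow_zero _)]
    refine Finset.prod_eq_zero (Finset.mem_univ (Fin.castAdd 3 i)) ?_
    rw [c2E_l, c2c_l, zero_pow hi]
  rw [h2, mul_zero]

/-- the main computation -/
private theorem c2_main {n : ℕ} (F : MvPolynomial (Fin n) ℂ) (κ : Fin n → Fin 3)
    (hκ : ∀ m ∈ F.support, ∀ a : Fin 3, ∑ i with κ i = a, m i ≤ 1) :
    aeval (c2u κ) (aeval (fun i => X i + C (c2c n i)) (c2T κ F)) =
      c2U n * rename (Fin.castAdd 3) F := by
  classical
  have h1 : aeval (c2u κ) (aeval (fun i => X i + C (c2c n i)) (c2T κ F)) =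
      aeval (fun i => c2u κ i + C (c2c n i)) (c2T κ F) := by
    rw [← AlgHom.comp_apply, comp_aeval]
    simp only [map_add, aeval_X]
    congr 2
    funext i
    congr 1
    rw [aeval_C]
    rfl
  have h2 : rename (Fin.castAdd 3) F =
      ∑ m ∈ F.support, C (coeff m F) * ∏ i, (X (Fin.castAdd 3 i) : MvPolynomial (Fin (n + 3)) ℂ) ^ m i := by
    conv_lhs => rw [F.as_sum]
    rw [map_sum]
    refine Finset.sum_congr rfl fun m _ => ?_
    rw [rename_monomial, monomial_eq]
    congr 1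
    rw [Finsupp.prod_mapDomain_index_inj (Fin.castAdd_injective n 3),
      Finsupp.prod_fintype _ _ (fun _ => pow_zero _)]
  rw [h1, h2, Finset.mul_sum]
  unfold c2T
  rw [map_sum]
  refine Finset.sum_congr rfl fun m hm => ?_
  rw [aeval_monomial, Finsupp.prod_fintype _ _ (fun _ => pow_zero _), Fin.prod_univ_add]
  have e1 : ∏ i : Fin n, (c2u κ (Fin.castAdd 3 i) + C (c2c n (Fin.castAdd 3 i))) ^
      c2E κ m (Fin.castAdd 3 i) = (∏ i, (X (Fin.castAdd 3 i) : MvPolynomial (Fin (n + 3)) ℂ) ^ m i) *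
        ∏ a : Fin 3, (1 + X (Fin.natAdd n a)) ^ (∑ i with κ i = a, m i) := by
    have e2 : ∀ a : Fin 3, (1 + X (Fin.natAdd n a) : MvPolynomial (Fin (n + 3)) ℂ) ^
        (∑ i with κ i = a, m i) = ∏ i with κ i = a, (1 + X (Fin.natAdd n (κ i))) ^ m i := by
      intro a
      rw [← Finset.prod_pow_eq_pow_sum]
      refine Finset.prod_congr rfl fun i hi => ?_
      rw [(Finset.mem_filter.1 hi).2]
    rw [Finset.prod_congr rfl fun a _ => e2 a, Finset.prod_fiberwise, ← Finset.prod_mul_distrib]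
    refine Finset.prod_congr rfl fun i _ => ?_
    rw [c2u_l, c2c_l, c2E_l, C_0, add_zero, mul_pow]
  have e3 : ∏ a : Fin 3, (c2u κ (Fin.natAdd n a) + C (c2c n (Fin.natAdd n a))) ^
      c2E κ m (Fin.natAdd n a) = ∏ a : Fin 3, (1 + X (Fin.natAdd n a)) ^
        (1 - ∑ i with κ i = a, m i) := by
    refine Finset.prod_congr rfl fun a _ => ?_
    rw [c2u_r, c2c_r, c2E_r, C_1, add_comm (X (Fin.natAdd n a) : MvPolynomial (Fin (n + 3)) ℂ) 1]
  rw [e1, e3]
  have e4 : (∏ a : Fin 3, (1 + X (Fin.natAdd n a) : MvPolynomial (Fin (n + 3)) ℂ) ^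
      (∑ i with κ i = a, m i)) * (∏ a : Fin 3, (1 + X (Fin.natAdd n a)) ^
        (1 - ∑ i with κ i = a, m i)) = c2U n := by
    unfold c2U
    rw [← Finset.prod_mul_distrib]
    refine Finset.prod_congr rfl fun a _ => ?_
    rw [← pow_add]
    have := hκ m hm a
    have e5 : ∑ i with κ i = a, m i + (1 - ∑ i with κ i = a, m i) = 1 := by omega
    rw [e5, pow_one]
  rw [mul_assoc (∏ i, (X (Fin.castAdd 3 i) : MvPolynomial (Fin (n + 3)) ℂ) ^ m i), e4]
  have e6 : algebraMap ℂ (MvPolynomial (Fin (n + 3)) ℂ) (coeff m F) = C (coeff m F) := rfl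
  rw [e6]
  ring

private theorem c2_jac {n : ℕ} (κ : Fin n → Fin 3) : eval 0 (jacDet (c2u κ)) = 1 := by
  classical
  unfold jacDet
  rw [RingHom.map_det]
  have h1 : (eval (0 : Fin (n + 3) → ℂ)).mapMatrix
      (Matrix.of fun i j => pderiv j (c2u κ i)) = 1 := by
    ext i j
    rw [RingHom.mapMatrix_apply, Matrix.map_apply, Matrix.of_apply, Matrix.one_apply]
    refine Fin.addCases (fun i => ?_) (fun a => ?_) i
    · rw [c2u_l, Derivation.leibniz, map_add, pderiv_X]
      simp only [smul_eq_mul, map_add, map_mul, eval_X, Pi.zero_apply, zero_mul, zero_add,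
        map_one, add_zero, one_mul]
      by_cases h : Fin.castAdd 3 i = j
      · rw [if_pos h, ← h, Pi.single_eq_same, map_one]
      · rw [if_neg h, Pi.single_eq_of_ne h, map_zero]
    · rw [c2u_r, pderiv_X]
      by_cases h : Fin.natAdd n a = j
      · rw [if_pos h, ← h, Pi.single_eq_same, map_one]
      · rw [if_neg h, Pi.single_eq_of_ne h, map_zero]
  rw [h1, Matrix.det_one]

private theorem c2_push {N : ℕ} (T F' U : MvPolynomial (Fin N) ℂ) (c : Fin N → ℂ)
    (u : Fin N → MvPolynomial (Fin N) ℂ)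
    (hm : aeval u (aeval (fun i => X i + C (c i)) T) = U * F') (g : MvPolynomial (Fin N) ℂ)
    (hg : g ∈ germ (Ideal.span {T}) c) : aeval u g ∈ Ideal.span {F'} := by
  unfold germ at hg
  induction hg using Submodule.span_induction with
  | mem x hx =>
    obtain ⟨f, hf, rfl⟩ := hx
    obtain ⟨b, rfl⟩ := Ideal.mem_span_singleton'.1 hf
    rw [map_mul, map_mul, hm, ← mul_assoc]
    exact Ideal.mul_mem_left _ _ (Ideal.mem_span_singleton_self _)
  | zero => rw [map_zero]; exact Ideal.zero_mem _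
  | add x y _ _ hx hy => rw [map_add]; exact Ideal.add_mem _ hx hy
  | smul a x _ hx => rw [smul_eq_mul, map_mul]; exact Ideal.mul_mem_left _ _ hx

private theorem c2_pull {N : ℕ} (T F' U : MvPolynomial (Fin N) ℂ) (c : Fin N → ℂ)
    (u : Fin N → MvPolynomial (Fin N) ℂ)
    (hm : aeval u (aeval (fun i => X i + C (c i)) T) = U * F') (f : MvPolynomial (Fin N) ℂ)
    (hf : f ∈ Ideal.span {F'}) :
    U * f ∈ Ideal.span {f' | ∃ g ∈ germ (Ideal.span {T}) c, f' = aeval u g} := by
  obtain ⟨b, rfl⟩ := Ideal.mem_span_singleton'.1 hf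
  have e1 : U * (b * F') = b * aeval u (aeval (fun i => X i + C (c i)) T) := by
    rw [hm]
    ring
  rw [e1]
  refine Ideal.mul_mem_left _ _ (Ideal.subset_span ⟨_, ?_, rfl⟩)
  exact Ideal.subset_span ⟨T, Ideal.mem_span_singleton_self _, rfl⟩

private theorem c2_unit (n : ℕ) : eval 0 (c2U n) ≠ 0 := by
  unfold c2U
  rw [map_prod]
  simp

private theorem c2_zero {n : ℕ} (κ : Fin n → Fin 3) (i : Fin (n + 3)) : eval 0 (c2u κ i) = 0 := by
  refine Fin.addCases (fun i => ?_) (fun a => ?_) i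
  · rw [c2u_l]
    simp
  · rw [c2u_r]
    simp

theorem homogenize {n : ℕ} (F : MvPolynomial (Fin n) ℂ) (h0 : eval 0 F = 0) (κ : Fin n → Fin 3)
    (hκ : ∀ m ∈ F.support, ∀ a : Fin 3, ∑ i with κ i = a, m i ≤ 1) :
    ∃ (T : MvPolynomial (Fin (n + 3)) ℂ) (c : Fin (n + 3) → ℂ), IsTrilinear T ∧ eval c T = 0 ∧
      LocPull (Ideal.span {rename (Fin.castAdd 3) F}) 0 (germ (Ideal.span {T}) c) := by
  have hm := c2_main F κ hκ
  have hj : eval 0 (jacDet (c2u κ)) ≠ 0 := by
    rw [c2_jac]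
    exact one_ne_zero
  exact ⟨c2T κ F, c2c n, c2_tri F κ hκ, c2_eval F h0 κ, c2u κ, id, c2U n,
    Function.injective_id, c2_unit n, hj, c2_zero κ,
    fun g hg => Ideal.mul_mem_left _ _ (c2_push _ _ _ _ _ hm g hg),
    fun f hf => c2_pull _ _ _ _ _ hm f hf⟩

end CB
end MotMono
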