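import Pool.Agent.Lib.MP_4e5fcd_ag.CB.Base
import Pool.Agent.Lib.MP_4e5fcd_ag.HY.A3

/-!
# CB-D0: the products of `r` elements of a tuple

`span_pw`: `Submodule.span_pow` / `Ideal.span` of the `r`-th power of the set `range f`
(`Set.mem_pow`: `x ∈ s ^ n ↔ ∃ f : Fin n → s, (List.ofFn fun i => ↑(f i)).prod = x`,
`List.prod_ofFn`), `finFunctionFinEquiv : (Fin r → Fin r) ≃ Fin (r ^ r)`.

`vec_pw` (`0 < r`): Let `TE (pw f) m γ`. Some product `∏ i, along (f (α i)) γ` is not `0`, so some
coefficient of some `along (f j) γ` is not `0`; let `μ` be the first level with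
`vec f μ γ ≠ 0` (`Nat.find`), `u = vec f μ γ`. Then `X ^ μ ∣ along (f j) γ` for all `j`, so
`X ^ (r μ) ∣ along (pw f a) γ` and its coefficient `r μ` is `∏ i, u (α i) = pv u a`
(write `along (f j) γ = X ^ μ * v_j`, `v_j (0) = u j`). For `α` constant `= j`, `u j ≠ 0`, it is
`u j ^ r ≠ 0`. So `TE (pw f) (r μ) γ`, and `m = r μ` (if `m < r μ` the vector `vec (pw f) m γ` is `0`;
if `m > r μ` then `TO (pw f) m γ` contradicts). Hence `vec (pw f) m γ = pv u`.
-/

open MvPolynomial

namespace MotMono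
namespace CB

open CN HY

variable {N r : ℕ}

private theorem d0_pow_le {R : Type} [CommRing R] (f : Fin r → R) (n : ℕ) :
    Ideal.span (Set.range f) ^ n ≤ Ideal.span {x | ∃ α : Fin n → Fin r, x = ∏ i, f (α i)} := by
  induction n with
  | zero =>
    rw [pow_zero, Ideal.one_eq_top, top_le_iff, Ideal.eq_top_iff_one]
    apply Ideal.subset_span
    exact ⟨fun i => i.elim0, by simp⟩
  | succ n ih =>
    rw [pow_succ]
    refine (Ideal.mul_mono_left ih).trans ?_
    rw [Ideal.span_mul_span', Ideal.span_le]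
    intro x hx
    obtain ⟨y, ⟨α, hα⟩, z, ⟨j, hj⟩, rfl⟩ := Set.mem_mul.mp hx
    apply Ideal.subset_span
    refine ⟨Fin.snoc α j, ?_⟩
    rw [Fin.prod_univ_castSucc]
    simp only [Fin.snoc_castSucc, Fin.snoc_last]
    rw [hα, hj]

theorem span_pw (f : Fin r → MvPolynomial (Fin N) ℂ) :
    Ideal.span (Set.range (pw f)) = Ideal.span (Set.range f) ^ r := by
  apply le_antisymm
  · rw [Ideal.span_le]
    rintro x ⟨a, rfl⟩
    have h : ∏ i : Fin r, f (finFunctionFinEquiv.symm a i) ∈
        ∏ _i : Fin r, Ideal.span (Set.range f) :=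
      Ideal.prod_mem_prod fun i _ => Ideal.subset_span ⟨_, rfl⟩
    rw [Finset.prod_const, Finset.card_univ, Fintype.card_fin] at h
    exact h
  · refine (d0_pow_le f r).trans ?_
    rw [Ideal.span_le]
    rintro x ⟨α, rfl⟩
    apply Ideal.subset_span
    refine ⟨finFunctionFinEquiv α, ?_⟩
    unfold pw
    simp only [Equiv.symm_apply_apply]

theorem vec_pw (hr : 0 < r) (f : Fin r → MvPolynomial (Fin N) ℂ) {k m : ℕ}
    (γ : Fin N × Fin (k + 1) → ℂ) (h : TE (pw f) m γ) :
    ∃ u : Fin r → ℂ, u ≠ 0 ∧ vec (pw f) m γ = pv u := by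
  classical
  obtain ⟨h1, h2⟩ := h
  have hP : ∀ a, along (pw f a) γ = ∏ i, along (f (finFunctionFinEquiv.symm a i)) γ := by
    intro a
    unfold along pw
    rw [map_prod]
  have hex : ∃ μ : ℕ, ∃ j, (along (f j) γ).coeff μ ≠ 0 := by
    by_contra hcon
    apply h2
    funext a
    show (along (pw f a) γ).coeff m = 0
    have h3 : along (f (finFunctionFinEquiv.symm a ⟨0, hr⟩)) γ = 0 := by
      ext μ
      by_contra h4
      exact hcon ⟨μ, _, h4⟩
    rw [hP, Finset.prod_eq_zero (Finset.mem_univ (⟨0, hr⟩ : Fin r)) h3, Polynomial.coeff_zero]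
  obtain ⟨μ, hμ⟩ : ∃ μ, μ = Nat.find hex := ⟨_, rfl⟩
  obtain ⟨j0, hj0⟩ : ∃ j, (along (f j) γ).coeff μ ≠ 0 := by
    rw [hμ]
    exact Nat.find_spec hex
  have hlow : ∀ j, ∀ l < μ, (along (f j) γ).coeff l = 0 := by
    intro j l hl
    by_contra h3
    rw [hμ] at hl
    exact Nat.find_min hex hl ⟨j, h3⟩
  have hdvd : ∀ j, ∃ v : Polynomial ℂ, along (f j) γ = Polynomial.X ^ μ * v := fun j =>
    Polynomial.X_pow_dvd_iff.mpr (hlow j)
  choose v hv using hdvd
  obtain ⟨u, hu⟩ : ∃ u : Fin r → ℂ, u = fun j => (v j).coeff 0 := ⟨_, rfl⟩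
  have huj : ∀ j, (along (f j) γ).coeff μ = u j := by
    intro j
    rw [hv j, hu, Polynomial.coeff_X_pow_mul' , if_pos le_rfl, Nat.sub_self]
  have hPa : ∀ a, along (pw f a) γ = Polynomial.X ^ (μ * r) *
      ∏ i, v (finFunctionFinEquiv.symm a i) := by
    intro a
    rw [hP, Finset.prod_congr rfl fun i _ => hv (finFunctionFinEquiv.symm a i),
      Finset.prod_mul_distrib, Finset.prod_const, Finset.card_univ, Fintype.card_fin, ← pow_mul]
  have hco : ∀ a, (along (pw f a) γ).coeff (μ * r) = pv u a := by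
    intro a
    rw [hPa, Polynomial.coeff_X_pow_mul', if_pos le_rfl, Nat.sub_self,
      Polynomial.coeff_zero_eq_eval_zero, Polynomial.eval_prod]
    unfold pv
    refine Finset.prod_congr rfl fun i _ => ?_
    rw [hu]
    exact (Polynomial.coeff_zero_eq_eval_zero _).symm
  have hlt : ∀ a, ∀ l < μ * r, (along (pw f a) γ).coeff l = 0 := by
    intro a l hl
    rw [hPa, Polynomial.coeff_X_pow_mul', if_neg (by omega)]
  have hne : pv u (finFunctionFinEquiv (fun _ : Fin r => j0)) ≠ 0 := by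
    unfold pv
    simp only [Equiv.symm_apply_apply]
    rw [Finset.prod_const]
    apply pow_ne_zero
    rw [← huj j0]
    exact hj0
  have hm : m = μ * r := by
    rcases Nat.lt_trichotomy m (μ * r) with h3 | h3 | h3
    · exfalso
      apply h2
      funext a
      exact hlt a m h3
    · exact h3
    · exfalso
      have h4 := h1 (finFunctionFinEquiv (fun _ : Fin r => j0)) (μ * r) h3
      rw [hco] at h4
      exact hne h4
  refine ⟨u, ?_, ?_⟩
  · intro h0
    apply hj0
    rw [huj, h0]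
    rfl
  · funext a
    rw [hm]
    exact hco a

end CB
end MotMono
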