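import Pool.Agent.Lib.MP_4e5fcd_ag.CB.Base

/-!
# CB-D00: the alternating sum over the non-empty subsets

`aS S : Fin (r ^ r)` is the function `i ↦ i` for `i ∈ S`, `i ↦ min S` for `i ∉ S`; its image is `S`.
`unitRow j *ᵥ v = fun _ => v j`. `pv u (aS S) = ∏ i, u (…)` is `0` iff `u i = 0` for some `i ∈ S`
(`Finset.prod_eq_zero_iff`; every `i ∈ S` occurs, and all values are in `S`).
`alt_one`: `∑_{S ≠ ∅} (-1)^(|S|+1) = 1`, from `Finset.sum_powerset_neg_one_pow_card` for
`Finset.univ` (`= 0` for `r > 0`), the term of `∅` is `1`.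
`alt_sum`: let `Z = {i | u i ≠ 0} ≠ ∅`. The sum over all non-empty `S` minus the sum over the
non-empty `S ⊆ Z` (those with no zero of `u` in `S`): both are `1` (`alt_one` and the same for the
powerset of `Z`).
-/

open MvPolynomial Matrix

namespace MotMono
namespace CB

variable {r : ℕ}

open Classical in
/-- the function with image `S` -/
noncomputable def aS (S : {S : Finset (Fin r) // S.Nonempty}) : Fin (r ^ r) :=
  finFunctionFinEquiv fun i => if i ∈ S.1 then i else S.1.min' S.2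

private theorem D00_sub (Z : Finset (Fin r)) (hZ : Z.Nonempty) :
    ∑ S : {S : Finset (Fin r) // S.Nonempty}, (if S.1 ⊆ Z then (-1 : ℤ) ^ (S.1.card + 1) else 0) = 1 := by
  have h1 : ∑ S : {S : Finset (Fin r) // S.Nonempty}, (if S.1 ⊆ Z then (-1 : ℤ) ^ (S.1.card + 1) else 0) =
      ∑ S ∈ Finset.univ.filter (fun S : Finset (Fin r) => S.Nonempty), (if S ⊆ Z then (-1 : ℤ) ^ (S.card + 1) else 0) :=
    (Finset.sum_subtype (Finset.univ.filter fun S : Finset (Fin r) => S.Nonempty) (by simp)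
      (fun S => if S ⊆ Z then (-1 : ℤ) ^ (S.card + 1) else 0)).symm
  rw [h1]
  have h2 := Finset.sum_filter_add_sum_filter_not (Finset.univ : Finset (Finset (Fin r)))
    (fun S : Finset (Fin r) => S.Nonempty) (fun S => if S ⊆ Z then (-1 : ℤ) ^ (S.card + 1) else 0)
  have h3 : (Finset.univ.filter fun S : Finset (Fin r) => ¬ S.Nonempty) = {∅} := by
    ext S
    simp [Finset.not_nonempty_iff_eq_empty]
  rw [h3, Finset.sum_singleton] at h2
  have h4 : ∑ S : Finset (Fin r), (if S ⊆ Z then (-1 : ℤ) ^ (S.card + 1) else 0) = 0 := by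
    rw [← Finset.sum_filter]
    have h5 : (Finset.univ.filter fun S : Finset (Fin r) => S ⊆ Z) = Z.powerset := by
      ext S
      simp
    rw [h5]
    simp only [pow_succ]
    rw [← Finset.sum_mul, Finset.sum_powerset_neg_one_pow_card, if_neg hZ.ne_empty, zero_mul]
  rw [h4] at h2
  simp only [Finset.empty_subset, if_true, Finset.card_empty, zero_add, pow_one] at h2
  linarith

theorem alt_one (hr : 0 < r) :
    ∑ S : {S : Finset (Fin r) // S.Nonempty}, (-1 : ℤ) ^ (S.1.card + 1) = 1 := by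
  have h := D00_sub (Finset.univ : Finset (Fin r)) ⟨⟨0, hr⟩, Finset.mem_univ _⟩
  refine Eq.trans (Finset.sum_congr rfl fun S _ => ?_) h
  rw [if_pos (Finset.subset_univ _)]

open Classical in
private theorem D00_key (u : Fin r → ℂ) (S : {S : Finset (Fin r) // S.Nonempty}) :
    unitRow (aS S) *ᵥ pv u = 0 ↔ ¬ S.1 ⊆ Finset.univ.filter fun i => u i ≠ 0 := by
  have h1 : unitRow (aS S) *ᵥ pv u = fun _ => pv u (aS S) := by
    ext i
    simp [unitRow, Matrix.mulVec, dotProduct]
  have h2 : pv u (aS S) = ∏ i : Fin r, u (if i ∈ S.1 then i else S.1.min' S.2) := by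
    unfold pv aS
    rw [Equiv.symm_apply_apply]
  rw [h1]
  constructor
  · intro h hS
    have h3 := congrFun h 0
    rw [Pi.zero_apply, h2, Finset.prod_eq_zero_iff] at h3
    obtain ⟨i, -, hi⟩ := h3
    split_ifs at hi with hm
    · exact (Finset.mem_filter.1 (hS hm)).2 hi
    · exact (Finset.mem_filter.1 (hS (S.1.min'_mem S.2))).2 hi
  · intro h
    rw [Finset.not_subset] at h
    obtain ⟨i, hi, hi'⟩ := h
    funext _
    rw [Pi.zero_apply, h2, Finset.prod_eq_zero_iff]
    refine ⟨i, Finset.mem_univ _, ?_⟩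
    rw [if_pos hi]
    by_contra h0
    exact hi' (Finset.mem_filter.2 ⟨Finset.mem_univ _, h0⟩)

open Classical in
theorem alt_sum (u : Fin r → ℂ) (hu : u ≠ 0) :
    ∑ S : {S : Finset (Fin r) // S.Nonempty},
      (if unitRow (aS S) *ᵥ pv u = 0 then (-1 : ℤ) ^ (S.1.card + 1) else 0) = 0 := by
  obtain ⟨i, hi⟩ := Function.ne_iff.1 hu
  have hr : 0 < r := lt_of_le_of_lt (Nat.zero_le _) i.2
  have h1 := D00_sub (Finset.univ.filter fun i => u i ≠ 0) ⟨i, Finset.mem_filter.2 ⟨Finset.mem_univ _, hi⟩⟩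
  have h2 := alt_one hr
  have h3 : ∑ S : {S : Finset (Fin r) // S.Nonempty},
      (if unitRow (aS S) *ᵥ pv u = 0 then (-1 : ℤ) ^ (S.1.card + 1) else 0) +
      ∑ S : {S : Finset (Fin r) // S.Nonempty},
        (if S.1 ⊆ Finset.univ.filter fun i => u i ≠ 0 then (-1 : ℤ) ^ (S.1.card + 1) else 0) =
      ∑ S : {S : Finset (Fin r) // S.Nonempty}, (-1 : ℤ) ^ (S.1.card + 1) := by
    rw [← Finset.sum_add_distrib]
    refine Finset.sum_congr rfl fun S _ => ?_
    by_cases h : S.1 ⊆ Finset.univ.filter fun i => u i ≠ 0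
    · have : ¬ (unitRow (aS S) *ᵥ pv u = 0) := fun h' => (D00_key u S).1 h' h
      rw [if_neg this, if_pos h, zero_add]
    · rw [if_pos ((D00_key u S).2 h), if_neg h, add_zero]
  linarith

end CB
end MotMono
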