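import Pool.Agent.Lib.MP_4e5fcd_ag.CB.R1

/-!
# CB-R2: the induction

`reduce_pol`: strong induction on `mu κ L`, over all `n`, `κ`, `L` with `∀ t ∈ L, Inv κ t.2`. If all
`t ∈ L` have `dg κ 1 t.2 ≤ 1`, then every exponent in the support of `pol L` is `t.2` for some
`t ∈ L` (support of a multiset sum; induction on `L`), so `hbase` applies (`κ`; degrees `≤ 1` in the
three colours by `Inv`); `eval 0 (pol L) = 0` as all exponents are non-zero. Otherwise
`L = (c, m) ::ₘ L₀` with `dg κ 1 m ≥ 2` (`Multiset.exists_cons_of_mem`), `step` (CB-R1), `hstep` and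
the induction hypothesis.

`reduce`: `G` with `G (0) = 0` is `pol L` for `L = (supp G).val.map (m ↦ (G_m, m))`
(`MvPolynomial.as_sum` / `support_sum_monomial_coeff`), `κ = fun _ => 1`: `Inv` holds: `m ≠ 0` because
`G_0 = eval 0 G = 0` (`constantCoeff`), `dg κ 0 m = dg κ 2 m = 0` (empty sums).
-/

open MvPolynomial

namespace MotMono
namespace CB

private theorem R2_supp {n : ℕ} (L : Multiset (ℂ × (Fin n →₀ ℕ))) (m : Fin n →₀ ℕ) (hm : m ∈ (pol L).support) :
    ∃ t ∈ L, t.2 = m := by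
  classical
  induction L using Multiset.induction_on with
  | empty =>
    rw [pol, Multiset.map_zero, Multiset.sum_zero, support_zero] at hm
    exact absurd hm (Finset.notMem_empty m)
  | cons a L ih =>
    have h1 : pol (a ::ₘ L) = monomial a.2 a.1 + pol L := by
      rw [pol, Multiset.map_cons, Multiset.sum_cons]
      rfl
    rw [h1] at hm
    rcases Finset.mem_union.1 (support_add hm) with h2 | h2
    · refine ⟨a, Multiset.mem_cons_self a L, ?_⟩
      have h3 := support_monomial_subset h2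
      rw [Finset.mem_singleton] at h3
      exact h3.symm
    · obtain ⟨t, ht, ht2⟩ := ih h2
      exact ⟨t, Multiset.mem_cons_of_mem ht, ht2⟩

private theorem R2_eval {n : ℕ} (L : Multiset (ℂ × (Fin n →₀ ℕ))) (hL : ∀ t ∈ L, t.2 ≠ 0) : eval 0 (pol L) = 0 := by
  classical
  induction L using Multiset.induction_on with
  | empty =>
    rw [pol, Multiset.map_zero, Multiset.sum_zero, map_zero]
  | cons a L ih =>
    have h1 : pol (a ::ₘ L) = monomial a.2 a.1 + pol L := by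
      rw [pol, Multiset.map_cons, Multiset.sum_cons]
      rfl
    rw [h1, map_add, ih (fun t ht => hL t (Multiset.mem_cons_of_mem ht)), add_zero, eval_zero, constantCoeff_monomial,
      if_neg (hL a (Multiset.mem_cons_self a L))]

private theorem R2_aux (Pr : ∀ n : ℕ, MvPolynomial (Fin n) ℂ → Prop)
    (hbase : ∀ (n : ℕ) (F : MvPolynomial (Fin n) ℂ), eval 0 F = 0 →
      (∃ κ : Fin n → Fin 3, ∀ m ∈ F.support, ∀ a : Fin 3, ∑ i with κ i = a, m i ≤ 1) → Pr n F)
    (hstep : ∀ (n : ℕ) (G A B : MvPolynomial (Fin n) ℂ), eval 0 G = 0 → eval 0 A = 0 →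
      eval 0 B = 0 → Pr (n + 2) (stp G A B) → Pr n G) (s : ℕ) :
    ∀ (n : ℕ) (κ : Fin n → Fin 3) (L : Multiset (ℂ × (Fin n →₀ ℕ))), mu κ L ≤ s → (∀ t ∈ L, Inv κ t.2) →
      Pr n (pol L) := by
  induction s with
  | zero =>
    intro n κ L hmu hL
    refine hbase n _ (R2_eval L fun t ht => (hL t ht).1) ⟨κ, ?_⟩
    intro m hm a
    obtain ⟨t, ht, rfl⟩ := R2_supp L m hm
    have h1 : dg κ 1 t.2 ≤ 1 := by
      have h2 : dg κ 1 t.2 - 1 ≤ mu κ L :=
        Multiset.le_sum_of_mem (Multiset.mem_map_of_mem (fun t : ℂ × (Fin n →₀ ℕ) => dg κ 1 t.2 - 1) ht)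
      omega
    obtain ⟨_, h3, h4, _⟩ := hL t ht
    fin_cases a
    · exact h3
    · exact h1
    · exact h4
  | succ s ih =>
    intro n κ L hmu hL
    by_cases hall : ∀ t ∈ L, dg κ 1 t.2 ≤ 1
    · refine hbase n _ (R2_eval L fun t ht => (hL t ht).1) ⟨κ, ?_⟩
      intro m hm a
      obtain ⟨t, ht, rfl⟩ := R2_supp L m hm
      have h1 := hall t ht
      obtain ⟨_, h3, h4, _⟩ := hL t ht
      fin_cases a
      · exact h3
      · exact h1
      · exact h4
    · push Not at hall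
      obtain ⟨t, ht, h2⟩ := hall
      obtain ⟨L₀, rfl⟩ := Multiset.exists_cons_of_mem ht
      obtain ⟨c, m⟩ := t
      obtain ⟨A, B, κ', L', hA, hB, hp, hI, hlt⟩ := step κ c m L₀ h2 (hL _ ht)
        (fun t ht => hL t (Multiset.mem_cons_of_mem ht))
      refine hstep n _ A B (R2_eval _ fun t ht => (hL t ht).1) hA hB ?_
      rw [← hp]
      exact ih (n + 2) κ' L' (by omega) hI

theorem reduce_pol (Pr : ∀ n : ℕ, MvPolynomial (Fin n) ℂ → Prop)
    (hbase : ∀ (n : ℕ) (F : MvPolynomial (Fin n) ℂ), eval 0 F = 0 →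
      (∃ κ : Fin n → Fin 3, ∀ m ∈ F.support, ∀ a : Fin 3, ∑ i with κ i = a, m i ≤ 1) → Pr n F)
    (hstep : ∀ (n : ℕ) (G A B : MvPolynomial (Fin n) ℂ), eval 0 G = 0 → eval 0 A = 0 →
      eval 0 B = 0 → Pr (n + 2) (stp G A B) → Pr n G)
    (n : ℕ) (κ : Fin n → Fin 3) (L : Multiset (ℂ × (Fin n →₀ ℕ))) (hL : ∀ t ∈ L, Inv κ t.2) :
    Pr n (pol L) := by
  exact R2_aux Pr hbase hstep (mu κ L) n κ L le_rfl hL

theorem reduce (Pr : ∀ n : ℕ, MvPolynomial (Fin n) ℂ → Prop)
    (hbase : ∀ (n : ℕ) (F : MvPolynomial (Fin n) ℂ), eval 0 F = 0 →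
      (∃ κ : Fin n → Fin 3, ∀ m ∈ F.support, ∀ a : Fin 3, ∑ i with κ i = a, m i ≤ 1) → Pr n F)
    (hstep : ∀ (n : ℕ) (G A B : MvPolynomial (Fin n) ℂ), eval 0 G = 0 → eval 0 A = 0 →
      eval 0 B = 0 → Pr (n + 2) (stp G A B) → Pr n G)
    (n : ℕ) (G : MvPolynomial (Fin n) ℂ) (h0 : eval 0 G = 0) : Pr n G := by
  classical
  obtain ⟨L, hLd⟩ : ∃ L : Multiset (ℂ × (Fin n →₀ ℕ)), L = G.support.val.map fun m => (coeff m G, m) := ⟨_, rfl⟩
  have hp : pol L = G := by
    rw [pol, hLd, Multiset.map_map]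
    exact support_sum_monomial_coeff G
  rw [← hp]
  refine reduce_pol Pr hbase hstep n (fun _ => 1) L ?_
  intro t ht
  rw [hLd, Multiset.mem_map] at ht
  obtain ⟨m, hm, rfl⟩ := ht
  have hz : ∀ a : Fin 3, a ≠ 1 → dg (fun _ : Fin n => (1 : Fin 3)) a m = 0 := by
    intro a ha
    rw [dg]
    refine Finset.sum_eq_zero ?_
    intro i hi
    rw [Finset.mem_filter] at hi
    exact absurd hi.2.symm ha
  refine ⟨?_, ?_, ?_, ?_⟩
  · intro h
    have h1 : m ∈ G.support := hm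
    have h2 : m = 0 := h
    rw [h2, mem_support_iff] at h1
    apply h1
    rw [eval_zero, constantCoeff_eq] at h0
    exact h0
  · rw [hz 0 (by decide)]
    exact Nat.zero_le 1
  · rw [hz 2 (by decide)]
    exact Nat.zero_le 1
  · intro _
    exact hz 0 (by decide)

end CB
end MotMono
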