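import Pool.Agent.Lib.MP_4e5fcd_ag.CB.A1
import Pool.Agent.Lib.MP_4e5fcd_ag.CB.A2
import Pool.Agent.Lib.MP_4e5fcd_ag.CB.A4
import Pool.Agent.Lib.MP_4e5fcd_ag.CB.B3
import Pool.Agent.Lib.MP_4e5fcd_ag.CB.B6
import Pool.Agent.Lib.MP_4e5fcd_ag.CB.C1
import Pool.Agent.Lib.MP_4e5fcd_ag.CB.C2
import Pool.Agent.Lib.MP_4e5fcd_ag.CB.R2

/-!
# CB-D1: hypersurfaces
-/

open MvPolynomial

namespace MotMono
namespace CB

open CN HY

theorem expo_ne_one {s₀ : ℚ} (hs : ∀ z : ℤ, s₀ ≠ z) : expo s₀ ≠ 1 := by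
  intro h
  rw [expo, Complex.exp_eq_one_iff] at h
  obtain ⟨n, hn⟩ := h
  have hpi : (2 * Real.pi * Complex.I : ℂ) ≠ 0 := Complex.two_pi_I_ne_zero
  have h1 : (s₀ : ℂ) = n := by
    have h2 : (2 * Real.pi * Complex.I : ℂ) * s₀ = (2 * Real.pi * Complex.I) * n := by
      rw [hn]; ring
    exact mul_left_cancel₀ hpi h2
  exact hs n (by exact_mod_cast h1)

theorem expo_pow_den (s₀ : ℚ) : expo s₀ ^ s₀.den = 1 := by
  rw [expo, ← Complex.exp_nat_mul]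
  have h : (s₀.den : ℂ) * (2 * Real.pi * Complex.I * (s₀ : ℂ)) =
      (s₀.num : ℂ) * (2 * Real.pi * Complex.I) := by
    have h1 : (s₀ : ℂ) * (s₀.den : ℂ) = (s₀.num : ℂ) := by
      exact_mod_cast Rat.mul_den_eq_num s₀
    linear_combination (2 * Real.pi * Complex.I : ℂ) * h1
  rw [h, Complex.exp_int_mul_two_pi_mul_I]

theorem expo_sub_one (s₀ : ℚ) : expo (s₀ - 1) = expo s₀ := by
  have h : 2 * (Real.pi : ℂ) * Complex.I * ((s₀ : ℚ) : ℂ) =
      2 * Real.pi * Complex.I * ((s₀ - 1 : ℚ) : ℂ) + 2 * Real.pi * Complex.I := by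
    push_cast
    ring
  unfold expo
  rw [h, Complex.exp_add, Complex.exp_two_pi_mul_I, mul_one]

theorem expo_mul' (s₀ : ℚ) (k : ℕ) : expo (k * s₀) = expo s₀ ^ k := by
  have h : 2 * (Real.pi : ℂ) * Complex.I * ((((k : ℚ) * s₀ : ℚ)) : ℂ) =
      (k : ℂ) * (2 * Real.pi * Complex.I * (s₀ : ℂ)) := by
    push_cast
    ring
  rw [expo, h, Complex.exp_nat_mul]
  rfl

/-- one step -/
theorem mp_step {χ : K0 →+* ℤ} (hχ : IsEulerCharF χ) {n : ℕ} (G A B : MvPolynomial (Fin n) ℂ)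
    (h0 : eval 0 G = 0) (hA : eval 0 A = 0) (hB : eval 0 B = 0)
    (h : MP χ (Ideal.span {stp G A B})) : MP χ (Ideal.span {G}) := by
  intro s₀ hs hpole
  have h1 : Zmot (Ideal.span {hyp G}) ∉ polarRing (s₀ - 1) := fun h2 =>
    hpole (polar_hyp G h0 hs h2)
  have h3 : Zmot (Ideal.span {stp G A B}) ∉ polarRing (s₀ - 1) := fun h2 =>
    h1 (zmot_pull' _ _ (locPull_stp G A B hA hB) h2)
  have h4 := h (s₀ - 1) (fun z hz => hs (z + 1) (by rw [Int.cast_add, Int.cast_one, ← hz]; ring)) h3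
  rw [expo_sub_one] at h4
  have h5 := nearK_of_locPull hχ _ 0 _ (locPull_stp G A B hA hB) _ h4
  exact nearK_hyp hχ G (expo_ne_one hs) s₀.den_pos (expo_pow_den s₀) h5

/-- all hypersurfaces -/
theorem mp_hyper {χ : K0 →+* ℤ} (hχ : IsEulerCharF χ)
    (hT : ∀ (N : ℕ) (T : MvPolynomial (Fin N) ℂ), IsTrilinear T → ∀ c : Fin N → ℂ,
      eval c T = 0 → MonodromyProperty χ (germ (Ideal.span {T}) c))
    {n : ℕ} (G : MvPolynomial (Fin n) ℂ) (h0 : eval 0 G = 0) : MP χ (Ideal.span {G}) := by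
  refine reduce (fun n G => MP χ (Ideal.span {G})) ?_ ?_ n G h0
  · rintro n F hF ⟨κ, hκ⟩
    obtain ⟨T, c, hT1, hc, hl⟩ := homogenize F hF κ hκ
    have h1 := (mp_iff _).1 (hT _ T hT1 c hc)
    intro s₀ hs hpole
    have h2 : Zmot (Ideal.span {rename (Fin.castAdd 3) F}) ∉ polarRing s₀ := fun h3 =>
      hpole (zmot_push _ _ (locPull_rename F) h3)
    have h4 := h1 s₀ hs fun h3 => h2 (zmot_pull' _ _ hl h3)
    exact nearK_rename hχ F _ (nearK_of_locPull hχ _ 0 _ hl _ h4)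
  · intro n G A B hG hA hB h
    exact mp_step hχ G A B hG hA hB h

end CB
end MotMono
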