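import Pool.Agent.Lib.MP_4e5fcd_ag.CB.A5
import Pool.Agent.Lib.MP_4e5fcd_ag.CB.A6
import Pool.Agent.Lib.MP_4e5fcd_ag.CB.B5
import Pool.Agent.Lib.MP_4e5fcd_ag.CB.D0
import Pool.Agent.Lib.MP_4e5fcd_ag.CB.D00
import Pool.Agent.Lib.MP_4e5fcd_ag.CB.D1

/-!
# CB-D3: ideals
-/

open MvPolynomial Matrix

namespace MotMono
namespace CB

open CN HY

/-- the germ of a principal ideal -/
theorem germ_span_singleton {N : ℕ} (F : MvPolynomial (Fin N) ℂ) (c : Fin N → ℂ) :
    germ (Ideal.span {F}) c = Ideal.span {aeval (fun i => X i + C (c i)) F} := by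
  apply le_antisymm
  · rw [germ, Ideal.span_le]
    rintro _ ⟨f, hf, rfl⟩
    obtain ⟨b, rfl⟩ := Ideal.mem_span_singleton.1 hf
    rw [map_mul]
    exact Ideal.mul_mem_right _ _ (Ideal.subset_span rfl)
  · rw [Ideal.span_le]
    rintro _ rfl
    exact Ideal.subset_span ⟨F, Ideal.subset_span rfl, rfl⟩

theorem eval_aeval_add {N : ℕ} (F : MvPolynomial (Fin N) ℂ) (c : Fin N → ℂ) :
    eval 0 (aeval (fun i => X i + C (c i)) F : MvPolynomial (Fin N) ℂ) = eval c F := by
  induction F using MvPolynomial.induction_on with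
  | C a => simp
  | add a b ha hb => simp only [map_add, ha, hb]
  | mul_X a i ha => simp only [map_mul, ha, aeval_X, map_add, eval_X, eval_C, Pi.zero_apply, zero_add]

theorem linGen_one {N R : ℕ} (g : Fin R → MvPolynomial (Fin N) ℂ) :
    linGen g 1 = Ideal.span {gen g 1 0} := by
  have h : linGen g 1 = Ideal.span (Set.range (gen g 1)) := rfl
  rw [h]
  congr 1
  ext f
  constructor
  · rintro ⟨i, rfl⟩
    rw [Subsingleton.elim i 0]
    rfl
  · rintro rfl
    exact ⟨0, rfl⟩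

theorem eval_gen_pt {N R : ℕ} (g : Fin R → MvPolynomial (Fin N) ℂ)
    (hg : ∀ j, eval 0 (g j) = 0) (C : Matrix (Fin 1) (Fin R) ℂ) :
    eval (pt 0 C) (gen g 1 0) = 0 := by
  rw [gen, map_sum]
  refine Finset.sum_eq_zero fun j _ => ?_
  rw [map_mul, eval_rename]
  have h : (pt (0 : Fin N → ℂ) C ∘ Fin.castAdd (1 * R)) = 0 := by
    funext a
    simp [pt]
  rw [h, hg, mul_zero]

theorem mp_ideal {χ : K0 →+* ℤ} (hχ : IsEulerCharF χ)
    (hH : ∀ (n : ℕ) (G : MvPolynomial (Fin n) ℂ), eval 0 G = 0 → MP χ (Ideal.span {G}))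
    {N : ℕ} (I : Ideal (MvPolynomial (Fin N) ℂ)) (h0 : ∀ f ∈ I, eval 0 f = 0) : MP χ I := by
  classical
  intro s₀ hs hpole
  obtain ⟨S, hS⟩ := (isNoetherianRing_iff_ideal_fg (MvPolynomial (Fin N) ℂ)).1 inferInstance I
  set r := S.card with hr
  let f : Fin r → MvPolynomial (Fin N) ℂ := fun j => (S.equivFin.symm j : MvPolynomial (Fin N) ℂ)
  have hf : Ideal.span (Set.range f) = I := by
    rw [← hS]
    congr 1
    ext g
    constructor
    · rintro ⟨j, rfl⟩
      exact (S.equivFin.symm j).2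
    · intro hg
      exact ⟨S.equivFin ⟨g, hg⟩, by simp [f]⟩
  have hr0 : 0 < r := by
    rw [Nat.pos_iff_ne_zero]
    intro hr0
    apply hpole
    have hI : I = ⊥ := by
      rw [← hf]
      have : IsEmpty (Fin r) := by rw [hr0]; infer_instance
      rw [Set.range_eq_empty, Ideal.span_empty]
    have hz : Zmot I = 0 := by
      ext k
      rw [Zmot, PowerSeries.coeff_mk]
      have he : ordLocus I k = ∅ := by
        rw [Set.eq_empty_iff_forall_notMem]
        rintro γ ⟨-, -, g, hg, hne⟩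
        rw [hI, Ideal.mem_bot] at hg
        subst hg
        apply hne
        simp [along]
      rw [he, cls_empty, map_zero, zero_mul, map_zero]
    rw [hz]
    exact Subring.zero_mem _
  have hf0 : ∀ j, eval 0 (f j) = 0 := fun j => h0 _ (by rw [← hf]; exact Ideal.subset_span ⟨j, rfl⟩)
  have hg0 : ∀ a, eval 0 (pw f a) = 0 := by
    intro a
    rw [pw, map_prod]
    exact Finset.prod_eq_zero (Finset.mem_univ ⟨0, hr0⟩) (hf0 _)
  have hrq : (r : ℚ) ≠ 0 := by exact_mod_cast hr0.ne'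
  have h1 : Zmot (Ideal.span (Set.range (pw f))) ∉ polarRing (s₀ / r) := by
    intro h2
    rw [span_pw, hf, zmot_pow_eq I hr0.ne'] at h2
    exact hpole (polar_of_expand hr0.ne' h2)
  obtain ⟨T, hT⟩ : ∃ T : {S : Finset (Fin r) // S.Nonempty},
      Zmot (germ (linGen (pw f) 1) (pt 0 (unitRow (aS T)))) ∉ polarRing (s₀ / r) := by
    by_contra hcon
    push Not at hcon
    refine h1 (polar_alt (pw f) (fun T => unitRow (aS T)) (fun T => (-1 : ℤ) ^ (T.1.card + 1))
      (alt_one hr0) ?_ hcon)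
    intro k m γ _ hTE
    obtain ⟨u, hu, hv⟩ := vec_pw hr0 f γ hTE
    rw [hv]
    exact alt_sum u hu
  have hs' : ∀ z : ℤ, s₀ / r ≠ z := by
    intro z hz
    apply hs (z * r)
    rw [div_eq_iff hrq] at hz
    rw [hz]
    push_cast
    ring
  have h3 : NearK χ (germ (linGen (pw f) 1) (pt 0 (unitRow (aS T)))) 0 (expo (s₀ / r)) := by
    rw [linGen_one, germ_span_singleton] at hT ⊢
    exact hH _ _ (by rw [eval_aeval_add, eval_gen_pt _ hg0]) _ hs' hT
  have h4 := nearK_of_locPull hχ _ _ _ (locPull_germ (linGen (pw f) 1) (pt 0 (unitRow (aS T)))) _ h3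
  have h5 := nearK_gen hχ (pw f) _ (expo_ne_one hs') (s₀ / r).den_pos (expo_pow_den _) h4
  rw [span_pw, hf] at h5
  have h6 := nearK_pow hχ hr0 h5
  rw [← expo_mul', mul_div_cancel₀ _ hrq] at h6
  exact h6

/-- the main theorem -/
theorem main {χ : K0 →+* ℤ} (hχ : IsEulerCharF χ) :
    (∀ (N : ℕ) (I : Ideal (MvPolynomial (Fin N) ℂ)), (∀ f ∈ I, eval 0 f = 0) →
      MonodromyProperty χ I) ↔
    (∀ (N : ℕ) (T : MvPolynomial (Fin N) ℂ), IsTrilinear T → ∀ c : Fin N → ℂ, eval c T = 0 →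
      MonodromyProperty χ (germ (Ideal.span {T}) c)) := by
  constructor
  · intro h N T _ c hc
    refine h N _ ?_
    rw [germ_span_singleton]
    intro f hf
    obtain ⟨b, rfl⟩ := Ideal.mem_span_singleton.1 hf
    rw [map_mul, eval_aeval_add, hc, zero_mul]
  · intro h N I h0
    exact (mp_iff I).2 (mp_ideal hχ (fun n G hG => mp_hyper hχ h G hG) I h0)

end CB
end MotMono
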