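import Pool.Agent.Lib.MP_4e5fcd_ag.CB.A1
import Pool.Agent.Lib.MP_4e5fcd_ag.HY.C2
import Pool.Agent.Lib.MP_4e5fcd_ag.HY.C3
import Pool.Agent.Lib.MP_4e5fcd_ag.HY.D1

/-!
# CB-P1: the ideals of the class `TameX`

`nearK_of_near`: `I = span (range f)` (Noetherian: as in HY, e.g. `exists_tuple`-like lemma or
`Submodule.fg_iff_exists_fin_generating_family`). `Per` gives `h`, `exists_ball` (HY/C3) a radius `δ`.
Given `ε` let `p`, `‖p‖ < min δ ε`, `Vis χ I p lam`; `PerAt χ I p`, `perT_of_perAt` (HY/A2) a period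
`M > 0`; `sum_ne_zero` (HY/C2): `lam ^ M = 1`, `v ≠ 0`,
`∑_{m ∈ Icc 1 M} lam^m χ (CT f p v m) ≠ 0`. `K₀ = M`: for `K = M k`, `k > 0`, the sum over `Icc 1 K` is
`k` times the sum over `Icc 1 M` (the summands are periodic: `lam^(m+M) = lam^m`,
`χ (CT f p v m) = χ (CT f p v (gcd m M))`), so it is not `0`: `VT χ f p lam K`, and `visK_iff_vt`.

`mp_of_tameX`: `wx_of_tameX` (HY/D1) and `nearK_of_near`.
`mp_curve`: `F = 0`: all coefficients of `Zmot ⊥` are `0` (`ordLocus ⊥ k` is empty; compare the case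
`I = ⊥` in `mp_ideal`, CB-D3), so `Zmot ∈ polarRing`. Otherwise `TameX.base s₀ _ (TameAt.two …)`.
-/

open MvPolynomial

namespace MotMono
namespace CB

open CN HY

variable {N : ℕ}

private theorem P1_icc (g : ℕ → ℂ) (K : ℕ) :
    ∑ d ∈ Finset.Icc 1 K, g d = ∑ i ∈ Finset.range K, g (i + 1) := by
  induction K with
  | zero => simp
  | succ K ih => rw [Finset.sum_Icc_succ_top (by omega), ih, Finset.sum_range_succ]

private theorem P1_per (g : ℕ → ℂ) (M : ℕ) (hg : ∀ d, 0 < d → g (d + M) = g d) (k : ℕ) :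
    ∑ d ∈ Finset.Icc 1 (M * k), g d = k * ∑ d ∈ Finset.Icc 1 M, g d := by
  have hmul : ∀ k d, 0 < d → g (M * k + d) = g d := by
    intro k
    induction k with
    | zero => intro d _; rw [Nat.mul_zero, Nat.zero_add]
    | succ k ih =>
      intro d hd
      rw [show M * (k + 1) + d = (M * k + d) + M by ring, hg _ (by omega), ih d hd]
  rw [P1_icc, P1_icc]
  induction k with
  | zero => simp
  | succ k ih =>
    rw [Nat.mul_succ, Finset.sum_range_add, ih]
    have h1 : ∀ x ∈ Finset.range M, g (M * k + x + 1) = g (x + 1) := fun x _ => by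
      rw [Nat.add_assoc, hmul k (x + 1) (Nat.succ_pos _)]
    rw [Finset.sum_congr rfl h1]
    push_cast
    ring

theorem nearK_of_near {χ : K0 →+* ℤ} (hχ : IsEulerCharF χ) (I : Ideal (MvPolynomial (Fin N) ℂ))
    (lam : ℂ) (hn : CN.Near χ I 0 lam) (hp : Per χ I 0) : NearK χ I 0 lam := by
  classical
  obtain ⟨S, hS⟩ := (isNoetherianRing_iff_ideal_fg (MvPolynomial (Fin N) ℂ)).1 inferInstance I
  let f : Fin S.card → MvPolynomial (Fin N) ℂ := fun j => (S.equivFin.symm j : MvPolynomial (Fin N) ℂ)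
  have hf : Ideal.span (Set.range f) = I := by
    rw [← hS]
    congr 1
    ext g
    constructor
    · rintro ⟨j, rfl⟩
      exact (S.equivFin.symm j).2
    · intro hg
      exact ⟨S.equivFin ⟨g, hg⟩, by simp [f]⟩
  rw [← hf] at hn hp ⊢
  intro ε hε
  obtain ⟨h, h0, hq⟩ := hp
  obtain ⟨δ, hδ, hb⟩ := exists_ball h0
  obtain ⟨p, hpn, hv⟩ := hn (min δ ε) (lt_min hδ hε)
  rw [sub_zero] at hpn
  obtain ⟨M, hM, hper⟩ := perT_of_perAt f p (hq p (hb p (hpn.trans_le (min_le_left _ _))))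
  obtain ⟨hl, -, v, hv0, hne⟩ := sum_ne_zero hχ f p hM hper hv
  refine ⟨M, hM, ?_⟩
  rintro K hK ⟨k, rfl⟩
  have hk : k ≠ 0 := by
    rintro rfl
    simp at hK
  refine ⟨p, by rw [sub_zero]; exact hpn.trans_le (min_le_right _ _), ?_⟩
  rw [visK_iff_vt]
  refine ⟨v, hv0, ?_⟩
  rw [P1_per (fun d => lam ^ d * ((χ (cls (CT f p v d)) : ℤ) : ℂ)) M ?_ k]
  · exact mul_ne_zero (Nat.cast_ne_zero.2 hk) hne
  · intro d hd
    show lam ^ (d + M) * ((χ (cls (CT f p v (d + M))) : ℤ) : ℂ) = lam ^ d * ((χ (cls (CT f p v d)) : ℤ) : ℂ)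
    have h5 : χ (cls (CT f p v (d + M))) = χ (cls (CT f p v d)) :=
      (hper v hv0 (d + M) (by omega)).trans ((congrArg (fun m => χ (cls (CT f p v m)))
        (show Nat.gcd (d + M) M = Nat.gcd d M by simp)).trans (hper v hv0 d hd).symm)
    rw [pow_add, hl, mul_one, h5]

theorem mp_of_tameX {χ : K0 →+* ℤ} (hχ : IsEulerCharF χ) (I : Ideal (MvPolynomial (Fin N) ℂ))
    (h : ∀ s₀ : ℚ, (∀ z : ℤ, s₀ ≠ z) → TameX χ s₀ I) : MP χ I := by
  intro s₀ hs hpole
  obtain ⟨h1, -, h3⟩ := wx_of_tameX hχ s₀ I (h s₀ hs)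
  rcases h1 with h1 | h1
  · exact nearK_of_near hχ I _ h1 h3
  · exact absurd h1 hpole

theorem mp_curve {χ : K0 →+* ℤ} (hχ : IsEulerCharF χ) (F : MvPolynomial (Fin 2) ℂ)
    (h0 : eval 0 F = 0) : MP χ (Ideal.span {F}) := by
  by_cases hF : F = 0
  · subst hF
    intro s₀ _ hpole
    exfalso
    apply hpole
    have hz : Zmot (Ideal.span {(0 : MvPolynomial (Fin 2) ℂ)}) = 0 := by
      ext k
      rw [Zmot, PowerSeries.coeff_mk]
      have he : ordLocus (Ideal.span {(0 : MvPolynomial (Fin 2) ℂ)}) k = ∅ := by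
        rw [Set.eq_empty_iff_forall_notMem]
        rintro γ ⟨-, -, g, hg, hne⟩
        obtain ⟨b, rfl⟩ := Ideal.mem_span_singleton.1 hg
        apply hne
        rw [zero_mul]
        simp [along]
      rw [he, cls_empty, map_zero, zero_mul, map_zero]
    rw [hz]
    exact Subring.zero_mem _
  · refine mp_of_tameX hχ _ fun s₀ _ => TameX.base s₀ _ (TameAt.two s₀ _ ?_ ?_)
    · intro hb
      exact hF (Ideal.span_singleton_eq_bot.1 hb)
    · intro f hf
      obtain ⟨b, rfl⟩ := Ideal.mem_span_singleton.1 hf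
      rw [map_mul, h0, zero_mul]

end CB
end MotMono
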