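import Pool.Agent.Lib.MP_4e5fcd_ag.CB.A7
import Pool.Agent.Lib.MP_4e5fcd_ag.CB.A8
import Pool.Agent.Lib.MP_4e5fcd_ag.CB.B8
import Pool.Agent.Lib.MP_4e5fcd_ag.CB.D3
import Pool.Agent.Lib.MP_4e5fcd_ag.CB.P1

/-!
# CB-D4: every hypersurface germ has the poles and eigenvalues of a trilinear form
-/

open MvPolynomial

namespace MotMono
namespace CB

open CN HY

/-- the same poles up to the shift `m`, and the same visible values -/
def Sim {n k : ℕ} (I : Ideal (MvPolynomial (Fin n) ℂ)) (J : Ideal (MvPolynomial (Fin k) ℂ))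
    (m : ℕ) : Prop :=
  ∀ s₀ : ℚ, (∀ z : ℤ, s₀ ≠ z) → (Zmot I ∈ polarRing s₀ ↔ Zmot J ∈ polarRing (s₀ - m)) ∧
    ∀ χ : K0 →+* ℤ, IsEulerCharF χ → (NearK χ I 0 (expo s₀) ↔ NearK χ J 0 (expo s₀))

theorem Sim.symm_trans {n k l : ℕ} {I : Ideal (MvPolynomial (Fin n) ℂ)}
    {J : Ideal (MvPolynomial (Fin k) ℂ)} {G : Ideal (MvPolynomial (Fin l) ℂ)} {m : ℕ}
    (h1 : Sim J I 0) (h2 : Sim J G m) : Sim I G m := by
  intro s₀ hs
  obtain ⟨a1, b1⟩ := h1 s₀ hs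
  obtain ⟨a2, b2⟩ := h2 s₀ hs
  rw [Nat.cast_zero, sub_zero] at a1
  exact ⟨a1.symm.trans a2, fun χ hχ => (b1 χ hχ).symm.trans (b2 χ hχ)⟩

theorem Sim.trans {n k l : ℕ} {I : Ideal (MvPolynomial (Fin n) ℂ)}
    {J : Ideal (MvPolynomial (Fin k) ℂ)} {G : Ideal (MvPolynomial (Fin l) ℂ)} {m m' : ℕ}
    (h1 : Sim I J m) (h2 : Sim J G m') : Sim I G (m + m') := by
  intro s₀ hs
  obtain ⟨a1, b1⟩ := h1 s₀ hs
  have hs' : ∀ z : ℤ, s₀ - m ≠ z := fun z hz => hs (z + m) (by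
    rw [sub_eq_iff_eq_add] at hz
    rw [hz]
    push_cast
    ring)
  obtain ⟨a2, b2⟩ := h2 (s₀ - m) hs'
  have he : expo (s₀ - m) = expo s₀ := by
    have h : 2 * (Real.pi : ℂ) * Complex.I * ((s₀ : ℚ) : ℂ) =
        2 * Real.pi * Complex.I * ((s₀ - m : ℚ) : ℂ) + (m : ℤ) * (2 * Real.pi * Complex.I) := by
      push_cast
      ring
    unfold expo
    rw [h, Complex.exp_add, Complex.exp_int_mul_two_pi_mul_I, mul_one]
  rw [he] at b2
  have h3 : s₀ - (m + m' : ℕ) = s₀ - m - m' := by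
    push_cast
    ring
  rw [h3]
  exact ⟨a1.trans a2, fun χ hχ => (b1 χ hχ).trans (b2 χ hχ)⟩

theorem sim_locPull {n k : ℕ} {I : Ideal (MvPolynomial (Fin n) ℂ)}
    {G : Ideal (MvPolynomial (Fin k) ℂ)} (h : LocPull I 0 G) : Sim I G 0 := by
  intro s₀ _
  rw [Nat.cast_zero, sub_zero]
  exact ⟨⟨fun h1 => zmot_push _ _ h h1, fun h1 => zmot_pull' _ _ h h1⟩, fun χ hχ =>
    ⟨fun h1 => nearK_push hχ _ _ _ h _ h1, fun h1 => nearK_of_locPull hχ _ _ _ h _ h1⟩⟩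

theorem sim_hyp {n : ℕ} (G : MvPolynomial (Fin n) ℂ) (h0 : eval 0 G = 0) :
    Sim (Ideal.span {G}) (Ideal.span {hyp G}) 1 := by
  intro s₀ hs
  rw [Nat.cast_one]
  exact ⟨⟨fun h1 => polar_hyp' G h0 hs h1, fun h1 => polar_hyp G h0 hs h1⟩, fun χ hχ =>
    ⟨fun h1 => nearK_hyp' hχ G h1, fun h1 =>
      nearK_hyp hχ G (expo_ne_one hs) s₀.den_pos (expo_pow_den s₀) h1⟩⟩

theorem sim_trilinear {n : ℕ} (F : MvPolynomial (Fin n) ℂ) (h0 : eval 0 F = 0) :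
    ∃ (N : ℕ) (T : MvPolynomial (Fin N) ℂ) (c : Fin N → ℂ) (m : ℕ), IsTrilinear T ∧
      eval c T = 0 ∧ Sim (Ideal.span {F}) (germ (Ideal.span {T}) c) m := by
  refine reduce (fun n F => ∃ (N : ℕ) (T : MvPolynomial (Fin N) ℂ) (c : Fin N → ℂ) (m : ℕ),
    IsTrilinear T ∧ eval c T = 0 ∧ Sim (Ideal.span {F}) (germ (Ideal.span {T}) c) m) ?_ ?_ n F h0
  · rintro n F hF ⟨κ, hκ⟩
    obtain ⟨T, c, hT1, hc, hl⟩ := homogenize F hF κ hκ
    exact ⟨n + 3, T, c, 0, hT1, hc, (sim_locPull (locPull_rename F)).symm_trans (sim_locPull hl)⟩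
  · rintro n G A B hG hA hB ⟨N, T, c, m, hT1, hc, h⟩
    exact ⟨N, T, c, 1 + m, hT1, hc,
      (sim_hyp G hG).trans (by simpa only [zero_add] using (sim_locPull (locPull_stp G A B hA hB)).trans h)⟩

/-- every hypersurface germ has the same poles, up to a shift by an integer, and the same
eigenvalues as a trilinear form at some point -/
theorem universal {n : ℕ} (F : MvPolynomial (Fin n) ℂ) (h0 : eval 0 F = 0) :
    ∃ (N : ℕ) (T : MvPolynomial (Fin N) ℂ) (c : Fin N → ℂ) (m : ℕ), IsTrilinear T ∧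
      eval c T = 0 ∧ ∀ s₀ : ℚ, (∀ z : ℤ, s₀ ≠ z) →
        (IsPole (Zmot (Ideal.span {F})) s₀ ↔
          IsPole (Zmot (germ (Ideal.span {T}) c)) (s₀ - m)) ∧
        ∀ χ : K0 →+* ℤ, IsEulerCharF χ →
          (ZeroOrPoleNear χ (Ideal.span {F}) (Complex.exp (2 * Real.pi * Complex.I * s₀)) ↔
            ZeroOrPoleNear χ (germ (Ideal.span {T}) c)
              (Complex.exp (2 * Real.pi * Complex.I * s₀))) := by
  obtain ⟨N, T, c, m, h1, h2, h3⟩ := sim_trilinear F h0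
  refine ⟨N, T, c, m, h1, h2, fun s₀ hs => ?_⟩
  obtain ⟨h4, h5⟩ := h3 s₀ hs
  refine ⟨not_congr h4, fun χ hχ => ?_⟩
  rw [nearK_iff, nearK_iff]
  exact h5 χ hχ

/-- plane curves -/
theorem curve {χ : K0 →+* ℤ} (hχ : IsEulerCharF χ) (F : MvPolynomial (Fin 2) ℂ)
    (h0 : eval 0 F = 0) : MonodromyProperty χ (Ideal.span {F}) :=
  (mp_iff _).2 (mp_curve hχ F h0)

end CB
end MotMono
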