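import Pool.Agent.Lib.MP_4e5fcd_ag.CN.Defs

/-!
# Reduction of the motivic monodromy conjecture for ideals to trilinear forms: definitions of the
statement

* `lefSum χ I p y Λ K`: the sum of `χ(A_d) Λ^d`, `1 ≤ d ≤ K`, where `A_d` is the set of the contact
  `d`-jets of `I` at the point `y` of the normal cone over `p`;
* `ZeroOrPoleNear χ I Λ`: `Λ` is a zero or pole of the monodromy zeta function of `I` at points of
  the normal cone arbitrarily near the origin;
* `MonodromyProperty χ I`: the statement of the motivic monodromy conjecture for `I`, for all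
  `s₀` which are not integers;
* `IsTrilinear T`: `T` is a trilinear form.
-/

open MvPolynomial

namespace MotMono

/-- The sum of `χ(A_d) Λ^d`, `1 ≤ d ≤ K`, over the contact jets at `y`. By the A'Campo-type formula
`χ(A_d)` is the sum of `N_j χ(E_j°∩ψ⁻¹(e))` over the `j` with `N_j ∣ d`, so that for `Λ^K = 1` and
`K` divisible by all `N_j` the sum is `K` times the order at `Λ` of the monodromy zeta function. -/
noncomputable def lefSum (χ : K0 →+* ℤ) {N : ℕ} (I : Ideal (MvPolynomial (Fin N) ℂ))
    (p : Fin N → ℂ) (y : ConePoint I p) (Λ : ℂ) (K : ℕ) : ℂ :=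
  ∑ d ∈ Finset.Icc 1 K, ((χ (cls (contactArcs I p y d)) : ℤ) : ℂ) * Λ ^ d

/-- In every ball around the origin there is, for all sufficiently divisible `K`, a point `p` of the
zero set of `I` and a point `y` of the normal cone over `p`, not on the zero section, with
`lefSum χ I p y Λ K ≠ 0`. By the A'Campo-type formula, whose exponents `N_j` are the same for all
`y`, this means that `Λ` is a zero or pole of the monodromy zeta function at some such `y`. -/
def ZeroOrPoleNear (χ : K0 →+* ℤ) {N : ℕ} (I : Ideal (MvPolynomial (Fin N) ℂ)) (Λ : ℂ) : Prop :=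
  ∀ ε : ℝ, 0 < ε → ∃ K₀ : ℕ, 0 < K₀ ∧ ∀ K : ℕ, 0 < K → K₀ ∣ K →
    ∃ p : Fin N → ℂ, ‖p‖ < ε ∧ (∀ f ∈ I, eval p f = 0) ∧
      ∃ y : ConePoint I p, y.Nonzero ∧ lefSum χ I p y Λ K ≠ 0

/-- The statement of the motivic monodromy conjecture for the ideal `I` at the origin and all `s₀`
which are not integers: if `L^(-s₀)` is a pole of the motivic zeta function of `I`, then
`exp (2πi s₀)` is a zero or pole of the monodromy zeta function at points of the normal cone
arbitrarily near the origin. -/
def MonodromyProperty (χ : K0 →+* ℤ) {N : ℕ} (I : Ideal (MvPolynomial (Fin N) ℂ)) : Prop :=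
  ∀ s₀ : ℚ, (∀ z : ℤ, s₀ ≠ z) → IsPole (Zmot I) s₀ →
    ZeroOrPoleNear χ I (Complex.exp (2 * Real.pi * Complex.I * s₀))

/-- `T` is a trilinear form: the variables are divided into three groups, and every monomial of `T`
is a product of one variable of each group. -/
def IsTrilinear {N : ℕ} (T : MvPolynomial (Fin N) ℂ) : Prop :=
  ∃ κ : Fin N → Fin 3, ∀ m ∈ T.support, ∀ a : Fin 3, ∑ i with κ i = a, m i = 1

end MotMono
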