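import Pool.Agent.Lib.MP_4e5fcd_ag.CB.Base

/-!
# CB-R1: lists of coloured monomials

A polynomial is given by a multiset `L` of pairs (coefficient, exponent): `pol L`. Colours:
`κ : Fin n → Fin 3`; `dg κ a m = ∑_{κ i = a} m i` is the degree of `m` in the variables of colour `a`.
`Inv κ m`: `m ≠ 0`, degree at most `1` in the colours `0` and `2`, and degree `0` in the colour `0` if
the degree in the colour `1` is at least `2`. `mu κ L = ∑ (dg κ 1 m - 1)` (truncated subtraction).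

`step`: let `L = (c, m) ::ₘ L₀`, `dg κ 1 m ≥ 2`, all exponents satisfy `Inv κ`. Then there are `A`, `B`
with `A (0) = B (0) = 0`, a colouring `κ'` of `Fin (n + 2)` and `L'` with
`pol L' = stp (pol L) A B`, all exponents in `L'` satisfy `Inv κ'`, `mu κ' L' < mu κ L`.
Proof. Choose `k` with `κ k = 1`, `m k ≠ 0`. Let `mC` be `m` restricted to the colour `2`, `mB` to the
colour `1`; as `dg κ 0 m = 0`, `m = mB + mC`. `P = mC + single k 1`, `Q = mB - single k 1`:
`m = P + Q`, `P ≠ 0`, `Q ≠ 0` (its degree is `dg κ 1 m - 1 ≥ 1`). `A = - monomial P c`,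
`B = monomial Q 1`; `eval 0` of a monomial with non-zero exponent is `0`.
`κ' = Fin.addCases κ ![2, 0]` (`u = natAdd n 0` has colour `2`, `v = natAdd n 1` colour `0`).
Let `ι m = Finsupp.mapDomain (castAdd 2) m` (or `Finsupp.embDomain`), `rename` of a monomial is the
monomial of `ι m`. `stp (pol L) A B = rename (pol L₀) + monomial (ι m) c
  + (u - monomial (ι P) c) (v + monomial (ι Q) 1)
 = rename (pol L₀) + u v + u x^Q - c x^P v`, as `monomial (ι P) c * monomial (ι Q) 1 = monomial (ι m) c`.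
So `L' = (map ι L₀) + {(1, e_u + e_v), (1, e_u + ι Q), (-c, ι P + e_v)}`. Degrees:
`e_u + e_v`: `(1, 0, 1)` in the colours `(0, 1, 2)`; `e_u + ι Q`: `(0, dg κ 1 m - 1, 1)`;
`ι P + e_v`: `(1, 1, dg κ 2 m)`. `dg κ' a (ι m') = dg κ a m'`. Hence `Inv` and
`mu κ' L' = mu κ L₀ + 0 + (dg κ 1 m - 2) + 0 < mu κ L₀ + (dg κ 1 m - 1) = mu κ L`.
-/

open MvPolynomial

namespace MotMono
namespace CB

/-- the polynomial of a list of monomials -/
noncomputable def pol {n : ℕ} (L : Multiset (ℂ × (Fin n →₀ ℕ))) : MvPolynomial (Fin n) ℂ :=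
  (L.map fun t => monomial t.2 t.1).sum

/-- the degree in the variables of colour `a` -/
def dg {n : ℕ} (κ : Fin n → Fin 3) (a : Fin 3) (m : Fin n →₀ ℕ) : ℕ := ∑ i with κ i = a, m i

/-- the invariant -/
def Inv {n : ℕ} (κ : Fin n → Fin 3) (m : Fin n →₀ ℕ) : Prop :=
  m ≠ 0 ∧ dg κ 0 m ≤ 1 ∧ dg κ 2 m ≤ 1 ∧ (2 ≤ dg κ 1 m → dg κ 0 m = 0)

/-- the measure of the induction -/
def mu {n : ℕ} (κ : Fin n → Fin 3) (L : Multiset (ℂ × (Fin n →₀ ℕ))) : ℕ :=
  (L.map fun t => dg κ 1 t.2 - 1).sum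

private theorem r1_dg_add {n : ℕ} (κ : Fin n → Fin 3) (a : Fin 3) (m m' : Fin n →₀ ℕ) :
    dg κ a (m + m') = dg κ a m + dg κ a m' := by
  unfold dg
  rw [← Finset.sum_add_distrib]
  rfl

private theorem r1_dg_single {n : ℕ} (κ : Fin n → Fin 3) (a : Fin 3) (i : Fin n) (k : ℕ) :
    dg κ a (Finsupp.single i k) = if κ i = a then k else 0 := by
  classical
  unfold dg
  rw [Finset.sum_filter, Finset.sum_eq_single i]
  · rw [Finsupp.single_eq_same]
  · intro j _ hj
    rw [Finsupp.single_eq_of_ne hj]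
    simp
  · intro h
    exact absurd (Finset.mem_univ i) h

private theorem r1_dg_filter {n : ℕ} (κ : Fin n → Fin 3) (a b : Fin 3) (m : Fin n →₀ ℕ) :
    dg κ a (m.filter fun i => κ i = b) = if a = b then dg κ b m else 0 := by
  classical
  unfold dg
  by_cases h : a = b
  · rw [if_pos h, h]
    refine Finset.sum_congr rfl fun i hi => ?_
    rw [Finsupp.filter_apply, if_pos (Finset.mem_filter.1 hi).2]
  · rw [if_neg h]
    refine Finset.sum_eq_zero fun i hi => ?_
    rw [Finsupp.filter_apply, if_neg]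
    rw [(Finset.mem_filter.1 hi).2]
    exact h

/-- the exponents in the new variables -/
private noncomputable def r1_i {n : ℕ} (m : Fin n →₀ ℕ) : Fin (n + 2) →₀ ℕ :=
  Finsupp.mapDomain (Fin.castAdd 2) m

private theorem r1_i_add {n : ℕ} (m m' : Fin n →₀ ℕ) : r1_i (m + m') = r1_i m + r1_i m' :=
  Finsupp.mapDomain_add

private theorem r1_i_ne {n : ℕ} {m : Fin n →₀ ℕ} (h : m ≠ 0) : r1_i m ≠ 0 := by
  intro h0
  apply h
  have := Finsupp.mapDomain_injective (M := ℕ) (Fin.castAdd_injective n 2)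
  apply this
  rw [Finsupp.mapDomain_zero]
  exact h0

/-- the new colours -/
private def r1_k {n : ℕ} (κ : Fin n → Fin 3) : Fin (n + 2) → Fin 3 :=
  Fin.addCases κ ![2, 0]

private theorem r1_k0 {n : ℕ} (κ : Fin n → Fin 3) (i : Fin n) :
    r1_k κ (Fin.castAdd 2 i) = κ i := by
  unfold r1_k
  rw [Fin.addCases_left]

private theorem r1_k1 {n : ℕ} (κ : Fin n → Fin 3) : r1_k κ (Fin.natAdd n 0) = 2 := by
  unfold r1_k
  rw [Fin.addCases_right]
  rfl

private theorem r1_k2 {n : ℕ} (κ : Fin n → Fin 3) : r1_k κ (Fin.natAdd n 1) = 0 := by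
  unfold r1_k
  rw [Fin.addCases_right]
  rfl

private theorem r1_dg_i {n : ℕ} (κ : Fin n → Fin 3) (a : Fin 3) (m : Fin n →₀ ℕ) :
    dg (r1_k κ) a (r1_i m) = dg κ a m := by
  classical
  unfold dg
  rw [Finset.sum_filter, Finset.sum_filter, Fin.sum_univ_add]
  have h1 : ∀ j : Fin 2, r1_i m (Fin.natAdd n j) = 0 := by
    intro j
    unfold r1_i
    apply Finsupp.mapDomain_notin_range
    rintro ⟨i, hi⟩
    have := congrArg Fin.val hi
    simp only [Fin.val_castAdd, Fin.val_natAdd] at this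
    omega
  have h2 : ∀ i : Fin n, r1_i m (Fin.castAdd 2 i) = m i := fun i =>
    Finsupp.mapDomain_apply (Fin.castAdd_injective n 2) m i
  simp only [h1, h2, r1_k0, ite_self, Finset.sum_const_zero, add_zero]

private theorem r1_eval {n : ℕ} {m : Fin n →₀ ℕ} (h : m ≠ 0) (c : ℂ) :
    eval 0 (monomial m c) = 0 := by
  classical
  rw [MvPolynomial.eval_zero, constantCoeff_monomial, if_neg h]

private theorem r1_ren {n : ℕ} (m : Fin n →₀ ℕ) (c : ℂ) :
    rename (Fin.castAdd 2) (monomial m c) = monomial (r1_i m) c :=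
  rename_monomial _ _ _

theorem step {n : ℕ} (κ : Fin n → Fin 3) (c : ℂ) (m : Fin n →₀ ℕ)
    (L₀ : Multiset (ℂ × (Fin n →₀ ℕ))) (hm : 2 ≤ dg κ 1 m) (hi : Inv κ m)
    (hL : ∀ t ∈ L₀, Inv κ t.2) :
    ∃ (A B : MvPolynomial (Fin n) ℂ) (κ' : Fin (n + 2) → Fin 3)
      (L' : Multiset (ℂ × (Fin (n + 2) →₀ ℕ))), eval 0 A = 0 ∧ eval 0 B = 0 ∧
      pol L' = stp (pol ((c, m) ::ₘ L₀)) A B ∧ (∀ t ∈ L', Inv κ' t.2) ∧
      mu κ' L' < mu κ ((c, m) ::ₘ L₀) := by
  classical
  obtain ⟨k, hk1, hk2⟩ : ∃ k, κ k = 1 ∧ m k ≠ 0 := by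
    by_contra hcon
    push Not at hcon
    have : dg κ 1 m = 0 := by
      unfold dg
      exact Finset.sum_eq_zero fun i hi => hcon i (Finset.mem_filter.1 hi).2
    omega
  set P : Fin n →₀ ℕ := (m.filter fun i => κ i = 2) + Finsupp.single k 1 with hP
  have hPm : P ≤ m := by
    intro i
    rw [hP, Finsupp.add_apply, Finsupp.filter_apply, Finsupp.single_apply]
    by_cases h1 : κ i = 2
    · rw [if_pos h1, if_neg]
      · exact le_of_eq (add_zero _)
      · rintro rfl
        rw [hk1] at h1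
        exact absurd h1 (by decide)
    · rw [if_neg h1, zero_add]
      split_ifs with h2
      · rw [← h2]
        omega
      · exact Nat.zero_le _
  set Q : Fin n →₀ ℕ := m - P with hQ
  have hPQ : P + Q = m := add_tsub_cancel_of_le hPm
  have hdP : ∀ a, dg κ a P = (if a = 2 then dg κ 2 m else 0) + if (1 : Fin 3) = a then 1 else 0 := by
    intro a
    rw [hP, r1_dg_add, r1_dg_filter, r1_dg_single, hk1]
  have hP0 : dg κ 0 P = 0 := by rw [hdP]; rfl
  have hP1 : dg κ 1 P = 1 := by rw [hdP]; rfl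
  have hP2 : dg κ 2 P = dg κ 2 m := by rw [hdP]; rfl
  have hdm : ∀ a, dg κ a P + dg κ a Q = dg κ a m := fun a => by rw [← r1_dg_add, hPQ]
  have hm0 : dg κ 0 m = 0 := hi.2.2.2 hm
  have hQ0 : dg κ 0 Q = 0 := by have := hdm 0; omega
  have hQ1 : dg κ 1 Q = dg κ 1 m - 1 := by have := hdm 1; omega
  have hQ2 : dg κ 2 Q = 0 := by have := hdm 2; omega
  have hPne : P ≠ 0 := by
    intro h0
    rw [h0] at hP1
    have : dg κ 1 (0 : Fin n →₀ ℕ) = 0 := by
      unfold dg
      exact Finset.sum_eq_zero fun i _ => rfl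
    omega
  have hQne : Q ≠ 0 := by
    intro h0
    rw [h0] at hQ1
    have : dg κ 1 (0 : Fin n →₀ ℕ) = 0 := by
      unfold dg
      exact Finset.sum_eq_zero fun i _ => rfl
    omega
  set eu : Fin (n + 2) →₀ ℕ := Finsupp.single (Fin.natAdd n 0) 1 with heu
  set ev : Fin (n + 2) →₀ ℕ := Finsupp.single (Fin.natAdd n 1) 1 with hev
  have hdu : ∀ a, dg (r1_k κ) a eu = if (2 : Fin 3) = a then 1 else 0 := by
    intro a
    rw [heu, r1_dg_single, r1_k1]
  have hdv : ∀ a, dg (r1_k κ) a ev = if (0 : Fin 3) = a then 1 else 0 := by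
    intro a
    rw [hev, r1_dg_single, r1_k2]
  have heu0 : eu ≠ 0 := Finsupp.single_ne_zero.2 one_ne_zero
  have hev0 : ev ≠ 0 := Finsupp.single_ne_zero.2 one_ne_zero
  have hne : ∀ x y : Fin (n + 2) →₀ ℕ, x ≠ 0 → x + y ≠ 0 := by
    intro x y hx h0
    exact hx (add_eq_zero.1 h0).1
  refine ⟨monomial P (-c), monomial Q 1, r1_k κ,
    L₀.map (fun t => (t.1, r1_i t.2)) + {(1, eu + ev), (1, eu + r1_i Q), (-c, r1_i P + ev)},
    r1_eval hPne _, r1_eval hQne _, ?_, ?_, ?_⟩
  · have e1 : pol (L₀.map (fun t => (t.1, r1_i t.2))) = rename (Fin.castAdd 2) (pol L₀) := by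
      unfold pol
      rw [map_multiset_sum, Multiset.map_map, Multiset.map_map]
      refine congrArg Multiset.sum (Multiset.map_congr rfl fun t _ => ?_)
      exact (r1_ren t.2 t.1).symm
    have e2 : pol (L₀.map (fun t => (t.1, r1_i t.2)) +
        {((1 : ℂ), eu + ev), ((1 : ℂ), eu + r1_i Q), (-c, r1_i P + ev)}) =
        rename (Fin.castAdd 2) (pol L₀) + (monomial (eu + ev) 1 + (monomial (eu + r1_i Q) 1 +
          monomial (r1_i P + ev) (-c))) := by
      rw [← e1]
      unfold pol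
      rw [Multiset.map_add, Multiset.sum_add]
      simp only [Multiset.insert_eq_cons, Multiset.map_cons, Multiset.map_singleton,
        Multiset.sum_cons, Multiset.sum_singleton]
    have e3 : pol ((c, m) ::ₘ L₀) = monomial m c + pol L₀ := by
      unfold pol
      rw [Multiset.map_cons, Multiset.sum_cons]
    have e4 : (X (Fin.natAdd n 0) : MvPolynomial (Fin (n + 2)) ℂ) = monomial eu 1 := rfl
    have e5 : (X (Fin.natAdd n 1) : MvPolynomial (Fin (n + 2)) ℂ) = monomial ev 1 := rfl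
    have e6 : (monomial (r1_i m) c : MvPolynomial (Fin (n + 2)) ℂ) =
        -(monomial (r1_i P) (-c) * monomial (r1_i Q) 1) := by
      rw [monomial_mul, ← r1_i_add, hPQ, mul_one, ← map_neg, neg_neg]
    have e7 : (monomial (eu + ev) 1 : MvPolynomial (Fin (n + 2)) ℂ) =
        monomial eu 1 * monomial ev 1 := by
      rw [monomial_mul, mul_one]
    have e8 : (monomial (eu + r1_i Q) 1 : MvPolynomial (Fin (n + 2)) ℂ) =
        monomial eu 1 * monomial (r1_i Q) 1 := by
      rw [monomial_mul, mul_one]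
    have e9 : (monomial (r1_i P + ev) (-c) : MvPolynomial (Fin (n + 2)) ℂ) =
        monomial (r1_i P) (-c) * monomial ev 1 := by
      rw [monomial_mul, mul_one]
    rw [e2, e3]
    unfold stp
    rw [map_add, r1_ren, r1_ren, r1_ren, e4, e5, e6, e7, e8, e9]
    ring
  · intro t ht
    rw [Multiset.mem_add, Multiset.mem_map] at ht
    rcases ht with ⟨t', ht', rfl⟩ | ht
    · obtain ⟨i1, i2, i3, i4⟩ := hL t' ht'
      refine ⟨r1_i_ne i1, ?_, ?_, ?_⟩
      · rw [r1_dg_i]; exact i2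
      · rw [r1_dg_i]; exact i3
      · rw [r1_dg_i, r1_dg_i]; exact i4
    · simp only [Multiset.insert_eq_cons, Multiset.mem_cons, Multiset.mem_singleton] at ht
      rcases ht with rfl | rfl | rfl
      · refine ⟨hne _ _ heu0, ?_, ?_, ?_⟩
        · rw [r1_dg_add, hdu, hdv]; decide
        · rw [r1_dg_add, hdu, hdv]; decide
        · rw [r1_dg_add, hdu, hdv]
          intro h
          exact absurd h (by decide)
      · refine ⟨hne _ _ heu0, ?_, ?_, ?_⟩
        · rw [r1_dg_add, hdu, r1_dg_i, hQ0]; decide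
        · rw [r1_dg_add, hdu, r1_dg_i, hQ2]; decide
        · intro _
          rw [r1_dg_add, hdu, r1_dg_i, hQ0]; decide
      · refine ⟨hne _ _ (r1_i_ne hPne), ?_, ?_, ?_⟩
        · rw [r1_dg_add, hdv, r1_dg_i, hP0]; decide
        · rw [r1_dg_add, hdv, r1_dg_i, hP2]
          exact hi.2.2.1
        · rw [r1_dg_add, hdv, r1_dg_i, hP1]
          intro h
          exact absurd h (by decide)
  · have f1 : mu (r1_k κ) (L₀.map (fun t => (t.1, r1_i t.2)) +
        {((1 : ℂ), eu + ev), ((1 : ℂ), eu + r1_i Q), (-c, r1_i P + ev)}) =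
        mu κ L₀ + ((dg (r1_k κ) 1 (eu + ev) - 1) + ((dg (r1_k κ) 1 (eu + r1_i Q) - 1) +
          (dg (r1_k κ) 1 (r1_i P + ev) - 1))) := by
      unfold mu
      rw [Multiset.map_add, Multiset.sum_add, Multiset.map_map]
      simp only [Multiset.insert_eq_cons, Multiset.map_cons, Multiset.map_singleton,
        Multiset.sum_cons, Multiset.sum_singleton, Function.comp_def, r1_dg_i]
    have f2 : mu κ ((c, m) ::ₘ L₀) = (dg κ 1 m - 1) + mu κ L₀ := by
      unfold mu
      rw [Multiset.map_cons, Multiset.sum_cons]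
    have f3 : dg (r1_k κ) 1 (eu + ev) = 0 := by rw [r1_dg_add, hdu, hdv]; rfl
    have f4 : dg (r1_k κ) 1 (eu + r1_i Q) = dg κ 1 m - 1 := by
      rw [r1_dg_add, hdu, r1_dg_i, hQ1]
      exact Nat.zero_add _
    have f5 : dg (r1_k κ) 1 (r1_i P + ev) = 1 := by rw [r1_dg_add, hdv, r1_dg_i, hP1]; rfl
    rw [f1, f2, f3, f4, f5]
    omega

end CB
end MotMono
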