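import Pool.Agent.Lib.MP_4e5fcd_ag.CB.Base
import Pool.Agent.Lib.MP_4e5fcd_ag.HY.A3

/-!
# CB-V0: linear relations between classes

Proof. For `J : Finset ι` (decidable by `Classical`) let
`B_J = {x | ∀ i, x ∈ A i ↔ i ∈ J}` (an atom); it is constructible: it is the intersection over the
finite type `ι` of `A i` (for `i ∈ J`) or `(A i)ᶜ` (`i ∉ J`): `constr_iInter`. The atoms are disjoint,
their union is everything. `A i = ⋃_{J ∋ i} B_J`, `B = ⋃_J (B ∩ B_J)`; by `cls_biUnion`
`cls (A i) = ∑_{J ∋ i} cls B_J`, `cls B = ∑_J cls (B ∩ B_J)`. Exchange the sums: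
`∑ i, a i cls (A i) = ∑_J (∑_{i ∈ J} a i) cls B_J`. For each `J`: if `B_J` is empty its class is `0`,
and so is that of `B ∩ B_J`. Otherwise take `x ∈ B_J`: `h x` says
`∑_{i ∈ J} a i = if x ∈ B then 1 else 0`; this number `c_J` is the same for all `x ∈ B_J`, so
`B ∩ B_J` is `B_J` (if `c_J = 1`) or `∅` (if `c_J = 0`), and `c_J cls B_J = cls (B ∩ B_J)`.
-/

open MvPolynomial

namespace MotMono
namespace CB

open CN HY

/-- the atoms of the family `A` -/
private def V0_at {σ ι : Type} (A : ι → Set (σ → ℂ)) (J : Finset ι) : Set (σ → ℂ) :=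
  {x | ∀ i, x ∈ A i ↔ i ∈ J}

open Classical in
private theorem V0_constr {σ ι : Type} [Fintype ι] (A : ι → Set (σ → ℂ)) (hA : ∀ i, Constr (A i))
    (J : Finset ι) : Constr (V0_at A J) := by
  have h : Constr (⋂ i : ι, if i ∈ J then A i else (A i)ᶜ) := by
    refine constr_iInter fun i => ?_
    split_ifs
    · exact hA i
    · exact (hA i).compl
  have e : (⋂ i : ι, if i ∈ J then A i else (A i)ᶜ) = V0_at A J := by
    ext x
    simp only [Set.mem_iInter, V0_at, Set.mem_ofPred_eq]
    refine forall_congr' fun i => ?_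
    by_cases hi : i ∈ J
    · simp [hi]
    · simp [hi]
  rwa [e] at h

private theorem V0_disj {σ ι : Type} (A : ι → Set (σ → ℂ)) (J J' : Finset ι) (h : J ≠ J') :
    Disjoint (V0_at A J) (V0_at A J') := by
  rw [Set.disjoint_left]
  intro x hx hx'
  refine h ?_
  ext i
  exact (hx i).symm.trans (hx' i)

open Classical in
private theorem V0_mem {σ ι : Type} [Fintype ι] (A : ι → Set (σ → ℂ)) (x : σ → ℂ) :
    x ∈ V0_at A (Finset.univ.filter fun i => x ∈ A i) := by
  intro i
  simp

open Classical in
private theorem V0_cls {σ ι : Type} [Finite σ] [Fintype ι] (A : ι → Set (σ → ℂ))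
    (hA : ∀ i, Constr (A i)) (i : ι) :
    cls (A i) = ∑ J : Finset ι, if i ∈ J then cls (V0_at A J) else 0 := by
  have h1 : A i = ⋃ J ∈ (Finset.univ.filter fun J : Finset ι => i ∈ J), V0_at A J := by
    ext x
    simp only [Set.mem_iUnion, Finset.mem_filter, Finset.mem_univ, true_and, exists_prop]
    constructor
    · intro hx
      exact ⟨Finset.univ.filter fun i => x ∈ A i, by simpa using hx, V0_mem A x⟩
    · rintro ⟨J, hiJ, hx⟩
      exact (hx i).2 hiJ
  conv_lhs => rw [h1]
  rw [cls_biUnion _ (fun J _ => V0_constr A hA J) (fun J _ J' _ h => V0_disj A J J' h),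
    Finset.sum_filter]

open Classical in
private theorem V0_clsB {σ ι : Type} [Finite σ] [Fintype ι] (A : ι → Set (σ → ℂ))
    (hA : ∀ i, Constr (A i)) (B : Set (σ → ℂ)) (hB : Constr B) :
    cls B = ∑ J : Finset ι, cls (B ∩ V0_at A J) := by
  have h1 : B = ⋃ J ∈ (Finset.univ : Finset (Finset ι)), B ∩ V0_at A J := by
    ext x
    simp only [Set.mem_iUnion, Finset.mem_univ, exists_prop, true_and, Set.mem_inter_iff,
      exists_and_left]
    constructor
    · intro hx
      exact ⟨hx, _, V0_mem A x⟩
    · exact fun hx => hx.1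
  conv_lhs => rw [h1]
  rw [cls_biUnion _ (fun J _ => hB.inter (V0_constr A hA J))
    (fun J _ J' _ h => (V0_disj A J J' h).mono Set.inter_subset_right Set.inter_subset_right)]

open Classical in
theorem cls_valuation {σ ι : Type} [Finite σ] [Fintype ι] (A : ι → Set (σ → ℂ))
    (hA : ∀ i, Constr (A i)) (a : ι → ℤ) (B : Set (σ → ℂ)) (hB : Constr B)
    (h : ∀ x, ∑ i, (if x ∈ A i then a i else 0) = if x ∈ B then 1 else 0) :
    ∑ i, (a i : K0) * cls (A i) = cls B := by
  have hJ : ∀ J : Finset ι, ∀ x ∈ V0_at A J,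
      ∑ i, (if i ∈ J then a i else 0) = if x ∈ B then 1 else 0 := by
    intro J x hx
    rw [← h x]
    refine Finset.sum_congr rfl fun i _ => ?_
    by_cases hi : i ∈ J
    · rw [if_pos hi, if_pos ((hx i).2 hi)]
    · rw [if_neg hi, if_neg (fun h' => hi ((hx i).1 h'))]
  have hmain : ∀ J : Finset ι, ((∑ i, (if i ∈ J then a i else 0) : ℤ) : K0) * cls (V0_at A J) =
      cls (B ∩ V0_at A J) := by
    intro J
    rcases Set.eq_empty_or_nonempty (V0_at A J) with he | ⟨x, hx⟩
    · rw [he, Set.inter_empty, cls_empty, mul_zero]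
    · by_cases hxB : x ∈ B
      · have h1 := hJ J x hx
        rw [if_pos hxB] at h1
        have h2 : B ∩ V0_at A J = V0_at A J := by
          refine Set.inter_eq_right.2 fun y hy => ?_
          by_contra hyB
          have h3 := hJ J y hy
          rw [if_neg hyB, h1] at h3
          exact one_ne_zero h3
        rw [h1, h2, Int.cast_one, one_mul]
      · have h1 := hJ J x hx
        rw [if_neg hxB] at h1
        have h2 : B ∩ V0_at A J = ∅ := by
          refine Set.eq_empty_iff_forall_notMem.2 fun y hy => ?_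
          have h3 := hJ J y hy.2
          rw [if_pos hy.1, h1] at h3
          exact zero_ne_one h3
        rw [h1, h2, Int.cast_zero, zero_mul, cls_empty]
  calc ∑ i, (a i : K0) * cls (A i)
      = ∑ i, ∑ J : Finset ι, (if i ∈ J then (a i : K0) * cls (V0_at A J) else 0) := by
        refine Finset.sum_congr rfl fun i _ => ?_
        rw [V0_cls A hA i, Finset.mul_sum]
        refine Finset.sum_congr rfl fun J _ => ?_
        rw [mul_ite, mul_zero]
    _ = ∑ J : Finset ι, ∑ i, (if i ∈ J then (a i : K0) * cls (V0_at A J) else 0) :=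
        Finset.sum_comm
    _ = ∑ J : Finset ι, ((∑ i, (if i ∈ J then a i else 0) : ℤ) : K0) * cls (V0_at A J) := by
        refine Finset.sum_congr rfl fun J _ => ?_
        rw [Int.cast_sum, Finset.sum_mul]
        refine Finset.sum_congr rfl fun i _ => ?_
        by_cases hi : i ∈ J
        · rw [if_pos hi, if_pos hi]
        · rw [if_neg hi, if_neg hi, Int.cast_zero, zero_mul]
    _ = ∑ J : Finset ι, cls (B ∩ V0_at A J) := Finset.sum_congr rfl fun J _ => hmain J
    _ = cls B := (V0_clsB A hA B hB).symm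

end CB
end MotMono
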